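import Pool.Agent.KS6_81.SQ.End
import Pool.Graph.R_pool_sql_team_seeded_620a6dc7.helper748_mc_.FanThm

set_option autoImplicit false

/-! # The root `-3/d` for ternary forms with semi-quasi-homogeneous singularities -/

namespace Pool.Agent.KS6_81.SQ

open MvPolynomial Finset
open Pool.Agent.Helper748.MC (lin Exact exact_lin root_of_not_exact funEq_unit lcomb_unit)
open Pool.Agent.H628R4.TP (IsBFunction)

/-- The form `f` of degree `d` defines a plane curve with semi-quasi-homogeneous singularities which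
impose independent conditions.

In suitable linear coordinates `f = ∏ F_i ^ n_i` with forms `F_i` of degree `a_i`, `h = ∏ F_i` squarefree
of degree `δ`, `n_i ≥ 1` arbitrary, and

* `h(0, 0, 1) ≠ 0`, and no singular point `p` of the curve `h = 0` lies on the line `z = 0`;
* `Sqh`: at each singular point `p` there are étale polynomial coordinates `Φ` of the affine plane
  `z = 1` and weights `w` such that `F_i = H_i +` terms of weight `≥ D_i + κ`, `κ ≥ 1`, where `H_i` is
  weighted homogeneous of weight `D_i` and `∏ H_i = 0` has no singular points outside of the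
  origin; and with `D = ∑ D_i` and a number `E = E_p ≥ 0`: `D + 1 ≤ E + 2 (w_0 + w_1) + κ`, and
  `D + 1 ≤ E + (w_0 + w_1) + M`, if `M = 3 ∑ n_i D_i / d` is an integer;
* the conditions of weight `≥ E_p` at `p` are independent on forms of degree `δ - 6`: for some
  `e ≤ δ - 5` there are forms `j_0, …, j_e` of degree `e` with `j_i ≡ x ^ (e - i) y ^ i` modulo `z` which
  have the weight `≥ E_p` at `p`, for all singular points `p` (for `e = δ - 5` these are just independent
  conditions; if all `E_p = 0`, then `e = 0`, `j_0 = 1`);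
* no linear vector field `V` with divergence zero satisfies `V f = μ f` with `μ ≠ 0`. -/
def SqhForm (d : ℕ) (f : MvPolynomial (Fin 3) ℂ) : Prop :=
  ∃ A : Matrix (Fin 3) (Fin 3) ℂ, IsUnit A.det ∧
    ∃ (r : ℕ) (F : Fin r → S) (a n : Fin r → ℕ) (e : ℕ) (j : ℕ → S),
      lin A f = ∏ i, F i ^ n i ∧ Cur F a n d e j ∧
      ∀ (V : Fin 3 → S) (μ : ℂ), (∀ k, (V k).IsHomogeneous 1) →
        ∑ k, MvPolynomial.pderiv k (V k) = 0 →
        ∑ k, V k * MvPolynomial.pderiv k (lin A f) = C μ * lin A f → μ = 0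

lemma SqhForm.pos {d : ℕ} {f : MvPolynomial (Fin 3) ℂ} (h : SqhForm d f) : 0 < d := by
  obtain ⟨A, -, r, F, a, n, e, j, -, hC, -⟩ := h
  exact hC.dpos

lemma SqhForm.ne_zero {d : ℕ} {f : MvPolynomial (Fin 3) ℂ} (h : SqhForm d f) : f ≠ 0 := by
  obtain ⟨A, -, r, F, a, n, e, j, hf, hC, -⟩ := h
  rintro rfl
  rw [map_zero] at hf
  have h0 := hC.sqf.ne_zero
  rw [Finset.prod_ne_zero_iff] at h0
  exact (Finset.prod_ne_zero_iff.2 fun i hi => pow_ne_zero (n i) (h0 i hi)) hf.symm

/-- The class of `f ^ (-3/d)` is not zero. -/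
theorem SqhForm.not_exact {d : ℕ} {f : MvPolynomial (Fin 3) ℂ} (h : SqhForm d f) :
    ¬ Exact d f (-3 / d : ℂ) := by
  obtain ⟨A, hA, r, F, a, n, e, j, hf, hC, hlin⟩ := h
  intro hE
  have h1 := exact_lin hE A hA
  rw [hf] at h1 hlin
  exact Pool.Agent.KS6_81.SQ.not_exact hC hlin h1

/-- **The root `-3/d`.** -/
theorem SqhForm.root {d : ℕ} {f : MvPolynomial (Fin 3) ℂ} (hf : f.IsHomogeneous d)
    (h : SqhForm d f) {b : Polynomial ℂ} (hb : IsBFunction f b) : b.eval (-3 / d : ℂ) = 0 :=
  root_of_not_exact (fun _ : Unit => f) d h.pos (fun _ => hf) b (funEq_unit f b hb)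
    (fun _ => 1) (by rw [lcomb_unit]; exact h.ne_zero) (by rw [lcomb_unit]; exact h.not_exact)

/-! ## The case of few conditions: products of lines -/

variable {r : ℕ}

/-- the number of the points of the list `q` equal to `p` -/
noncomputable def cnt {m : ℕ} (q : Fin m → Fin 2 → ℂ) (p : Fin 2 → ℂ) : ℕ := by
  classical
  exact (univ.filter fun k => q k = p).card

lemma O_prod {w : Fin 2 → ℕ} {ι : Type} (s : Finset ι) {f : ι → P} {E : ι → ℕ}
    (h : ∀ i ∈ s, O w (E i) (f i)) : O w ((∑ i ∈ s, E i : ℕ) : ℤ) (∏ i ∈ s, f i) := by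
  classical
  induction s using Finset.induction_on with
  | empty =>
    rw [Finset.prod_empty]
    exact Hg_one.O.mono (by simp)
  | insert i s hi ih =>
    rw [Finset.prod_insert hi, Finset.sum_insert hi]
    push_cast at ih ⊢
    exact (h i (Finset.mem_insert_self _ _)).mul
      (ih fun i hi => h i (Finset.mem_insert_of_mem hi))

/-- a polynomial without constant term -/
lemma O_min {w : Fin 2 → ℕ} {a : P} (ha : eval 0 a = 0) : O w (min (w 0) (w 1) : ℕ) a := by
  intro m hm
  have h1 : a.coeff 0 = 0 := by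
    rw [← constantCoeff_eq, ← eval_zero]
    exact ha
  have h2 : m ≠ 0 := by
    rintro rfl
    exact hm h1
  rw [wt_eq]
  have h3 : 1 ≤ m 0 ∨ 1 ≤ m 1 := by
    by_contra h4
    push Not at h4
    apply h2
    refine ex_ext ?_ ?_
    · have := h4.1
      show m 0 = 0
      omega
    · have := h4.2
      show m 1 = 0
      omega
  have h4 : min (w 0) (w 1) ≤ w 0 * m 0 + w 1 * m 1 := by
    rcases h3 with h5 | h5
    · calc min (w 0) (w 1) ≤ w 0 := min_le_left _ _
        _ ≤ w 0 * m 0 := Nat.le_mul_of_pos_right _ h5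
        _ ≤ _ := Nat.le_add_right _ _
    · calc min (w 0) (w 1) ≤ w 1 := min_le_right _ _
        _ ≤ w 1 * m 1 := Nat.le_mul_of_pos_right _ h5
        _ ≤ _ := Nat.le_add_left _ _
  exact_mod_cast h4

lemma O_phi {m : ℕ} (q : Fin m → Fin 2 → ℂ) (p : Fin 2 → ℂ) (w : Fin 2 → ℕ) {Φ : P →ₐ[ℂ] P}
    (hp : ∀ l, eval 0 (Φ (X l)) = p l) (j : ℕ) :
    O w ((cnt q p * min (w 0) (w 1) : ℕ) : ℤ) (Φ (ev (phi q j))) := by
  classical
  have h1 : cnt q p * min (w 0) (w 1) = ∑ k, if q k = p then min (w 0) (w 1) else 0 := by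
    rw [← Finset.sum_filter, Finset.sum_const, smul_eq_mul]
    unfold cnt
    congr!
  rw [h1]
  unfold phi
  rw [map_prod, map_prod]
  refine O_prod univ fun k _ => ?_
  split_ifs with h2
  · refine O_min ?_
    have hC : ∀ c : ℂ, Φ (C c) = C c := fun c => Φ.commutes c
    have hC' : ∀ c : ℂ, ev (C c) = C c := fun c => ev.commutes c
    unfold fj
    split_ifs
    · unfold lx
      have e0 : ev (X 0) = X 0 := by simp [ev]
      have e2 : ev (X 2) = 1 := by simp [ev]
      rw [map_sub, map_mul, hC', e0, e2, mul_one, map_sub, hC, map_sub, hp, eval_C, h2, sub_self]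
    · unfold ly
      have e0 : ev (X 1) = X 1 := by simp [ev]
      have e2 : ev (X 2) = 1 := by simp [ev]
      rw [map_sub, map_mul, hC', e0, e2, mul_one, map_sub, hC, map_sub, hp, eval_C, h2, sub_self]
  · exact O_nonpos (by simp) _

lemma rz_phi {m : ℕ} (q : Fin m → Fin 2 → ℂ) {i : ℕ} (hi : i ≤ m) :
    rz (phi q i) = X 0 ^ i * X 1 ^ (m - i) := by
  have hC : ∀ c : ℂ, rz (C c) = C c := fun c => rz.commutes c
  unfold phi
  rw [map_prod]
  have h1 : ∀ k : Fin m, rz (fj q i k) = if (k : ℕ) < i then X 0 else X 1 := by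
    intro k
    unfold fj
    split_ifs
    · unfold lx
      rw [map_sub, map_mul, rz0, rz2, mul_zero, sub_zero]
    · unfold ly
      rw [map_sub, map_mul, rz1, rz2, mul_zero, sub_zero]
  rw [Finset.prod_congr rfl fun k _ => h1 k, Finset.prod_ite, Finset.prod_const, Finset.prod_const]
  have h2 : (univ.filter fun k : Fin m => (k : ℕ) < i).card = i := by
    have h3 : (univ.filter fun k : Fin m => (k : ℕ) < i) =
        (univ : Finset (Fin i)).map ⟨fun k : Fin i => (⟨k, by omega⟩ : Fin m),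
          fun a b h => by
            simp only [Fin.mk.injEq] at h
            exact Fin.ext h⟩ := by
      ext k
      simp only [mem_filter, mem_univ, true_and, mem_map, Function.Embedding.coeFn_mk]
      constructor
      · intro h
        exact ⟨⟨k, h⟩, rfl⟩
      · rintro ⟨x, rfl⟩
        exact x.2
    rw [h3, Finset.card_map, Finset.card_univ, Fintype.card_fin]
  have h3 : (univ.filter fun k : Fin m => ¬ (k : ℕ) < i).card = m - i := by
    have h4 := Finset.card_filter_add_card_filter_not (s := (univ : Finset (Fin m)))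
      (fun k : Fin m => (k : ℕ) < i)
    rw [h2, Finset.card_univ, Fintype.card_fin] at h4
    omega
  rw [h2, h3]

/-- Products of lines: the conditions are independent if the singular points `p`, each counted
`c_p ≥ E_p / min(w)` times, are at most `δ - 5` points. -/
theorem cur_of_points {F : Fin r → S} {a n : Fin r → ℕ} {d m : ℕ} (q : Fin m → Fin 2 → ℂ)
    (hom : ∀ i, (F i).IsHomogeneous (a i)) (apos : ∀ i, 0 < a i) (npos : ∀ i, 0 < n i)
    (deg : d = ∑ i, n i * a i) (dpos : 0 < d) (sqf : Squarefree (∏ i, F i))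
    (pt : eval ![0, 0, 1] (∏ i, F i) ≠ 0) (len : m = 0 ∨ m + 5 ≤ ∑ i, a i)
    (sing : ∀ Q : Fin 3 → ℂ, Q ≠ 0 → eval Q (∏ i, F i) = 0 →
      (∀ k, eval Q (MvPolynomial.pderiv k (∏ i, F i)) = 0) → Q 2 ≠ 0 ∧
      ∃ (w : Fin 2 → ℕ) (D : Fin r → ℕ) (H : Fin r → P) (Φ : P →ₐ[ℂ] P) (κ : ℕ),
        Sqh F n d (cnt q ![Q 0 / Q 2, Q 1 / Q 2] * min (w 0) (w 1)) ![Q 0 / Q 2, Q 1 / Q 2]
          w D H Φ κ) :
    Cur F a n d m (fun i => phi q (m - i)) where
  hom := hom
  apos := apos
  npos := npos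
  deg := deg
  dpos := dpos
  sqf := sqf
  pt := pt
  len := len
  jhom i _ := phi_hom q _
  jz i hi := by
    rw [rz_iff, map_sub, rz_phi q (by omega), map_mul, map_pow, map_pow, rz0, rz1]
    have : m - (m - i) = i := by omega
    rw [this, sub_self]
  sing Q hQ h1 h2 := by
    obtain ⟨h3, w, D, H, Φ, κ, hS⟩ := sing Q hQ h1 h2
    exact ⟨h3, w, D, H, Φ, κ, _, hS, fun i _ => O_phi q _ w hS.pt _⟩

end Pool.Agent.KS6_81.SQ
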