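import Pool.Agent.KS6_81.SQ.LocP

set_option autoImplicit false

/-! # Change of coordinates (étale polynomial maps) and Krull's intersection theorem -/

namespace Pool.Agent.KS6_81.SQ

open MvPolynomial Finset

variable {w : Fin 2 → ℕ}

/-- the Jacobian determinant -/
noncomputable def jac (Φ : P →ₐ[ℂ] P) : P :=
  MvPolynomial.pderiv 0 (Φ (X 0)) * MvPolynomial.pderiv 1 (Φ (X 1)) -
    MvPolynomial.pderiv 0 (Φ (X 1)) * MvPolynomial.pderiv 1 (Φ (X 0))

/-- the pull back of a one form -/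
noncomputable def pl (Φ : P →ₐ[ℂ] P) (θ : Fin 2 → P) : Fin 2 → P := fun k =>
  MvPolynomial.pderiv k (Φ (X 0)) * Φ (θ 0) + MvPolynomial.pderiv k (Φ (X 1)) * Φ (θ 1)

lemma chain (Φ : P →ₐ[ℂ] P) (a : P) (k : Fin 2) :
    MvPolynomial.pderiv k (Φ a) = MvPolynomial.pderiv k (Φ (X 0)) * Φ (MvPolynomial.pderiv 0 a) +
      MvPolynomial.pderiv k (Φ (X 1)) * Φ (MvPolynomial.pderiv 1 a) := by
  induction a using MvPolynomial.induction_on with
  | C c =>
    have h1 : Φ (C c) = C c := Φ.commutes c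
    rw [h1, pderiv_C, pderiv_C, pderiv_C, map_zero]
    ring
  | add p q hp hq =>
    simp only [map_add, hp, hq]
    ring
  | mul_X p i hp =>
    simp only [map_mul, Derivation.leibniz, smul_eq_mul, hp, map_add]
    fin_cases i
    · simp only [Fin.zero_eta, Fin.isValue, pderiv_X_self, map_one,
        pderiv_X_of_ne (show (0 : Fin 2) ≠ 1 by decide), map_zero]
      ring
    · simp only [Fin.mk_one, Fin.isValue, pderiv_X_self, map_one,
        pderiv_X_of_ne (show (1 : Fin 2) ≠ 0 by decide), map_zero]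
      ring

lemma pl_gr (Φ : P →ₐ[ℂ] P) (a : P) : gr (Φ a) = pl Φ (gr a) := by
  funext k
  exact chain Φ a k

lemma pl_add (Φ : P →ₐ[ℂ] P) (a b : Fin 2 → P) : pl Φ (a + b) = pl Φ a + pl Φ b := by
  funext k
  simp only [pl, Pi.add_apply, map_add]
  ring

lemma pl_smul (Φ : P →ₐ[ℂ] P) (f : P) (b : Fin 2 → P) : pl Φ (f • b) = Φ f • pl Φ b := by
  funext k
  simp only [pl, Pi.smul_apply, smul_eq_mul, map_mul]
  ring

lemma pl_zero (Φ : P →ₐ[ℂ] P) : pl Φ 0 = 0 := by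
  funext k
  simp only [pl, Pi.zero_apply, map_zero]
  ring

lemma pl_sum (Φ : P →ₐ[ℂ] P) {ι : Type*} (s : Finset ι) (a : ι → Fin 2 → P) :
    pl Φ (∑ i ∈ s, a i) = ∑ i ∈ s, pl Φ (a i) := by
  classical
  induction s using Finset.induction_on with
  | empty => rw [Finset.sum_empty, Finset.sum_empty, pl_zero]
  | insert i s hi ih => rw [Finset.sum_insert hi, Finset.sum_insert hi, pl_add, ih]

lemma wd_pl (Φ : P →ₐ[ℂ] P) (a b : Fin 2 → P) : wd (pl Φ a) (pl Φ b) = jac Φ * Φ (wd a b) := by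
  unfold wd pl jac
  simp only [map_sub, map_mul]
  ring

lemma rt_pl (Φ : P →ₐ[ℂ] P) (a : Fin 2 → P) : rt (pl Φ a) = jac Φ * Φ (rt a) := by
  unfold rt pl jac
  simp only [map_add, map_sub, Derivation.leibniz, smul_eq_mul, chain Φ (a 0), chain Φ (a 1)]
  rw [pderiv_swap 0 1 (Φ (X 0)), pderiv_swap 0 1 (Φ (X 1))]
  ring

/-- the maximal ideal at the origin -/
noncomputable abbrev nn : Ideal P := idealOfVars (Fin 2) ℂ

lemma X_mem_nn (k : Fin 2) : (X k : P) ∈ nn := Ideal.subset_span ⟨k, rfl⟩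

lemma mem_nn_iff {a : P} : a ∈ nn ↔ eval 0 a = 0 := by
  have h1 := mem_pow_idealOfVars_iff (σ := Fin 2) (R := ℂ) 1 a
  rw [pow_one] at h1
  have h2 : eval 0 a = a.coeff 0 := by
    rw [← constantCoeff_eq, ← eval_zero]
  rw [h1, h2]
  constructor
  · intro h
    by_contra h3
    have := h 0 (mem_support_iff.2 h3)
    simp at this
  · intro h x hx
    by_contra h3
    have h4 : x = 0 := by
      have : x.degree = 0 := by omega
      exact (Finsupp.degree_eq_zero_iff x).1 this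
    rw [h4, mem_support_iff] at hx
    exact hx h

lemma mem_of_O {K : ℕ} {a : P} (h : O w (((w 0 + w 1) * K : ℕ) : ℤ) a) (hw : ∀ k, 0 < w k) :
    a ∈ nn ^ K := by
  rw [mem_pow_idealOfVars_iff]
  intro x hx
  have h1 := h x (mem_support_iff.1 hx)
  rw [wt_eq] at h1
  rw [Finsupp.degree_eq_sum, Fin.sum_univ_two]
  have h0 := hw 0
  by_contra h2
  push Not at h2
  have h3 : (w 0 + w 1) * (x 0 + x 1) < (w 0 + w 1) * K := by
    apply Nat.mul_lt_mul_of_pos_left h2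
    omega
  have h4 : w 0 * x 0 + w 1 * x 1 ≤ (w 0 + w 1) * (x 0 + x 1) := by
    nlinarith [Nat.zero_le (w 0 * x 1), Nat.zero_le (w 1 * x 0)]
  have h5 : (((w 0 + w 1) * K : ℕ) : ℤ) ≤ ((w 0 * x 0 + w 1 * x 1 : ℕ) : ℤ) := by
    push_cast at h1 ⊢
    exact h1
  have h6 : (w 0 + w 1) * K ≤ w 0 * x 0 + w 1 * x 1 := by exact_mod_cast h5
  omega

section E

variable {E : P →ₐ[ℂ] P} (hE : ∀ k, E (X k) - X k ∈ nn ^ 2)

include hE

lemma E_monomial (m : Fin 2 →₀ ℕ) (c : ℂ) :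
    E (monomial m c) - monomial m c ∈ nn ^ (m 0 + m 1 + 1) := by
  have hEX : ∀ k, E (X k) ∈ nn := by
    intro k
    have h1 : E (X k) = (E (X k) - X k) + X k := by ring
    rw [h1]
    refine Ideal.add_mem _ (Ideal.pow_le_self (by norm_num) (hE k)) (X_mem_nn k)
  have hpow : ∀ (k : Fin 2) (n : ℕ), E (X k ^ n) - X k ^ n ∈ nn ^ (n + 1) := by
    intro k n
    induction n with
    | zero => simp
    | succ n ih =>
      have h1 : E (X k ^ (n + 1)) - X k ^ (n + 1) =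
          (E (X k ^ n) - X k ^ n) * E (X k) + X k ^ n * (E (X k) - X k) := by
        rw [pow_succ, map_mul]
        ring
      rw [h1]
      refine Ideal.add_mem _ ?_ ?_
      · rw [pow_succ nn (n + 1)]
        exact Ideal.mul_mem_mul ih (hEX k)
      · have : n + 1 + 1 = n + 2 := by ring
        rw [this, pow_add]
        exact Ideal.mul_mem_mul (Ideal.pow_mem_pow (X_mem_nn k) n) (hE k)
  have hpow2 : ∀ (k : Fin 2) (n : ℕ), E (X k ^ n) ∈ nn ^ n := by
    intro k n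
    rw [map_pow]
    exact Ideal.pow_mem_pow (hEX k) n
  have h1 : E (monomial m c) - monomial m c =
      C c * ((E (X 0 ^ m 0) - X 0 ^ m 0) * E (X 1 ^ m 1) +
        X 0 ^ m 0 * (E (X 1 ^ m 1) - X 1 ^ m 1)) := by
    have h2 : E (C c) = C c := E.commutes c
    rw [monomial_two, map_mul, map_mul, h2]
    ring
  rw [h1]
  refine Ideal.mul_mem_left _ _ (Ideal.add_mem _ ?_ ?_)
  · have : m 0 + m 1 + 1 = (m 0 + 1) + m 1 := by ring
    rw [this, pow_add]
    exact Ideal.mul_mem_mul (hpow 0 _) (hpow2 1 _)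
  · have : m 0 + m 1 + 1 = m 0 + (m 1 + 1) := by ring
    rw [this, pow_add]
    exact Ideal.mul_mem_mul (Ideal.pow_mem_pow (X_mem_nn 0) _) (hpow 1 _)

lemma E_sub {K : ℕ} {a : P} (ha : a ∈ nn ^ K) : E a - a ∈ nn ^ (K + 1) := by
  have h1 : E a - a = ∑ m ∈ a.support, (E (monomial m (a.coeff m)) - monomial m (a.coeff m)) := by
    rw [Finset.sum_sub_distrib, ← map_sum, ← a.as_sum]
  rw [h1]
  refine Ideal.sum_mem _ fun m hm => ?_
  rw [mem_pow_idealOfVars_iff] at ha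
  have h2 := ha m hm
  rw [Finsupp.degree_eq_sum, Fin.sum_univ_two] at h2
  exact Ideal.pow_le_pow_right (by omega) (E_monomial hE m _)

lemma E_surj (b : P) (K : ℕ) : ∃ b', b - E b' ∈ nn ^ K := by
  induction K with
  | zero => exact ⟨0, by simp⟩
  | succ K ih =>
    obtain ⟨b', h1⟩ := ih
    refine ⟨b' + (b - E b'), ?_⟩
    have h2 : b - E (b' + (b - E b')) = -(E (b - E b') - (b - E b')) := by
      rw [map_add]
      ring
    rw [h2]
    exact Ideal.neg_mem_iff _ |>.2 (E_sub hE h1)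

lemma E_inj {K : ℕ} {a : P} (ha : E a ∈ nn ^ K) : a ∈ nn ^ K := by
  have key : ∀ i, i ≤ K → a ∈ nn ^ i := by
    intro i
    induction i with
    | zero => intro _; simp
    | succ i ih =>
      intro hi
      have h1 := E_sub hE (ih (by omega))
      have h2 : a = E a - (E a - a) := by ring
      rw [h2]
      exact Ideal.sub_mem _ (Ideal.pow_le_pow_right hi ha) h1
  exact key K le_rfl

end E

/-- the affine coordinates at `p` adapted to `Φ` -/
noncomputable def psi (c : Fin 2 → Fin 2 → ℂ) (p : Fin 2 → ℂ) : P →ₐ[ℂ] P :=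
  aeval fun k => C (c k 0) * (X 0 - C (p 0)) + C (c k 1) * (X 1 - C (p 1))

/-- the ideal of the point `p` -/
noncomputable def mp (p : Fin 2 → ℂ) : Ideal P := RingHom.ker (eval p)

lemma mem_mp {p : Fin 2 → ℂ} {a : P} : a ∈ mp p ↔ eval p a = 0 := RingHom.mem_ker

lemma psi_mem (c : Fin 2 → Fin 2 → ℂ) (p : Fin 2 → ℂ) {K : ℕ} {a : P} (ha : a ∈ nn ^ K) :
    psi c p a ∈ mp p ^ K := by
  have h1 : (nn).map (psi c p) ≤ mp p := by
    rw [Ideal.map_span, Ideal.span_le]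
    rintro _ ⟨_, ⟨k, rfl⟩, rfl⟩
    show psi c p (X k) ∈ mp p
    rw [mem_mp]
    simp [psi]
  have h2 : psi c p a ∈ (nn ^ K).map (psi c p) := Ideal.mem_map_of_mem _ ha
  rw [Ideal.map_pow] at h2
  exact Ideal.pow_right_mono h1 K h2

lemma sub_linear_mem (a : P) :
    a - (C (eval 0 a) + C (eval 0 (MvPolynomial.pderiv 0 a)) * X 0 +
      C (eval 0 (MvPolynomial.pderiv 1 a)) * X 1) ∈ nn ^ 2 := by
  induction a using MvPolynomial.induction_on with
  | C c => simp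
  | add p q hp hq =>
    have := Ideal.add_mem _ hp hq
    convert this using 1
    simp only [map_add]
    ring
  | mul_X p i hp =>
    have h1 : p - C (eval 0 p) ∈ nn := by
      rw [mem_nn_iff]
      simp
    have h2 : (p - C (eval 0 p)) * X i ∈ nn ^ 2 := by
      rw [pow_two]
      exact Ideal.mul_mem_mul h1 (X_mem_nn i)
    convert h2 using 1
    simp only [map_mul, Derivation.leibniz, smul_eq_mul, map_add, eval_X, Pi.zero_apply, mul_zero,
      zero_mul, C_0]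
    fin_cases i
    · simp only [Fin.zero_eta, Fin.isValue, pderiv_X_self, map_one, mul_one,
        pderiv_X_of_ne (show (0 : Fin 2) ≠ 1 by decide), map_zero, mul_zero]
      ring
    · simp only [Fin.mk_one, Fin.isValue, pderiv_X_self, map_one, mul_one,
        pderiv_X_of_ne (show (1 : Fin 2) ≠ 0 by decide), map_zero, mul_zero]
      ring

lemma exists_inv (m : Fin 2 → Fin 2 → ℂ) (hm : m 0 0 * m 1 1 - m 0 1 * m 1 0 ≠ 0) :
    ∃ c : Fin 2 → Fin 2 → ℂ, (c 0 0 * m 0 0 + c 0 1 * m 0 1 = 1 ∧ c 0 0 * m 1 0 + c 0 1 * m 1 1 = 0 ∧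
      c 1 0 * m 0 0 + c 1 1 * m 0 1 = 0 ∧ c 1 0 * m 1 0 + c 1 1 * m 1 1 = 1) ∧
      (m 0 0 * c 0 0 + m 1 0 * c 1 0 = 1 ∧ m 0 0 * c 0 1 + m 1 0 * c 1 1 = 0 ∧
      m 0 1 * c 0 0 + m 1 1 * c 1 0 = 0 ∧ m 0 1 * c 0 1 + m 1 1 * c 1 1 = 1) := by
  set δ := m 0 0 * m 1 1 - m 0 1 * m 1 0 with hδ
  refine ⟨![![m 1 1 / δ, -(m 1 0) / δ], ![-(m 0 1) / δ, m 0 0 / δ]], ?_⟩
  simp only [Matrix.cons_val_zero, Matrix.cons_val_one]
  refine ⟨⟨?_, ?_, ?_, ?_⟩, ?_, ?_, ?_, ?_⟩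
  all_goals
    field_simp
    try rw [hδ]
    ring

lemma C_one_eq {a b c d : ℂ} (h : a * b + c * d = 1) : (C a * C b + C c * C d : P) = 1 := by
  rw [← C_mul, ← C_mul, ← C_add, h, C_1]

lemma C_zero_eq {a b c d : ℂ} (h : a * b + c * d = 0) : (C a * C b + C c * C d : P) = 0 := by
  rw [← C_mul, ← C_mul, ← C_add, h, C_0]

section Phi

variable {Φ : P →ₐ[ℂ] P} {p : Fin 2 → ℂ} (hp : ∀ l, eval 0 (Φ (X l)) = p l)
  (hJ : eval 0 (jac Φ) ≠ 0)

include hp hJ

lemma exists_psi : ∃ c : Fin 2 → Fin 2 → ℂ, ∃ ψ' : P →ₐ[ℂ] P,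
    (∀ k, Φ (psi c p (X k)) - X k ∈ nn ^ 2) ∧ (∀ a, psi c p (ψ' a) = a) := by
  set m : Fin 2 → Fin 2 → ℂ := fun k l => eval 0 (MvPolynomial.pderiv k (Φ (X l))) with hm
  have hδ0 : m 0 0 * m 1 1 - m 0 1 * m 1 0 ≠ 0 := by
    have : eval 0 (jac Φ) = m 0 0 * m 1 1 - m 0 1 * m 1 0 := by
      simp only [jac, map_sub, map_mul, hm]
    rwa [← this]
  obtain ⟨c, ⟨h1, h2, h3, h4⟩, g1, g2, g3, g4⟩ := exists_inv m hδ0
  refine ⟨c, aeval (fun l => C (p l) + C (m 0 l) * X 0 + C (m 1 l) * X 1), ?_, ?_⟩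
  · have e0 := sub_linear_mem (Φ (X 0))
    have e1 := sub_linear_mem (Φ (X 1))
    rw [hp] at e0 e1
    have hc : ∀ z : ℂ, Φ (C z) = C z := fun z => Φ.commutes z
    have key : ∀ k, Φ (psi c p (X k)) = C (c k 0) * (Φ (X 0) - C (p 0)) +
        C (c k 1) * (Φ (X 1) - C (p 1)) := by
      intro k
      simp only [psi, aeval_X, map_add, map_mul, map_sub, hc]
    intro k
    fin_cases k
    · have e2 := Ideal.add_mem _ (Ideal.mul_mem_left _ (C (c 0 0)) e0)
        (Ideal.mul_mem_left _ (C (c 0 1)) e1)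
      convert e2 using 1
      show Φ (psi c p (X 0)) - X 0 = _
      rw [key]
      show _ = C (c 0 0) * (Φ (X 0) - (C (p 0) + C (m 0 0) * X 0 + C (m 1 0) * X 1)) +
        C (c 0 1) * (Φ (X 1) - (C (p 1) + C (m 0 1) * X 0 + C (m 1 1) * X 1))
      linear_combination (X 0) * C_one_eq h1 + (X 1) * C_zero_eq h2
    · have e2 := Ideal.add_mem _ (Ideal.mul_mem_left _ (C (c 1 0)) e0)
        (Ideal.mul_mem_left _ (C (c 1 1)) e1)
      convert e2 using 1
      show Φ (psi c p (X 1)) - X 1 = _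
      rw [key]
      show _ = C (c 1 0) * (Φ (X 0) - (C (p 0) + C (m 0 0) * X 0 + C (m 1 0) * X 1)) +
        C (c 1 1) * (Φ (X 1) - (C (p 1) + C (m 0 1) * X 0 + C (m 1 1) * X 1))
      linear_combination (X 0) * C_zero_eq h3 + (X 1) * C_one_eq h4
  · intro a
    have hc : ∀ z : ℂ, psi c p (C z) = C z := fun z => (psi c p).commutes z
    have h5 : (psi c p).comp (aeval (fun l => C (p l) + C (m 0 l) * X 0 + C (m 1 l) * X 1)) =
        AlgHom.id ℂ P := by
      refine MvPolynomial.algHom_ext fun l => ?_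
      simp only [AlgHom.comp_apply, aeval_X, map_add, map_mul, hc, AlgHom.id_apply]
      have hX : ∀ k, psi c p (X k) = C (c k 0) * (X 0 - C (p 0)) + C (c k 1) * (X 1 - C (p 1)) := by
        intro k
        simp only [psi, aeval_X]
      rw [hX, hX]
      fin_cases l
      · show C (p 0) + C (m 0 0) * (C (c 0 0) * (X 0 - C (p 0)) + C (c 0 1) * (X 1 - C (p 1))) +
          C (m 1 0) * (C (c 1 0) * (X 0 - C (p 0)) + C (c 1 1) * (X 1 - C (p 1))) = X 0
        linear_combination (X 0 - C (p 0)) * C_one_eq g1 + (X 1 - C (p 1)) * C_zero_eq g2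
      · show C (p 1) + C (m 0 1) * (C (c 0 0) * (X 0 - C (p 0)) + C (c 0 1) * (X 1 - C (p 1))) +
          C (m 1 1) * (C (c 1 0) * (X 0 - C (p 0)) + C (c 1 1) * (X 1 - C (p 1))) = X 1
        linear_combination (X 0 - C (p 0)) * C_zero_eq g3 + (X 1 - C (p 1)) * C_one_eq g4
    exact AlgHom.congr_fun h5 a

lemma Phi_surj (b : P) (K : ℕ) : ∃ b', b - Φ b' ∈ nn ^ K := by
  obtain ⟨c, ψ', h1, -⟩ := exists_psi hp hJ
  obtain ⟨b', hb'⟩ := E_surj (E := Φ.comp (psi c p)) h1 b K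
  exact ⟨psi c p b', hb'⟩

lemma Phi_inj {K : ℕ} {a : P} (ha : Φ a ∈ nn ^ K) : a ∈ mp p ^ K := by
  obtain ⟨c, ψ', h1, h2⟩ := exists_psi hp hJ
  rw [← h2 a]
  refine psi_mem c p (E_inj (E := Φ.comp (psi c p)) h1 ?_)
  show Φ (psi c p (ψ' a)) ∈ _
  rwa [h2 a]

/-- transfer of the local statement to the original coordinates, up to order `K` -/
lemma transfer (hw : ∀ k, 0 < w k) {h φ : P} {τ θ : Fin 2 → P}
    (H : ∀ K : ℕ, ∃ (b : P) (c : Fin 2 → P), OF w K (Φ φ • pl Φ θ - b • pl Φ τ - Φ h • c))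
    (K : ℕ) : ∃ (b : P) (c : Fin 2 → P), ∀ k, (φ • θ - b • τ - h • c) k ∈ mp p ^ K := by
  obtain ⟨b, c, h1⟩ := H ((w 0 + w 1) * K + (w 0 + w 1))
  obtain ⟨b', hb'⟩ := Phi_surj hp hJ b K
  -- an inverse of the Jacobian modulo the power
  obtain ⟨v, hv⟩ : ∃ v, 1 - v * jac Φ ∈ nn ^ K := by
    have e1 : Ideal.span {jac Φ} ⊔ nn = ⊤ := by
      rw [Ideal.eq_top_iff_one]
      have e2 : (1 : P) = C (eval 0 (jac Φ))⁻¹ * jac Φ + (1 - C (eval 0 (jac Φ))⁻¹ * jac Φ) := by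
        ring
      rw [e2]
      refine Ideal.add_mem _ (Ideal.mem_sup_left (Ideal.mul_mem_left _ _
        (Ideal.mem_span_singleton_self _))) (Ideal.mem_sup_right ?_)
      rw [mem_nn_iff, map_sub, map_mul, map_one, eval_C, inv_mul_cancel₀ hJ, sub_self]
    have e2 : Ideal.span {jac Φ} ⊔ nn ^ K = ⊤ := Ideal.sup_pow_eq_top e1
    rw [Ideal.eq_top_iff_one, Submodule.mem_sup] at e2
    obtain ⟨y, hy, z, hz, hyz⟩ := e2
    obtain ⟨v, rfl⟩ := Ideal.mem_span_singleton'.1 hy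
    exact ⟨v, by rw [← hyz]; simpa using hz⟩
  have hmem : ∀ k, (Φ φ • pl Φ θ - b • pl Φ τ - Φ h • c) k ∈ nn ^ K := by
    intro k
    refine mem_of_O (w := w) ((h1 k).mono ?_) hw
    push_cast
    have : (w k : ℤ) ≤ w 0 + w 1 := by
      fin_cases k
      · show (w 0 : ℤ) ≤ w 0 + w 1
        omega
      · show (w 1 : ℤ) ≤ w 0 + w 1
        omega
    omega
  set m : Fin 2 → Fin 2 → P := fun k l => MvPolynomial.pderiv k (Φ (X l)) with hm
  -- the adjugate
  set ct' : Fin 2 → P := ![m 1 1 * c 0 - m 0 1 * c 1, m 0 0 * c 1 - m 1 0 * c 0] with hct'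
  obtain ⟨c0, hc0⟩ := Phi_surj hp hJ (v * ct' 0) K
  obtain ⟨c1, hc1⟩ := Phi_surj hp hJ (v * ct' 1) K
  refine ⟨b', ![c0, c1], fun k => Phi_inj hp hJ ?_⟩
  have hm0 := hmem 0
  have hm1 := hmem 1
  simp only [Pi.sub_apply, Pi.smul_apply, smul_eq_mul, pl] at hm0 hm1
  have hq : ∀ {x y : P}, x - y ∈ nn ^ K → Ideal.Quotient.mk (nn ^ K) x =
      Ideal.Quotient.mk (nn ^ K) y := fun h => Ideal.Quotient.eq.2 h
  have hz : ∀ {x : P}, x ∈ nn ^ K → Ideal.Quotient.mk (nn ^ K) x = 0 :=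
    fun h => Ideal.Quotient.eq_zero_iff_mem.2 h
  rw [← Ideal.Quotient.eq_zero_iff_mem]
  have q0 := hz hm0
  have q1 := hz hm1
  have qb := hq hb'
  have qv := hq hv
  have qc0 := hq hc0
  have qc1 := hq hc1
  simp only [hct', Matrix.cons_val_zero, Matrix.cons_val_one, map_mul, map_sub, map_add, map_one,
    jac, hm] at q0 q1 qb qv qc0 qc1
  fin_cases k
  · show Ideal.Quotient.mk (nn ^ K) (Φ (φ * θ 0 - b' * τ 0 - h * c0)) = 0
    simp only [map_sub, map_mul]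
    rw [← qb, ← qc0]
    linear_combination Ideal.Quotient.mk (nn ^ K) v *
      Ideal.Quotient.mk (nn ^ K) (MvPolynomial.pderiv 1 (Φ (X 1))) * q0 -
      Ideal.Quotient.mk (nn ^ K) v *
      Ideal.Quotient.mk (nn ^ K) (MvPolynomial.pderiv 0 (Φ (X 1))) * q1 +
      (Ideal.Quotient.mk (nn ^ K) (Φ φ) * Ideal.Quotient.mk (nn ^ K) (Φ (θ 0)) -
        Ideal.Quotient.mk (nn ^ K) b * Ideal.Quotient.mk (nn ^ K) (Φ (τ 0))) * qv
  · show Ideal.Quotient.mk (nn ^ K) (Φ (φ * θ 1 - b' * τ 1 - h * c1)) = 0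
    simp only [map_sub, map_mul]
    rw [← qb, ← qc1]
    linear_combination Ideal.Quotient.mk (nn ^ K) v *
      Ideal.Quotient.mk (nn ^ K) (MvPolynomial.pderiv 0 (Φ (X 0))) * q1 -
      Ideal.Quotient.mk (nn ^ K) v *
      Ideal.Quotient.mk (nn ^ K) (MvPolynomial.pderiv 1 (Φ (X 0))) * q0 +
      (Ideal.Quotient.mk (nn ^ K) (Φ φ) * Ideal.Quotient.mk (nn ^ K) (Φ (θ 1)) -
        Ideal.Quotient.mk (nn ^ K) b * Ideal.Quotient.mk (nn ^ K) (Φ (τ 1))) * qv

omit hJ hp in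
/-- Krull's intersection theorem -/
lemma krull {h φ : P} {τ θ : Fin 2 → P}
    (H : ∀ K : ℕ, ∃ (b : P) (c : Fin 2 → P), ∀ k, (φ • θ - b • τ - h • c) k ∈ mp p ^ K) :
    ∃ u : P, eval p u ≠ 0 ∧ ∃ (b : P) (c : Fin 2 → P), (u * φ) • θ = b • τ + h • c := by
  classical
  set T : Submodule P (Fin 2 → P) := Submodule.span P {x | x = τ ∨ ∃ c, x = h • c} with hT
  have hTmem : ∀ x, x ∈ T ↔ ∃ (b : P) (c : Fin 2 → P), x = b • τ + h • c := by
    intro x
    constructor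
    · intro hx
      induction hx using Submodule.span_induction with
      | mem x hx =>
        rcases hx with rfl | ⟨c, rfl⟩
        · exact ⟨1, 0, by simp⟩
        · exact ⟨0, c, by simp⟩
      | zero => exact ⟨0, 0, by simp⟩
      | add x y _ _ h1 h2 =>
        obtain ⟨b, c, rfl⟩ := h1
        obtain ⟨b', c', rfl⟩ := h2
        exact ⟨b + b', c + c', by rw [add_smul, smul_add]; abel⟩
      | smul a x _ h1 =>
        obtain ⟨b, c, rfl⟩ := h1
        refine ⟨a * b, a • c, ?_⟩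
        rw [smul_add, mul_smul, smul_comm a h c]
    · rintro ⟨b, c, rfl⟩
      exact Submodule.add_mem _ (Submodule.smul_mem _ _ (Submodule.subset_span (Or.inl rfl)))
        (Submodule.subset_span (Or.inr ⟨c, rfl⟩))
  have hx : T.mkQ (φ • θ) ∈ (⨅ i : ℕ, mp p ^ i • ⊤ : Submodule P ((Fin 2 → P) ⧸ T)) := by
    rw [Submodule.mem_iInf]
    intro K
    obtain ⟨b, c, h1⟩ := H K
    have h2 : φ • θ = (b • τ + h • c) + (φ • θ - b • τ - h • c) := by abel
    set e := φ • θ - b • τ - h • c with he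
    have h3 : e = e 0 • Pi.single 0 1 + e 1 • Pi.single 1 1 := by
      funext k
      fin_cases k
      · simp
      · simp
    rw [h2, map_add]
    have h4 : T.mkQ (b • τ + h • c) = 0 := by
      rw [Submodule.mkQ_apply, Submodule.Quotient.mk_eq_zero]
      exact (hTmem _).2 ⟨b, c, rfl⟩
    rw [h4, zero_add, h3, map_add, map_smul, map_smul]
    exact Submodule.add_mem _ (Submodule.smul_mem_smul (h1 0) trivial)
      (Submodule.smul_mem_smul (h1 1) trivial)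
  rw [Ideal.mem_iInf_smul_pow_eq_bot_iff] at hx
  obtain ⟨⟨r, hr⟩, hr2⟩ := hx
  refine ⟨1 - r, ?_, ?_⟩
  · rw [mem_mp] at hr
    rw [map_sub, map_one, hr, sub_zero]
    exact one_ne_zero
  · rw [← hTmem]
    have h5 : T.mkQ (((1 - r) * φ) • θ) = 0 := by
      rw [mul_smul, map_smul, sub_smul, one_smul, hr2, sub_self]
    rwa [Submodule.mkQ_apply, Submodule.Quotient.mk_eq_zero] at h5

/-- the local statement in the original coordinates -/
theorem aff_main (hw : ∀ k, 0 < w k) {h φ : P} {τ θ : Fin 2 → P}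
    (H : ∀ K : ℕ, ∃ (b : P) (c : Fin 2 → P), OF w K (Φ φ • pl Φ θ - b • pl Φ τ - Φ h • c)) :
    ∃ u : P, eval p u ≠ 0 ∧ ∃ (b : P) (c : Fin 2 → P), (u * φ) • θ = b • τ + h • c :=
  krull (transfer hp hJ hw H)

end Phi

end Pool.Agent.KS6_81.SQ
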