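import Pool.Agent.KS6_81.SQ.Wt

set_option autoImplicit false

/-! # Binary forms -/

namespace Pool.Agent.KS6_81.SQ

open MvPolynomial Finset

/-- dehomogenization -/
noncomputable def un : P →ₐ[ℂ] Polynomial ℂ := aeval ![Polynomial.X, 1]

lemma un_eq (a : P) :
    un a = ∑ d ∈ a.support, Polynomial.C (a.coeff d) * Polynomial.X ^ d 0 := by
  unfold un
  rw [aeval_def, eval₂_eq']
  refine Finset.sum_congr rfl fun d _ => ?_
  rw [Fin.prod_univ_two]
  simp

lemma coeff_un {n : ℕ} {a : P} (h : a.IsHomogeneous n) (m : Fin 2 →₀ ℕ) (hm : m 0 + m 1 = n) :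
    (un a).coeff (m 0) = a.coeff m := by
  rw [un_eq, Polynomial.finset_sum_coeff]
  have h1 : ∀ d ∈ a.support, d ≠ m →
      (Polynomial.C (a.coeff d) * Polynomial.X ^ d 0 : Polynomial ℂ).coeff (m 0) = 0 := by
    intro d hd hdm
    rw [Polynomial.coeff_C_mul_X_pow, if_neg]
    intro h0
    apply hdm
    have h2 := h (mem_support_iff.1 hd)
    rw [Finsupp.weight_apply, Finsupp.sum_fintype _ _ (fun i => by simp)] at h2
    simp only [Pi.one_apply, smul_eq_mul, mul_one, Fin.sum_univ_two] at h2
    ext i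
    fin_cases i
    · exact h0.symm
    · show d 1 = m 1
      omega
  by_cases hms : m ∈ a.support
  · rw [Finset.sum_eq_single m h1 (fun h => absurd hms h), Polynomial.coeff_C_mul_X_pow,
      if_pos rfl]
  · rw [Finset.sum_eq_zero fun d hd => h1 d hd fun h => hms (h ▸ hd)]
    exact (notMem_support_iff.1 hms).symm

lemma natDegree_un {n : ℕ} {a : P} (h : a.IsHomogeneous n) : (un a).natDegree ≤ n := by
  rw [un_eq]
  refine Polynomial.natDegree_sum_le_of_forall_le _ _ fun d hd => ?_
  refine (Polynomial.natDegree_C_mul_X_pow_le _ _).trans ?_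
  have h2 := h (mem_support_iff.1 hd)
  rw [Finsupp.weight_apply, Finsupp.sum_fintype _ _ (fun i => by simp)] at h2
  simp only [Pi.one_apply, smul_eq_mul, mul_one, Fin.sum_univ_two] at h2
  omega

lemma un_inj {n : ℕ} {a b : P} (ha : a.IsHomogeneous n) (hb : b.IsHomogeneous n)
    (h : un a = un b) : a = b := by
  ext m
  by_cases hm : m 0 + m 1 = n
  · rw [← coeff_un ha m hm, ← coeff_un hb m hm, h]
  · have h3 : ∀ {c : P}, c.IsHomogeneous n → c.coeff m = 0 := by
      intro c hc
      by_contra h4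
      apply hm
      have h2 := hc h4
      rw [Finsupp.weight_apply, Finsupp.sum_fintype _ _ (fun i => by simp)] at h2
      simpa [Fin.sum_univ_two] using h2
    rw [h3 ha, h3 hb]

/-- homogenization -/
noncomputable def hmz (n : ℕ) (x : Polynomial ℂ) : P :=
  ∑ i ∈ range (n + 1), C (x.coeff i) * X 0 ^ i * X 1 ^ (n - i)

lemma hmz_hom (n : ℕ) (x : Polynomial ℂ) : (hmz n x).IsHomogeneous n := by
  unfold hmz
  refine IsHomogeneous.sum _ _ _ fun i hi => ?_
  have h1 : ((C (x.coeff i) : P) * X 0 ^ i * X 1 ^ (n - i)).IsHomogeneous (0 + i + (n - i)) := by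
    refine ((isHomogeneous_C _ _).mul ?_).mul ?_
    · have := (isHomogeneous_X ℂ (0 : Fin 2)).pow i
      rwa [one_mul] at this
    · have := (isHomogeneous_X ℂ (1 : Fin 2)).pow (n - i)
      rwa [one_mul] at this
  rw [mem_range] at hi
  have h2 : 0 + i + (n - i) = n := by omega
  rwa [h2] at h1

lemma un_hmz {n : ℕ} {x : Polynomial ℂ} (hx : x.natDegree ≤ n) : un (hmz n x) = x := by
  unfold hmz
  rw [map_sum]
  conv_rhs => rw [x.as_sum_range_C_mul_X_pow' (n := n + 1) (by omega)]
  refine Finset.sum_congr rfl fun i _ => ?_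
  simp [un]

lemma eval_un (a : P) (t : ℂ) : (un a).eval t = eval ![t, 1] a := by
  rw [un_eq, Polynomial.eval_finset_sum, eval_eq']
  refine Finset.sum_congr rfl fun d _ => ?_
  rw [Fin.prod_univ_two]
  simp

lemma coeff_top {n : ℕ} {a : P} (h : a.IsHomogeneous n) : (un a).coeff n = eval ![1, 0] a := by
  have h1 := coeff_un h (Finsupp.single 0 n) (by simp)
  simp only [Finsupp.single_eq_same] at h1
  rw [h1, eval_eq']
  have h3 : ∀ d ∈ a.support, d ≠ Finsupp.single 0 n →
      a.coeff d * ∏ i, (![1, 0] : Fin 2 → ℂ) i ^ d i = 0 := by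
    intro d hd hdm
    have h2 := h (mem_support_iff.1 hd)
    rw [Finsupp.weight_apply, Finsupp.sum_fintype _ _ (fun i => by simp)] at h2
    simp only [Pi.one_apply, smul_eq_mul, mul_one, Fin.sum_univ_two] at h2
    have h4 : d 1 ≠ 0 := by
      intro h5
      apply hdm
      ext i
      fin_cases i
      · simp
        omega
      · simpa using h5
    rw [Fin.prod_univ_two]
    simp [h4]
  by_cases hms : Finsupp.single 0 n ∈ a.support
  · rw [Finset.sum_eq_single _ h3 (fun h => absurd hms h), Fin.prod_univ_two]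
    simp
  · rw [Finset.sum_eq_zero fun d hd => h3 d hd fun h => hms (h ▸ hd)]
    exact notMem_support_iff.1 hms

lemma core {a b r : Polynomial ℂ} (hc : IsCoprime a b) {p q n : ℕ} (ha : a.natDegree ≤ p)
    (hb : b.natDegree = q) (hb0 : b ≠ 0) (hr : r.natDegree ≤ n) (hn : p + q ≤ n + 1) :
    ∃ x y : Polynomial ℂ, r = x * a + y * b ∧ (x = 0 ∨ x.natDegree + p ≤ n) ∧
      (y = 0 ∨ y.natDegree + q ≤ n) := by
  obtain ⟨u, v, huv⟩ := hc
  set x := (r * u) % b with hx
  set y := r * v + (r * u) / b * a with hy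
  have h1 : r = x * a + y * b := by
    have h2 := EuclideanDomain.mod_add_div (r * u) b
    have h3 : (r * u) % b = r * u - b * ((r * u) / b) := eq_sub_of_add_eq h2
    rw [hx, hy, h3]
    linear_combination (-r) * huv
  have h4 : x = 0 ∨ x.natDegree + p ≤ n := by
    by_cases h0 : x = 0
    · exact Or.inl h0
    · right
      have h5 : x.degree < b.degree := Polynomial.degree_mod_lt _ hb0
      have h6 := Polynomial.natDegree_lt_natDegree h0 h5
      omega
  refine ⟨x, y, h1, h4, ?_⟩
  by_cases h0 : y = 0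
  · exact Or.inl h0
  · right
    have h5 : (y * b).natDegree = y.natDegree + q := by
      rw [Polynomial.natDegree_mul h0 hb0, hb]
    rw [← h5]
    have h6 : y * b = r - x * a := by
      rw [h1]
      ring
    rw [h6]
    refine (Polynomial.natDegree_sub_le _ _).trans (max_le hr ?_)
    rcases h4 with h4 | h4
    · rw [h4, zero_mul]
      simp
    · exact (Polynomial.natDegree_mul_le).trans (by omega)

/-- Two binary forms of the degrees `p` and `q` without a common zero generate all forms of degree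
at least `p + q - 1`. -/
lemma binary {p q n : ℕ} {A B R : P} (hA : A.IsHomogeneous p) (hB : B.IsHomogeneous q)
    (hR : R.IsHomogeneous n) (hz : ∀ x : Fin 2 → ℂ, x ≠ 0 → eval x A ≠ 0 ∨ eval x B ≠ 0)
    (hn : p + q ≤ n + 1) : ∃ U V : P, R = U * A + V * B := by
  have hc : IsCoprime (un A) (un B) := by
    rw [Polynomial.isCoprime_iff_aeval_ne_zero_of_isAlgClosed ℂ ℂ]
    intro t
    have h1 := hz ![t, 1] (by
      intro h
      have := congrFun h 1
      simp at this)
    rw [Polynomial.coe_aeval_eq_eval, eval_un, eval_un]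
    exact h1
  have hres : ∃ x y : Polynomial ℂ, un R = x * un A + y * un B ∧ (x = 0 ∨ x.natDegree + p ≤ n) ∧
      (y = 0 ∨ y.natDegree + q ≤ n) := by
    have h1 := hz ![1, 0] (by
      intro h
      have := congrFun h 0
      simp at this)
    rw [← coeff_top hA, ← coeff_top hB] at h1
    rcases h1 with h1 | h1
    · have h2 : (un A).natDegree = p :=
        le_antisymm (natDegree_un hA) (Polynomial.le_natDegree_of_ne_zero h1)
      obtain ⟨x, y, h3, h4, h5⟩ := core hc.symm (natDegree_un hB) h2
        (by rintro h; rw [h] at h1; simp at h1) (natDegree_un hR) (by omega)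
      exact ⟨y, x, by rw [h3]; ring, h5, h4⟩
    · have h2 : (un B).natDegree = q :=
        le_antisymm (natDegree_un hB) (Polynomial.le_natDegree_of_ne_zero h1)
      exact core hc (natDegree_un hA) h2
        (by rintro h; rw [h] at h1; simp at h1) (natDegree_un hR) hn
  obtain ⟨x, y, h1, h2, h3⟩ := hres
  have key : ∀ {z : Polynomial ℂ} {k : ℕ} {F : P}, F.IsHomogeneous k →
      (z = 0 ∨ z.natDegree + k ≤ n) → ∃ U : P, (U * F).IsHomogeneous n ∧ un (U * F) = z * un F := by
    intro z k F hF hzk
    rcases hzk with hzk | hzk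
    · refine ⟨0, ?_, ?_⟩
      · rw [zero_mul]
        exact isHomogeneous_zero _ _ _
      · rw [zero_mul, map_zero, hzk, zero_mul]
    · refine ⟨hmz (n - k) z, ?_, ?_⟩
      · have := (hmz_hom (n - k) z).mul hF
        have h4 : n - k + k = n := by omega
        rwa [h4] at this
      · rw [map_mul, un_hmz (by omega)]
  obtain ⟨U, hU1, hU2⟩ := key hA h2
  obtain ⟨V, hV1, hV2⟩ := key hB h3
  refine ⟨U, V, un_inj hR (hU1.add hV1) ?_⟩
  rw [map_add, hU2, hV2, h1]

end Pool.Agent.KS6_81.SQ
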