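import Pool.Agent.KS6_81.SQ.Fam

set_option autoImplicit false

/-! # The affine chart `z = 1` -/

namespace Pool.Agent.KS6_81.SQ

open MvPolynomial Finset

/-- the ring `ℂ[x, y, z]` -/
abbrev S := MvPolynomial (Fin 3) ℂ

/-- the restriction to the chart `z = 1` -/
noncomputable def ev : S →ₐ[ℂ] P := aeval ![X 0, X 1, 1]

lemma ev_pderiv0 (a : S) : MvPolynomial.pderiv 0 (ev a) = ev (MvPolynomial.pderiv 0 a) := by
  induction a using MvPolynomial.induction_on with
  | C c =>
    have h1 : ev (C c) = C c := ev.commutes c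
    rw [h1, pderiv_C, pderiv_C, map_zero]
  | add p q hp hq => simp only [map_add, hp, hq]
  | mul_X p i hp =>
    simp only [map_mul, Derivation.leibniz, smul_eq_mul, hp, map_add]
    have h2 : MvPolynomial.pderiv (0 : Fin 2) (ev (X i)) =
        ev (MvPolynomial.pderiv (0 : Fin 3) (X i)) := by
      fin_cases i
      · simp [ev]
      · simp [ev, pderiv_X_of_ne (show (1 : Fin 2) ≠ 0 by decide),
          pderiv_X_of_ne (show (1 : Fin 3) ≠ 0 by decide)]
      · simp [ev, pderiv_X_of_ne (show (2 : Fin 3) ≠ 0 by decide)]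
    rw [h2]

lemma ev_pderiv1 (a : S) : MvPolynomial.pderiv 1 (ev a) = ev (MvPolynomial.pderiv 1 a) := by
  induction a using MvPolynomial.induction_on with
  | C c =>
    have h1 : ev (C c) = C c := ev.commutes c
    rw [h1, pderiv_C, pderiv_C, map_zero]
  | add p q hp hq => simp only [map_add, hp, hq]
  | mul_X p i hp =>
    simp only [map_mul, Derivation.leibniz, smul_eq_mul, hp, map_add]
    have h2 : MvPolynomial.pderiv (1 : Fin 2) (ev (X i)) =
        ev (MvPolynomial.pderiv (1 : Fin 3) (X i)) := by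
      fin_cases i
      · simp [ev, pderiv_X_of_ne (show (0 : Fin 2) ≠ 1 by decide),
          pderiv_X_of_ne (show (0 : Fin 3) ≠ 1 by decide)]
      · simp [ev]
      · simp [ev, pderiv_X_of_ne (show (2 : Fin 3) ≠ 1 by decide)]
    rw [h2]

/-- the restriction of the first two components of a one form -/
noncomputable def ev2 (θ : Fin 3 → S) : Fin 2 → P := ![ev (θ 0), ev (θ 1)]

lemma ev_tau {r : ℕ} (F : Fin r → S) (e : Fin r → ℂ) (t : ℂ) :
    ev2 (tau F e t) = tau (fun i => ev (F i)) e t := by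
  have hC : ∀ c : ℂ, ev (C c) = C c := fun c => ev.commutes c
  funext k
  fin_cases k
  · show ev (∑ i, C (e i + t) * (GG F i * MvPolynomial.pderiv 0 (F i))) =
      ∑ i, C (e i + t) * (GG (fun i => ev (F i)) i * MvPolynomial.pderiv 0 (ev (F i)))
    rw [map_sum]
    refine Finset.sum_congr rfl fun i _ => ?_
    rw [map_mul, map_mul, hC, ev_pderiv0]
    unfold GG
    rw [map_prod]
  · show ev (∑ i, C (e i + t) * (GG F i * MvPolynomial.pderiv 1 (F i))) =
      ∑ i, C (e i + t) * (GG (fun i => ev (F i)) i * MvPolynomial.pderiv 1 (ev (F i)))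
    rw [map_sum]
    refine Finset.sum_congr rfl fun i _ => ?_
    rw [map_mul, map_mul, hC, ev_pderiv1]
    unfold GG
    rw [map_prod]

lemma pl_tau {r : ℕ} (Φ : P →ₐ[ℂ] P) (F : Fin r → P) (e : Fin r → ℂ) (t : ℂ) :
    pl Φ (tau F e t) = tau (fun i => Φ (F i)) e t := by
  have hC : ∀ c : ℂ, Φ (C c) = C c := fun c => Φ.commutes c
  have h1 : tau F e t = ∑ i, (C (e i + t) * GG F i) • gr (F i) := by
    funext k
    rw [Finset.sum_apply]
    refine Finset.sum_congr rfl fun i _ => ?_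
    simp only [Pi.smul_apply, smul_eq_mul, gr]
    ring
  rw [h1, pl_sum]
  funext k
  rw [Finset.sum_apply]
  refine Finset.sum_congr rfl fun i _ => ?_
  rw [pl_smul, ← pl_gr, Pi.smul_apply, smul_eq_mul, map_mul, hC]
  unfold GG gr
  rw [map_prod]
  ring

/-- a triple of exponents -/
noncomputable def ex3 (a b c : ℕ) : Fin 3 →₀ ℕ := Finsupp.equivFunOnFinite.symm ![a, b, c]

lemma monomial_three (m : Fin 3 →₀ ℕ) (c : ℂ) :
    (monomial m c : S) = C c * X 0 ^ m 0 * X 1 ^ m 1 * X 2 ^ m 2 := by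
  rw [monomial_eq, Finsupp.prod_fintype _ _ (fun i => by simp), Fin.prod_univ_three]
  ring

lemma ev_monomial (m : Fin 3 →₀ ℕ) (c : ℂ) : ev (monomial m c) = monomial (ex (m 0) (m 1)) c := by
  rw [monomial_three, monomial_two, ex0, ex1]
  simp [ev]

lemma exists_hom (a : P) {n : ℕ} (hn : a.totalDegree ≤ n) :
    ∃ A : S, A.IsHomogeneous n ∧ ev A = a := by
  refine ⟨∑ m ∈ a.support, monomial (ex3 (m 0) (m 1) (n - m 0 - m 1)) (a.coeff m), ?_, ?_⟩
  · refine IsHomogeneous.sum _ _ _ fun m hm => isHomogeneous_monomial _ ?_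
    have h1 := (le_totalDegree hm).trans hn
    rw [Finsupp.sum_fintype _ _ (fun i => rfl), Fin.sum_univ_two] at h1
    rw [Finsupp.degree_eq_sum, Fin.sum_univ_three]
    show m 0 + m 1 + (n - m 0 - m 1) = n
    omega
  · rw [map_sum]
    conv_rhs => rw [a.as_sum]
    refine Finset.sum_congr rfl fun m _ => ?_
    rw [ev_monomial]
    have : ex (ex3 (m 0) (m 1) (n - m 0 - m 1) 0) (ex3 (m 0) (m 1) (n - m 0 - m 1) 1) = m :=
      ex_ext rfl rfl
    rw [this]

lemma ev_inj {n : ℕ} {A : S} (hA : A.IsHomogeneous n) (h : ev A = 0) : A = 0 := by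
  ext m
  rw [coeff_zero]
  by_contra hm
  have hdeg : ∀ d, A.coeff d ≠ 0 → d 0 + d 1 + d 2 = n := by
    intro d hd
    have h2 := hA hd
    rw [Finsupp.weight_apply, Finsupp.sum_fintype _ _ (fun i => by simp)] at h2
    simpa [Fin.sum_univ_three] using h2
  have h1 : ev A = ∑ d ∈ A.support, monomial (ex (d 0) (d 1)) (A.coeff d) := by
    conv_lhs => rw [A.as_sum]
    rw [map_sum]
    exact Finset.sum_congr rfl fun d _ => ev_monomial _ _
  have h2 := congrArg (coeff (ex (m 0) (m 1))) h1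
  rw [h, coeff_zero, coeff_sum, Finset.sum_eq_single m] at h2
  · rw [coeff_monomial, if_pos rfl] at h2
    exact hm h2.symm
  · intro d hd hdm
    rw [coeff_monomial, if_neg]
    intro h3
    apply hdm
    have h4 := DFunLike.congr_fun h3 0
    have h5 := DFunLike.congr_fun h3 1
    rw [ex0, ex0] at h4
    rw [ex1, ex1] at h5
    have h6 := hdeg d (mem_support_iff.1 hd)
    have h7 := hdeg m hm
    ext i
    fin_cases i
    · exact h4
    · exact h5
    · show d 2 = m 2
      omega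
  · intro h3
    exact absurd (mem_support_iff.2 hm) h3

lemma ev_inj2 {n : ℕ} {A B : S} (hA : A.IsHomogeneous n) (hB : B.IsHomogeneous n)
    (h : ev A = ev B) : A = B := by
  have h1 := ev_inj (hA.sub hB) (by rw [map_sub, h, sub_self])
  exact sub_eq_zero.1 h1

lemma eval_ev (p : Fin 2 → ℂ) (a : S) : eval p (ev a) = eval ![p 0, p 1, 1] a := by
  induction a using MvPolynomial.induction_on with
  | C c => simp [ev]
  | add p q hp hq => simp only [map_add, hp, hq]
  | mul_X q i hp =>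
    rw [map_mul, map_mul, map_mul, hp, eval_X]
    congr 1
    fin_cases i <;> simp [ev]

section

variable {r : ℕ} {F : Fin r → S} {a : Fin r → ℕ}

lemma prod_hom (hF : ∀ i, (F i).IsHomogeneous (a i)) (s : Finset (Fin r)) :
    (∏ i ∈ s, F i).IsHomogeneous (∑ i ∈ s, a i) :=
  IsHomogeneous.prod _ _ _ fun i _ => hF i

lemma tau_hom (hF : ∀ i, (F i).IsHomogeneous (a i)) (ha : ∀ i, 0 < a i) (e : Fin r → ℂ) (t : ℂ)
    (k : Fin 3) : (tau F e t k).IsHomogeneous (∑ i, a i - 1) := by
  unfold tau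
  refine IsHomogeneous.sum _ _ _ fun i _ => ?_
  have h1 : (MvPolynomial.pderiv k (F i)).IsHomogeneous (a i - 1) := (hF i).pderiv
  have h2 := (prod_hom hF (univ.erase i)).mul h1
  have h3 := (isHomogeneous_C (Fin 3) (e i + t)).mul h2
  have h4 : 0 + (∑ j ∈ univ.erase i, a j + (a i - 1)) = ∑ i, a i - 1 := by
    have h5 : ∑ j ∈ univ.erase i, a j + a i = ∑ j, a j := Finset.sum_erase_add _ _ (mem_univ i)
    have := ha i
    omega
  rw [h4] at h3
  exact h3

/-- homogenization of the local statement -/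
lemma homogenize (hF : ∀ i, (F i).IsHomogeneous (a i)) (ha : ∀ i, 0 < a i) {e : Fin r → ℂ} {t : ℂ}
    {φ : S} {dφ m : ℕ} (hφ : φ.IsHomogeneous dφ) {θ : Fin 3 → S}
    (hθ : ∀ k, (θ k).IsHomogeneous m) (hX : ∑ k, X k * θ k = 0) {p : Fin 2 → ℂ}
    (h : ∃ u : P, eval p u ≠ 0 ∧ ∃ (b : P) (c : Fin 2 → P),
      (u * ev φ) • ev2 θ = b • ev2 (tau F e t) + ev (∏ i, F i) • c) :
    ∃ (n : ℕ) (U : S), U.IsHomogeneous n ∧ eval ![p 0, p 1, 1] U ≠ 0 ∧
      ∃ (b : S) (c : Fin 3 → S), (U * φ) • θ = b • tau F e t + (∏ i, F i) • c := by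
  obtain ⟨u, hu, b, c, h1⟩ := h
  set δ := ∑ i, a i with hδ
  have hh : (∏ i, F i).IsHomogeneous δ := prod_hom hF univ
  set n := u.totalDegree + b.totalDegree + (c 0).totalDegree + (c 1).totalDegree + δ with hn
  obtain ⟨U, hU, hU2⟩ := exists_hom u (n := n) (by omega)
  obtain ⟨B, hB, hB2⟩ := exists_hom b (n := n + dφ + m - (δ - 1)) (by omega)
  obtain ⟨c0, hc0, hc02⟩ := exists_hom (c 0) (n := n + dφ + m - δ) (by omega)
  obtain ⟨c1, hc1, hc12⟩ := exists_hom (c 1) (n := n + dφ + m - δ) (by omega)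
  have hτ := tau_hom hF ha e t
  have e0 : U * φ * θ 0 = B * tau F e t 0 + (∏ i, F i) * c0 := by
    refine ev_inj2 (n := n + dφ + m) ((hU.mul hφ).mul (hθ 0)) ?_ ?_
    · have f1 := hB.mul (hτ 0)
      have f2 := hh.mul hc0
      have f3 : n + dφ + m - (δ - 1) + (δ - 1) = n + dφ + m := by omega
      have f4 : δ + (n + dφ + m - δ) = n + dφ + m := by omega
      rw [← hδ, f3] at f1
      rw [f4] at f2
      exact f1.add f2
    · have f1 := congrFun h1 0
      simp only [Pi.smul_apply, Pi.add_apply, smul_eq_mul] at f1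
      simp only [map_mul, map_add, hU2, hB2, hc02]
      exact f1
  have e1 : U * φ * θ 1 = B * tau F e t 1 + (∏ i, F i) * c1 := by
    refine ev_inj2 (n := n + dφ + m) ((hU.mul hφ).mul (hθ 1)) ?_ ?_
    · have f1 := hB.mul (hτ 1)
      have f2 := hh.mul hc1
      have f3 : n + dφ + m - (δ - 1) + (δ - 1) = n + dφ + m := by omega
      have f4 : δ + (n + dφ + m - δ) = n + dφ + m := by omega
      rw [← hδ, f3] at f1
      rw [f4] at f2
      exact f1.add f2
    · have f1 := congrFun h1 1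
      simp only [Pi.smul_apply, Pi.add_apply, smul_eq_mul] at f1
      simp only [map_mul, map_add, hU2, hB2, hc12]
      exact f1
  have e2 := tau_euler F a hF e t
  rw [Fin.sum_univ_three] at e2 hX
  refine ⟨n + 1, U * X 2, hU.mul (isHomogeneous_X _ _), ?_, B * X 2,
    ![X 2 * c0, X 2 * c1, -(C (∑ i, (e i + t) * a i) * B) - X 0 * c0 - X 1 * c1], ?_⟩
  · rw [map_mul, ← eval_ev, hU2]
    simpa using hu
  · funext k
    fin_cases k
    · show U * X 2 * φ * θ 0 = B * X 2 * tau F e t 0 + (∏ i, F i) * (X 2 * c0)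
      linear_combination X 2 * e0
    · show U * X 2 * φ * θ 1 = B * X 2 * tau F e t 1 + (∏ i, F i) * (X 2 * c1)
      linear_combination X 2 * e1
    · show U * X 2 * φ * θ 2 = B * X 2 * tau F e t 2 +
        (∏ i, F i) * (-(C (∑ i, (e i + t) * a i) * B) - X 0 * c0 - X 1 * c1)
      linear_combination U * φ * hX - X 0 * e0 - X 1 * e1 - B * e2

end

end Pool.Agent.KS6_81.SQ
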