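import Pool.Agent.KS6_81.SQ.Loc3

set_option autoImplicit false

/-! # Divisibility by a squarefree product -/

namespace Pool.Agent.KS6_81.SQ

open MvPolynomial Finset

variable {r : ℕ}

lemma dvd_of_primes {h u : S} (hsq : Squarefree h) (h0 : h ≠ 0)
    (H : ∀ π, Prime π → π ∣ h → π ∣ u) : h ∣ u := by
  induction h using UniqueFactorizationMonoid.induction_on_prime generalizing u with
  | h₁ => exact absurd rfl h0
  | h₂ x hx => exact hx.dvd
  | h₃ a p ha hp ih =>
    have hsq' : Squarefree a := hsq.of_mul_right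
    obtain ⟨u', rfl⟩ := ih hsq' ha (fun π hπ hπa => H π hπ (hπa.mul_left p))
    have h1 : p ∣ a * u' := H p hp (Dvd.intro _ rfl)
    rcases hp.dvd_or_dvd h1 with h2 | h2
    · exfalso
      obtain ⟨b, rfl⟩ := h2
      exact hp.not_isUnit (hsq p ⟨b, by ring⟩)
    · obtain ⟨b, rfl⟩ := h2
      exact ⟨b, by ring⟩

lemma prime_pderiv {π : S} (hπ : Prime π) : ∃ k, ¬ π ∣ MvPolynomial.pderiv k π := by
  classical
  by_contra hcon
  push Not at hcon
  -- `π` is not constant
  obtain ⟨m, hm, k, hk⟩ : ∃ m, π.coeff m ≠ 0 ∧ ∃ k, 0 < m k := by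
    by_contra h1
    push Not at h1
    have h2 : π = C (π.coeff 0) := by
      ext m
      rw [coeff_C]
      by_cases hm : 0 = m
      · rw [if_pos hm, hm]
      · rw [if_neg hm]
        by_contra h3
        apply hm
        have h4 := h1 m h3
        ext k
        have := h4 k
        rw [Finsupp.coe_zero, Pi.zero_apply]
        omega
    by_cases h3 : π.coeff 0 = 0
    · rw [h3, C_0] at h2
      exact hπ.ne_zero h2
    · apply hπ.not_isUnit
      rw [h2]
      exact (IsUnit.mk0 _ h3).map C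
  have h1 : MvPolynomial.pderiv k π ≠ 0 := by
    intro h2
    have h3 := congrArg (coeff (m - Finsupp.single k 1)) h2
    rw [coeff_pderiv, coeff_zero] at h3
    have h4 : m - Finsupp.single k 1 + Finsupp.single k 1 = m := by
      ext j
      rw [Finsupp.add_apply, Finsupp.tsub_apply]
      by_cases hj : k = j
      · rw [← hj, Finsupp.single_eq_same]
        omega
      · rw [Finsupp.single_eq_of_ne (Ne.symm hj)]
        omega
    rw [h4] at h3
    rcases mul_eq_zero.1 h3 with h5 | h5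
    · exact hm h5
    · have h6 : ((((m - Finsupp.single k 1 : Fin 3 →₀ ℕ) k) + 1 : ℕ) : ℂ) = 0 := by
        push_cast
        exact h5
      rw [Nat.cast_eq_zero] at h6
      omega
  obtain ⟨g, hg⟩ := hcon k
  have hg0 : g ≠ 0 := by
    rintro rfl
    rw [mul_zero] at hg
    exact h1 hg
  have h2 : degreeOf k (MvPolynomial.pderiv k π) = degreeOf k π + degreeOf k g := by
    rw [hg, degreeOf_mul_eq hπ.ne_zero hg0]
  have h3 : 0 < degreeOf k π := by
    have := monomial_le_degreeOf k (mem_support_iff.2 hm)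
    omega
  have h4 : degreeOf k (MvPolynomial.pderiv k π) < degreeOf k π := by
    rw [degreeOf_lt_iff h3]
    intro j hj
    rw [mem_support_iff, coeff_pderiv] at hj
    have h5 := left_ne_zero_of_mul hj
    have h6 := monomial_le_degreeOf k (mem_support_iff.2 h5)
    rw [Finsupp.add_apply, Finsupp.single_eq_same] at h6
    omega
  omega

section

variable {F : Fin r → S} (hsq : Squarefree (∏ i, F i)) {e : Fin r → ℂ}

include hsq

lemma not_dvd_GG {π : S} (hπ : Prime π) {i : Fin r} (hi : π ∣ F i) : ¬ π ∣ GG F i := by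
  intro h
  apply hπ.not_isUnit
  apply hsq π
  rw [← GG_mul F i]
  exact mul_dvd_mul h hi

omit hsq in
lemma tau_mod {π : S} {i : Fin r} (hi : π ∣ F i) (t : ℂ) (k : Fin 3) :
    π ∣ tau F e t k - C (e i + t) * (GG F i * MvPolynomial.pderiv k (F i)) := by
  unfold tau
  rw [← Finset.add_sum_erase _ _ (mem_univ i), add_sub_cancel_left]
  refine Finset.dvd_sum fun j hj => ?_
  refine Dvd.dvd.mul_left (Dvd.dvd.mul_right ?_ _) _
  unfold GG
  exact hi.trans (Finset.dvd_prod_of_mem F
    (Finset.mem_erase.2 ⟨Ne.symm (Finset.ne_of_mem_erase hj), mem_univ i⟩))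

lemma exists_pderiv {π : S} (hπ : Prime π) {i : Fin r} (hi : π ∣ F i) :
    ∃ k, ¬ π ∣ MvPolynomial.pderiv k (F i) := by
  obtain ⟨k, hk⟩ := prime_pderiv hπ
  refine ⟨k, fun h => ?_⟩
  obtain ⟨g, hg⟩ := hi
  rw [hg, Derivation.leibniz, smul_eq_mul, smul_eq_mul] at h
  have h1 : π ∣ g * MvPolynomial.pderiv k π := by
    have h2 : g * MvPolynomial.pderiv k π = π * MvPolynomial.pderiv k g +
      g * MvPolynomial.pderiv k π - π * MvPolynomial.pderiv k g := by ring
    rw [h2]
    exact dvd_sub h (Dvd.intro _ rfl)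
  rcases hπ.dvd_or_dvd h1 with h2 | h2
  · apply hπ.not_isUnit
    apply hsq π
    have h3 : F i ∣ ∏ i, F i := Finset.dvd_prod_of_mem F (mem_univ i)
    refine dvd_trans ?_ h3
    rw [hg]
    exact mul_dvd_mul_left π h2
  · exact hk h2

omit hsq in
lemma prime_C {π : S} (hπ : Prime π) {c : ℂ} (hc : c ≠ 0) : ¬ π ∣ C c := fun h =>
  hπ.not_isUnit (isUnit_of_dvd_unit h ((IsUnit.mk0 _ hc).map C))

/-- the coefficients of `τ` have no common factor with `h` -/
lemma dvd_of_tau {t : ℂ} (he : ∀ i, e i + t ≠ 0) {u : S}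
    (h : ∀ k, ∏ i, F i ∣ u * tau F e t k) : ∏ i, F i ∣ u := by
  refine dvd_of_primes hsq hsq.ne_zero fun π hπ hπh => ?_
  obtain ⟨i, -, hi⟩ := (Prime.dvd_finsetProd_iff hπ _).1 hπh
  obtain ⟨k, hk⟩ := exists_pderiv hsq hπ hi
  have h1 : π ∣ u * (C (e i + t) * (GG F i * MvPolynomial.pderiv k (F i))) := by
    have h2 : u * (C (e i + t) * (GG F i * MvPolynomial.pderiv k (F i))) = u * tau F e t k -
      u * (tau F e t k - C (e i + t) * (GG F i * MvPolynomial.pderiv k (F i))) := by ring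
    rw [h2]
    exact dvd_sub (hπh.trans (h k)) ((tau_mod hi t k).mul_left u)
  rcases hπ.dvd_or_dvd h1 with h2 | h2
  · exact h2
  rcases hπ.dvd_or_dvd h2 with h3 | h3
  · exact absurd h3 (prime_C hπ (he i))
  rcases hπ.dvd_or_dvd h3 with h4 | h4
  · exact absurd h4 (not_dvd_GG hsq hπ hi)
  · exact absurd h4 hk

lemma dvd_cross {t : ℂ} (he : ∀ i, e i + (t + 1) ≠ 0) {θ : Fin 3 → S} {k l : Fin 3}
    (h : ∏ i, F i ∣ tau F e (t + 1) k * θ l - tau F e (t + 1) l * θ k) :
    ∏ i, F i ∣ tau F e t k * θ l - tau F e t l * θ k := by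
  refine dvd_of_primes hsq hsq.ne_zero fun π hπ hπh => ?_
  obtain ⟨i, -, hi⟩ := (Prime.dvd_finsetProd_iff hπ _).1 hπh
  obtain ⟨x, hx⟩ := tau_mod (e := e) hi t k
  obtain ⟨y, hy⟩ := tau_mod (e := e) hi t l
  obtain ⟨x', hx'⟩ := tau_mod (e := e) hi (t + 1) k
  obtain ⟨y', hy'⟩ := tau_mod (e := e) hi (t + 1) l
  set g := GG F i * MvPolynomial.pderiv k (F i) with hg
  set g' := GG F i * MvPolynomial.pderiv l (F i) with hg'
  have h1 : π ∣ C (e i + (t + 1)) * (g * θ l - g' * θ k) := by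
    have h2 : C (e i + (t + 1)) * (g * θ l - g' * θ k) =
        (tau F e (t + 1) k * θ l - tau F e (t + 1) l * θ k) - π * (x' * θ l - y' * θ k) := by
      linear_combination (-θ l) * hx' + θ k * hy'
    rw [h2]
    exact dvd_sub (hπh.trans h) (Dvd.intro _ rfl)
  rcases hπ.dvd_or_dvd h1 with h2 | h2
  · exact absurd h2 (prime_C hπ (he i))
  · have h3 : tau F e t k * θ l - tau F e t l * θ k =
        C (e i + t) * (g * θ l - g' * θ k) + π * (x * θ l - y * θ k) := by
      linear_combination θ l * hx - θ k * hy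
    rw [h3]
    exact dvd_add (h2.mul_left _) (Dvd.intro _ rfl)

end

/-- the common zeros of `h` and `τ` are singular -/
lemma sing_of_tau {F : Fin r → S} {e : Fin r → ℂ} {t : ℂ} (he : ∀ i, e i + t ≠ 0)
    {q : Fin 3 → ℂ} (hq : eval q (∏ i, F i) = 0) (hτ : ∀ k, eval q (tau F e t k) = 0) (k : Fin 3) :
    eval q (MvPolynomial.pderiv k (∏ i, F i)) = 0 := by
  rw [map_prod, Finset.prod_eq_zero_iff] at hq
  obtain ⟨i0, -, hi0⟩ := hq
  have h3 : ∀ i, i ≠ i0 → eval q (GG F i) = 0 := by
    intro i hi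
    unfold GG
    rw [map_prod]
    exact Finset.prod_eq_zero (Finset.mem_erase.2 ⟨Ne.symm hi, mem_univ i0⟩) hi0
  have h4 : eval q (MvPolynomial.pderiv k (∏ i, F i)) =
      eval q (GG F i0) * eval q (MvPolynomial.pderiv k (F i0)) := by
    rw [pderiv_prod_univ, map_sum, Finset.sum_eq_single i0]
    · rw [map_mul]
    · intro i _ hi
      rw [map_mul, h3 i hi, zero_mul]
    · intro h; exact absurd (mem_univ _) h
  have h5 : eval q (tau F e t k) =
      (e i0 + t) * (eval q (GG F i0) * eval q (MvPolynomial.pderiv k (F i0))) := by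
    unfold tau
    rw [map_sum, Finset.sum_eq_single i0]
    · rw [map_mul, map_mul, eval_C]
    · intro i _ hi
      rw [map_mul, map_mul, h3 i hi, zero_mul, mul_zero]
    · intro h; exact absurd (mem_univ _) h
  rw [hτ, ← h4] at h5
  rcases mul_eq_zero.1 h5.symm with h6 | h6
  · exact absurd h6 (he i0)
  · exact h6

end Pool.Agent.KS6_81.SQ
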