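import Pool.Agent.KS6_81.SQ.Main
import Pool.Graph.R_pool_sql_team_seeded_620a6dc7.helper748_mc_.Thm

set_option autoImplicit false

/-! # The main theorem on exactness -/

namespace Pool.Agent.KS6_81.SQ

open MvPolynomial Finset

variable {r : ℕ}

/-- logarithmic derivative of a product of powers -/
lemma log_deriv (F : Fin r → S) (m : Fin r → ℕ) (k : Fin 3) :
    (∏ i, F i) * MvPolynomial.pderiv k (∏ i, F i ^ m i) =
      (∏ i, F i ^ m i) * ∑ i, C (m i : ℂ) * (GG F i * MvPolynomial.pderiv k (F i)) := by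
  rw [pderiv_prod_univ (fun i => F i ^ m i) k, Finset.mul_sum, Finset.mul_sum]
  refine Finset.sum_congr rfl fun i _ => ?_
  have h1 : (∏ i, F i ^ m i) = GG (fun i => F i ^ m i) i * F i ^ m i :=
    (GG_mul (fun i => F i ^ m i) i).symm
  rw [h1, ← GG_mul F i, Derivation.leibniz_pow]
  have h2 : ∀ n : ℕ, ((n : ℕ) : S) = C (n : ℂ) := fun n => by simp
  rw [nsmul_eq_mul, smul_eq_mul, h2]
  rcases Nat.eq_zero_or_pos (m i) with h | h
  · rw [h]
    simp
  · obtain ⟨x, hx⟩ : ∃ x, m i = x + 1 := ⟨m i - 1, by omega⟩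
    rw [hx, Nat.add_sub_cancel, pow_succ]
    ring

/-- the sum `T = Σ n_i (h / F_i) ∇ F_i` -/
noncomputable def TT (F : Fin r → S) (n : Fin r → ℕ) (k : Fin 3) : S :=
  ∑ i, C (n i : ℂ) * (GG F i * MvPolynomial.pderiv k (F i))

lemma tau_TT (F : Fin r → S) (n : Fin r → ℕ) (d : ℕ) (t : ℂ) (k : Fin 3) :
    tau F (ee n d) t k = C (3 / d : ℂ) * TT F n k + C t * MvPolynomial.pderiv k (∏ i, F i) := by
  unfold tau TT ee
  rw [pderiv_prod_univ, Finset.mul_sum, Finset.mul_sum, ← Finset.sum_add_distrib]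
  refine Finset.sum_congr rfl fun i _ => ?_
  have : (3 * (n i : ℂ) / d + t) = 3 / d * n i + t := by ring
  rw [this, C_add, C_mul]
  ring

section

variable {F : Fin r → S} {a n : Fin r → ℕ} {d : ℕ}

/-- from a vector field to a solution of the basic system -/
lemma sol_of_field (hd0 : d ≠ 0) (hd : d = ∑ i, n i * a i) (hF : ∀ i, (F i).IsHomogeneous (a i))
    {N : ℕ} {V : Fin 3 → S} (hV : ∀ k, (V k).IsHomogeneous (N * ∑ i, a i + 1))
    (hE : (∏ i, F i) * ∑ k, MvPolynomial.pderiv k (V k) - ∑ k, tau F (ee n d) N k * V k =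
      (∏ i, F i) ^ (N + 1)) : Sol F a n d N (cr XX V) := by
  set h := ∏ i, F i with hh
  set τ := tau F (ee n d) N with hτ
  have hτe := tau_euler F a hF (ee n d) (N : ℂ)
  have hsum : ∑ i, (ee n d i + (N : ℂ)) * a i = ((N * ∑ i, a i + 3 : ℕ) : ℂ) := by
    rw [ee_sum, ← hd]
    have : (d : ℂ) ≠ 0 := by exact_mod_cast hd0
    field_simp
    push_cast
    ring
  rw [hsum, ← hh, ← hτ] at hτe
  have hVe : ∀ k, ∑ l, X l * MvPolynomial.pderiv l (V k) =
      C ((N * ∑ i, a i + 1 : ℕ) : ℂ) * V k := by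
    intro k
    have h1 := (hV k).sum_X_mul_pderiv
    have h2 : ∀ n : ℕ, ((n : ℕ) : S) = C (n : ℂ) := fun n => by simp
    rw [nsmul_eq_mul, h2] at h1
    exact h1
  have hc : (C ((N * ∑ i, a i + 3 : ℕ) : ℂ) : S) = C ((N * ∑ i, a i + 1 : ℕ) : ℂ) + 2 := by
    have h2 : (2 : S) = C 2 := (map_ofNat C 2).symm
    rw [h2, ← C_add]
    congr 1
    push_cast
    ring
  rw [hc] at hτe
  set c := (C ((N * ∑ i, a i + 1 : ℕ) : ℂ) : S) with hcc
  have hXhom : ∀ k, ((XX k) : S).IsHomogeneous 1 := fun k => isHomogeneous_X _ _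
  have hVe0 := hVe 0
  have hVe1 := hVe 1
  have hVe2 := hVe 2
  simp only [Fin.sum_univ_three] at hVe0 hVe1 hVe2 hτe hE
  have p01 : MvPolynomial.pderiv (0 : Fin 3) (X 1 : S) = 0 := pderiv_X_of_ne (by decide)
  have p02 : MvPolynomial.pderiv (0 : Fin 3) (X 2 : S) = 0 := pderiv_X_of_ne (by decide)
  have p10 : MvPolynomial.pderiv (1 : Fin 3) (X 0 : S) = 0 := pderiv_X_of_ne (by decide)
  have p12 : MvPolynomial.pderiv (1 : Fin 3) (X 2 : S) = 0 := pderiv_X_of_ne (by decide)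
  have p20 : MvPolynomial.pderiv (2 : Fin 3) (X 0 : S) = 0 := pderiv_X_of_ne (by decide)
  have p21 : MvPolynomial.pderiv (2 : Fin 3) (X 1 : S) = 0 := pderiv_X_of_ne (by decide)
  refine ⟨?_, ?_, ?_⟩
  · intro k
    have key : ∀ i j, (XX i * V j : S).IsHomogeneous (N * ∑ i, a i + 2) := by
      intro i j
      have := (hXhom i).mul (hV j)
      have h3 : 1 + (N * ∑ i, a i + 1) = N * ∑ i, a i + 2 := by ring
      rwa [h3] at this
    fin_cases k
    · exact (key 1 2).sub (key 2 1)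
    · exact (key 2 0).sub (key 0 2)
    · exact (key 0 1).sub (key 1 0)
  · rw [Fin.sum_univ_three]
    show X 0 * (X 1 * V 2 - X 2 * V 1) + X 1 * (X 2 * V 0 - X 0 * V 2) +
      X 2 * (X 0 * V 1 - X 1 * V 0) = 0
    ring
  · rw [← hh, ← hτ]
    funext k
    fin_cases k
    · show h * (MvPolynomial.pderiv 1 (X 0 * V 1 - X 1 * V 0) -
        MvPolynomial.pderiv 2 (X 2 * V 0 - X 0 * V 2)) =
        τ 1 * (X 0 * V 1 - X 1 * V 0) - τ 2 * (X 2 * V 0 - X 0 * V 2) + h ^ (N + 1) * X 0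
      simp only [map_sub, Derivation.leibniz, smul_eq_mul, pderiv_X_self, p10, p20]
      linear_combination X 0 * hE - h * hVe0 + V 0 * hτe
    · show h * (MvPolynomial.pderiv 2 (X 1 * V 2 - X 2 * V 1) -
        MvPolynomial.pderiv 0 (X 0 * V 1 - X 1 * V 0)) =
        τ 2 * (X 1 * V 2 - X 2 * V 1) - τ 0 * (X 0 * V 1 - X 1 * V 0) + h ^ (N + 1) * X 1
      simp only [map_sub, Derivation.leibniz, smul_eq_mul, pderiv_X_self, p01, p21]
      linear_combination X 1 * hE - h * hVe1 + V 1 * hτe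
    · show h * (MvPolynomial.pderiv 0 (X 2 * V 0 - X 0 * V 2) -
        MvPolynomial.pderiv 1 (X 1 * V 2 - X 2 * V 1)) =
        τ 0 * (X 2 * V 0 - X 0 * V 2) - τ 1 * (X 1 * V 2 - X 2 * V 1) + h ^ (N + 1) * X 2
      simp only [map_sub, Derivation.leibniz, smul_eq_mul, pderiv_X_self, p02, p12]
      linear_combination X 2 * hE - h * hVe2 + V 2 * hτe

/-- the start: an exact form gives a solution -/
lemma start (hd0 : 0 < d) (hd : d = ∑ i, n i * a i) (hF : ∀ i, (F i).IsHomogeneous (a i))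
    (h0 : ∏ i, F i ≠ 0)
    (hE : Pool.Agent.Helper748.MC.Exact d (∏ i, F i ^ n i) (-3 / d : ℂ)) :
    ∃ (N : ℕ) (θ : Fin 3 → S), Sol F a n d N θ := by
  obtain ⟨K, v, hv, hE⟩ := hE
  set f := ∏ i, F i ^ n i with hf
  set h := ∏ i, F i with hh
  set N := K * ∑ i, n i with hN
  have hnle : ∀ i, K * n i ≤ N := fun i =>
    Nat.mul_le_mul_left _ (Finset.single_le_sum (fun i _ => Nat.zero_le _) (mem_univ i))
  set g := ∏ i, F i ^ (N - K * n i) with hg
  have hF0 : ∀ i, F i ≠ 0 := fun i => by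
    rw [hh, Finset.prod_ne_zero_iff] at h0
    exact h0 i (mem_univ i)
  have hf0 : f ≠ 0 := by
    rw [hf, Finset.prod_ne_zero_iff]
    exact fun i _ => pow_ne_zero _ (hF0 i)
  have hfg : f ^ K * g = h ^ N := by
    rw [hf, hg, hh, ← Finset.prod_pow, ← Finset.prod_mul_distrib, ← Finset.prod_pow]
    refine Finset.prod_congr rfl fun i _ => ?_
    rw [← pow_mul, ← pow_add]
    congr 1
    have := hnle i
    rw [mul_comm (n i)]
    omega
  have hghom : g.IsHomogeneous (N * ∑ i, a i - d * K) := by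
    have h1 : g.IsHomogeneous (∑ i, a i * (N - K * n i)) :=
      IsHomogeneous.prod _ _ _ fun i _ => (hF i).pow _
    have h2 : ∑ i, a i * (N - K * n i) + d * K = N * ∑ i, a i := by
      rw [hd, Finset.sum_mul, ← Finset.sum_add_distrib, Finset.mul_sum]
      refine Finset.sum_congr rfl fun i _ => ?_
      have h3 := hnle i
      have h4 : N = (N - K * n i) + K * n i := by omega
      conv_rhs => rw [h4]
      ring
    have h3 : ∑ i, a i * (N - K * n i) = N * ∑ i, a i - d * K := by omega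
    rwa [h3] at h1
  have hle : d * K ≤ N * ∑ i, a i := by
    rw [hd, Finset.sum_mul, Finset.mul_sum]
    refine Finset.sum_le_sum fun i _ => ?_
    calc n i * a i * K = K * n i * a i := by ring
      _ ≤ N * a i := Nat.mul_le_mul_right _ (hnle i)
  have hfd : ∀ k, h * MvPolynomial.pderiv k f = f * TT F n k := fun k => log_deriv F n k
  have hgd : ∀ k, h * MvPolynomial.pderiv k g =
      g * (C (N : ℂ) * MvPolynomial.pderiv k h - C (K : ℂ) * TT F n k) := by
    intro k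
    rw [hh, hg, log_deriv F (fun i => N - K * n i) k]
    congr 1
    unfold TT
    rw [pderiv_prod_univ, Finset.mul_sum, Finset.mul_sum, ← Finset.sum_sub_distrib]
    refine Finset.sum_congr rfl fun i _ => ?_
    rw [Nat.cast_sub (hnle i)]
    push_cast
    rw [C_sub, C_mul]
    ring
  refine ⟨N, cr XX fun k => g * v k, sol_of_field hd0.ne' hd hF ?_ ?_⟩
  · intro k
    have h1 := hghom.mul (hv k)
    have h2 : N * ∑ i, a i - d * K + (d * K + 1) = N * ∑ i, a i + 1 := by omega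
    rwa [h2] at h1
  · rw [← hh]
    simp only [tau_TT, ← hh]
    have hgd0 := hgd 0
    have hgd1 := hgd 1
    have hgd2 := hgd 2
    have hfd0 := hfd 0
    have hfd1 := hfd 1
    have hfd2 := hfd 2
    simp only [Fin.sum_univ_three, Derivation.leibniz, smul_eq_mul] at hE ⊢
    have hs : (C ((-3 / d : ℂ) - K) : S) = -C (3 / d : ℂ) - C (K : ℂ) := by
      rw [← C_neg, ← C_sub]
      congr 1
      ring
    rw [hs] at hE
    apply mul_left_cancel₀ hf0
    rw [pow_succ h N, ← hfg]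
    set s3 := (C (3 / d : ℂ) : S) with hs3
    set cK := (C (K : ℂ) : S) with hcK
    set cN := (C (N : ℂ) : S) with hcN
    linear_combination (-(g * h)) * hE + f * v 0 * hgd0 + f * v 1 * hgd1 + f * v 2 * hgd2 +
      (s3 + cK) * g * (v 0 * hfd0 + v 1 * hfd1 + v 2 * hfd2)

/-- the end: no solution of order zero -/
lemma no_sol (hd0 : 0 < d) (hd : d = ∑ i, n i * a i) (hF : ∀ i, (F i).IsHomogeneous (a i))
    (h0 : ∏ i, F i ≠ 0)
    (hlin : ∀ (V : Fin 3 → S) (μ : ℂ), (∀ k, (V k).IsHomogeneous 1) →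
      ∑ k, MvPolynomial.pderiv k (V k) = 0 →
      ∑ k, V k * MvPolynomial.pderiv k (∏ i, F i ^ n i) = C μ * ∏ i, F i ^ n i → μ = 0)
    {θ : Fin 3 → S} (hθ : Sol F a n d 0 θ) : False := by
  set f := ∏ i, F i ^ n i with hf
  set h := ∏ i, F i with hh
  have hdc : (d : ℂ) ≠ 0 := by exact_mod_cast hd0.ne'
  have hτe := tau_euler F a hF (ee n d) ((0 : ℕ) : ℂ)
  have hsum : ∑ i, (ee n d i + ((0 : ℕ) : ℂ)) * a i = 3 := by
    rw [ee_sum, ← hd]
    field_simp
    simp
  rw [hsum, ← hh] at hτe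
  set τ := tau F (ee n d) ((0 : ℕ) : ℂ) with hτ
  have hτT : ∀ k, τ k = C (3 / d : ℂ) * TT F n k := by
    intro k
    rw [hτ, tau_TT]
    simp
  have hθe : ∀ k, ∑ l, X l * MvPolynomial.pderiv l (θ k) = C (2 : ℂ) * θ k := by
    intro k
    have h1 := (hθ.hom k).sum_X_mul_pderiv
    have h2 : ∀ n : ℕ, ((n : ℕ) : S) = C (n : ℂ) := fun n => by simp
    rw [nsmul_eq_mul, h2] at h1
    rw [h1]
    congr 2
    push_cast
    ring
  have hX := hθ.eul
  have hXd : ∀ k, MvPolynomial.pderiv k (∑ l, X l * θ l) = 0 := by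
    intro k
    rw [hX, map_zero]
  have p01 : MvPolynomial.pderiv (0 : Fin 3) (X 1 : S) = 0 := pderiv_X_of_ne (by decide)
  have p02 : MvPolynomial.pderiv (0 : Fin 3) (X 2 : S) = 0 := pderiv_X_of_ne (by decide)
  have p10 : MvPolynomial.pderiv (1 : Fin 3) (X 0 : S) = 0 := pderiv_X_of_ne (by decide)
  have p12 : MvPolynomial.pderiv (1 : Fin 3) (X 2 : S) = 0 := pderiv_X_of_ne (by decide)
  have p20 : MvPolynomial.pderiv (2 : Fin 3) (X 0 : S) = 0 := pderiv_X_of_ne (by decide)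
  have p21 : MvPolynomial.pderiv (2 : Fin 3) (X 1 : S) = 0 := pderiv_X_of_ne (by decide)
  have hX0 := hXd 0
  have hX1 := hXd 1
  have hX2 := hXd 2
  have hθ0 := hθe 0
  have hθ1 := hθe 1
  have hθ2 := hθe 2
  simp only [Fin.sum_univ_three, map_add, Derivation.leibniz, smul_eq_mul, pderiv_X_self, p01, p02,
    p10, p12, p20, p21] at hX0 hX1 hX2 hθ0 hθ1 hθ2
  set c0 := MvPolynomial.pderiv 1 (θ 2) - MvPolynomial.pderiv 2 (θ 1) with hc0
  set c1 := MvPolynomial.pderiv 2 (θ 0) - MvPolynomial.pderiv 0 (θ 2) with hc1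
  set c2 := MvPolynomial.pderiv 0 (θ 1) - MvPolynomial.pderiv 1 (θ 0) with hc2
  have two : (C (2 : ℂ) : S) = 2 := map_ofNat C 2
  rw [two] at hθ0 hθ1 hθ2
  -- `X × curl θ = - 3 θ`
  have x0 : X 1 * c2 - X 2 * c1 = -3 * θ 0 := by
    rw [hc1, hc2]
    linear_combination hX0 - hθ0
  have x1 : X 2 * c0 - X 0 * c2 = -3 * θ 1 := by
    rw [hc0, hc2]
    linear_combination hX1 - hθ1
  have x2 : X 0 * c1 - X 1 * c0 = -3 * θ 2 := by
    rw [hc0, hc1]
    linear_combination hX2 - hθ2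
  have hE := hθ.eq
  rw [← hh, ← hτ] at hE
  have e0 : h * c0 = τ 1 * θ 2 - τ 2 * θ 1 + h ^ (0 + 1) * X 0 := congrFun hE 0
  have e1 : h * c1 = τ 2 * θ 0 - τ 0 * θ 2 + h ^ (0 + 1) * X 1 := congrFun hE 1
  have e2 : h * c2 = τ 0 * θ 1 - τ 1 * θ 0 + h ^ (0 + 1) * X 2 := congrFun hE 2
  rw [zero_add, pow_one] at e0 e1 e2
  have three : (C (3 : ℂ) : S) = 3 := map_ofNat C 3
  rw [three] at hτe
  simp only [Fin.sum_univ_three] at hτe
  have key : τ 0 * c0 + τ 1 * c1 + τ 2 * c2 = 3 * h := by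
    apply mul_left_cancel₀ (X_ne_zero (R := ℂ) (0 : Fin 3))
    linear_combination (3 : S) * e0 + τ 1 * x2 - τ 2 * x1 + c0 * hτe
  -- the vector field
  have hμ := hlin (fun k => C (-1 / 3 : ℂ) * (![c0, c1, c2] : Fin 3 → S) k) (-(d : ℂ) / 3) ?_ ?_ ?_
  · have : (d : ℂ) = 0 := by linear_combination (-3 : ℂ) * hμ
    exact hdc this
  · have key2 : ∀ k l : Fin 3, (MvPolynomial.pderiv k (θ l)).IsHomogeneous 1 := by
      intro k l
      have h1 : (θ l).IsHomogeneous (1 + 1) := by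
        have := hθ.hom l
        rwa [zero_mul] at this
      exact h1.pderiv
    have hC : (C (-1 / 3 : ℂ) : S).IsHomogeneous 0 := isHomogeneous_C _ _
    intro k
    have h2 : ((![c0, c1, c2] : Fin 3 → S) k).IsHomogeneous 1 := by
      fin_cases k
      · exact (key2 1 2).sub (key2 2 1)
      · exact (key2 2 0).sub (key2 0 2)
      · exact (key2 0 1).sub (key2 1 0)
    have h3 := hC.mul h2
    rwa [zero_add] at h3
  · simp only [Fin.sum_univ_three, pderiv_C_mul, Matrix.cons_val_zero, Matrix.cons_val_one,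
      Matrix.cons_val_two, Matrix.tail_cons, Matrix.head_cons]
    rw [hc0, hc1, hc2]
    simp only [map_sub]
    rw [pderiv_swap 0 1 (θ 2), pderiv_swap 0 2 (θ 1), pderiv_swap 1 2 (θ 0)]
    ring
  · apply mul_left_cancel₀ h0
    simp only [Fin.sum_univ_three, Matrix.cons_val_zero, Matrix.cons_val_one,
      Matrix.cons_val_two, Matrix.tail_cons, Matrix.head_cons]
    have f0 : h * MvPolynomial.pderiv 0 f = f * TT F n 0 := log_deriv F n 0
    have f1 : h * MvPolynomial.pderiv 1 f = f * TT F n 1 := log_deriv F n 1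
    have f2 : h * MvPolynomial.pderiv 2 f = f * TT F n 2 := log_deriv F n 2
    rw [hτT, hτT, hτT] at key
    have g1 : (C (-1 / 3 : ℂ) : S) * 3 = -1 := by
      rw [← three, ← C_mul]
      have : (-1 / 3 : ℂ) * 3 = -1 := by norm_num
      rw [this, C_neg, C_1]
    have g2 : (C (-(d : ℂ) / 3) : S) * C (3 / d : ℂ) = -1 := by
      rw [← C_mul]
      have : (-(d : ℂ) / 3) * (3 / d) = -1 := by field_simp
      rw [this, C_neg, C_1]
    have g3 : (C (-1 / 3 : ℂ) : S) = C (-(d : ℂ) / 3) * (C (1 / d : ℂ)) := by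
      rw [← C_mul]
      congr 1
      field_simp
    have g4 : (C (3 / d : ℂ) : S) = 3 * C (1 / d : ℂ) := by
      rw [← three, ← C_mul]
      congr 1
      ring
    rw [g4] at key g2
    have g5 : (C (1 / d : ℂ) : S) * (TT F n 0 * c0 + TT F n 1 * c1 + TT F n 2 * c2) = h := by
      have h3 : (3 : S) ≠ 0 := by
        rw [← three]
        intro h4
        rw [C_eq_zero] at h4
        norm_num at h4
      apply mul_left_cancel₀ h3
      linear_combination key
    rw [g3]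
    linear_combination C (-(d : ℂ) / 3) * C (1 / d : ℂ) * (c0 * f0 + c1 * f1 + c2 * f2) +
      C (-(d : ℂ) / 3) * f * g5

end

/-- **Non-exactness.** -/
theorem not_exact {F : Fin r → S} {a n : Fin r → ℕ} {d e : ℕ} {j : ℕ → S}
    (hC : Cur F a n d e j)
    (hlin : ∀ (V : Fin 3 → S) (μ : ℂ), (∀ k, (V k).IsHomogeneous 1) →
      ∑ k, MvPolynomial.pderiv k (V k) = 0 →
      ∑ k, V k * MvPolynomial.pderiv k (∏ i, F i ^ n i) = C μ * ∏ i, F i ^ n i → μ = 0) :
    ¬ Pool.Agent.Helper748.MC.Exact d (∏ i, F i ^ n i) (-3 / d : ℂ) := by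
  intro hE
  obtain ⟨N, θ, hθ⟩ := start hC.dpos hC.deg hC.hom hC.sqf.ne_zero hE
  have all : ∀ N : ℕ, ∀ θ : Fin 3 → S, Sol F a n d N θ → False := by
    intro N
    induction N with
    | zero =>
      intro θ hθ
      exact no_sol hC.dpos hC.deg hC.hom hC.sqf.ne_zero hlin hθ
    | succ N ih =>
      intro θ hθ
      obtain ⟨θ', hθ'⟩ := hC.step hθ
      exact ih θ' hθ'
  exact all N θ hθ

end Pool.Agent.KS6_81.SQ
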