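import Pool.Agent.KS6_81.SQ.Tau

set_option autoImplicit false

/-! # Leading forms of a family of germs -/

namespace Pool.Agent.KS6_81.SQ

open MvPolynomial Finset

variable {w : Fin 2 → ℕ} {r : ℕ}

lemma lead_O {D : ℤ} {f H : P} (hH : Hg w D H) (hf : O w (D + 1) (f - H)) : O w D f := by
  have h1 : f = (f - H) + H := by ring
  rw [h1]
  exact (hf.mono (by omega)).add hH.O

lemma lead_cmp {D : ℤ} {f H : P} (hH : Hg w D H) (hf : O w (D + 1) (f - H)) : cmp w D f = H := by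
  have h1 : f = (f - H) + H := by ring
  rw [h1, cmp_add, cmp_eq_zero_of_O hf (by omega), cmp_self hH, zero_add]

lemma prod_lead (s : Finset (Fin r)) {D : Fin r → ℕ} {f H : Fin r → P}
    (hH : ∀ i, Hg w (D i) (H i)) (hf : ∀ i, O w (D i + 1) (f i - H i)) :
    Hg w ((∑ i ∈ s, D i : ℕ) : ℤ) (∏ i ∈ s, H i) ∧ O w ((∑ i ∈ s, D i : ℕ) : ℤ) (∏ i ∈ s, f i) ∧
      cmp w ((∑ i ∈ s, D i : ℕ) : ℤ) (∏ i ∈ s, f i) = ∏ i ∈ s, H i := by
  induction s using Finset.induction_on with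
  | empty =>
    simp only [Finset.sum_empty, Finset.prod_empty, Nat.cast_zero]
    exact ⟨Hg_one, Hg_one.O, cmp_self Hg_one⟩
  | insert a s ha ih =>
    obtain ⟨h1, h2, h3⟩ := ih
    rw [Finset.sum_insert ha, Finset.prod_insert ha, Finset.prod_insert ha]
    push_cast at h1 h2 h3 ⊢
    refine ⟨(hH a).mul h1, (lead_O (hH a) (hf a)).mul h2, ?_⟩
    rw [cmp_mul (lead_O (hH a) (hf a)) h2, h3, lead_cmp (hH a) (hf a)]

lemma cmp_sum (j : ℤ) {ι : Type} (s : Finset ι) (a : ι → P) :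
    cmp w j (∑ i ∈ s, a i) = ∑ i ∈ s, cmp w j (a i) := by
  classical
  induction s using Finset.induction_on with
  | empty => rw [Finset.sum_empty, Finset.sum_empty, cmp_zero]
  | insert i s hi ih => rw [Finset.sum_insert hi, Finset.sum_insert hi, cmp_add, ih]

lemma cmp_C_mul (j : ℤ) (c : ℂ) (a : P) : cmp w j (C c * a) = C c * cmp w j a := by
  have := cmp_mul_Hg (Hg_C (w := w) c) j a
  rwa [zero_add] at this

/-- a weighted homogeneous family with isolated singularity -/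
structure Fam (w : Fin 2 → ℕ) (D : Fin r → ℕ) (H : Fin r → P) : Prop where
  hw : ∀ k, 0 < w k
  hwD : ∀ k, w k ≤ ∑ i, D i
  hH : ∀ i, Hg w (D i) (H i)
  iso : ∀ q : Fin 2 → ℂ, q ≠ 0 → eval q (∏ i, H i) = 0 →
    ∃ k, eval q (MvPolynomial.pderiv k (∏ i, H i)) ≠ 0

lemma Hg.sum' {j : ℤ} {ι : Type} (s : Finset ι) {a : ι → P} (h : ∀ i ∈ s, Hg w j (a i)) :
    Hg w j (∑ i ∈ s, a i) := by
  classical
  induction s using Finset.induction_on with
  | empty =>
    rw [Finset.sum_empty]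
    exact Hg_zero j
  | insert i s hi ih =>
    rw [Finset.sum_insert hi]
    exact (h i (Finset.mem_insert_self _ _)).add
      (ih fun i hi => h i (Finset.mem_insert_of_mem hi))

lemma sum_erase_eq (D : Fin r → ℕ) (i : Fin r) : ∑ j ∈ univ.erase i, D j + D i = ∑ j, D j :=
  Finset.sum_erase_add _ _ (mem_univ i)

section

variable {D : Fin r → ℕ} {H f : Fin r → P}

lemma GG_Hg (hH : ∀ i, Hg w (D i) (H i)) (i : Fin r) :
    Hg w (((∑ j, D j : ℕ) : ℤ) - D i) (GG H i) := by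
  have h1 := (prod_lead (univ.erase i) hH (f := H) (fun i => by
    rw [sub_self]; exact O_zero _)).1
  refine h1.of_eq ?_
  rw [← sum_erase_eq D i]
  push_cast
  ring

lemma tau_HF (hH : ∀ i, Hg w (D i) (H i)) (e : Fin r → ℂ) (t : ℂ) :
    HF w ((∑ j, D j : ℕ) : ℤ) (tau H e t) := by
  intro k
  refine Hg.sum' _ fun i _ => ?_
  exact (((GG_Hg hH i).mul ((hH i).pderiv k)).C_mul _).of_eq (by ring)

lemma tau_lead (hH : ∀ i, Hg w (D i) (H i)) (hf : ∀ i, O w (D i + 1) (f i - H i))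
    (e : Fin r → ℂ) (t : ℂ) :
    OF w ((∑ j, D j : ℕ) : ℤ) (tau f e t) ∧ cF w ((∑ j, D j : ℕ) : ℤ) (tau f e t) = tau H e t := by
  have key : ∀ i, O w (((∑ j, D j : ℕ) : ℤ) - D i) (GG f i) ∧
      cmp w (((∑ j, D j : ℕ) : ℤ) - D i) (GG f i) = GG H i := by
    intro i
    obtain ⟨-, h2, h3⟩ := prod_lead (univ.erase i) hH hf
    have h4 : ((∑ j ∈ univ.erase i, D j : ℕ) : ℤ) = ((∑ j, D j : ℕ) : ℤ) - D i := by
      rw [← sum_erase_eq D i]
      push_cast
      ring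
    rw [← h4]
    exact ⟨h2, h3⟩
  constructor
  · intro k
    refine O.sum fun i _ => ?_
    exact (((key i).1.mul ((lead_O (hH i) (hf i)).pderiv k)).C_mul _).of_eq (by ring)
  · funext k
    show cmp w (((∑ j, D j : ℕ) : ℤ) - w k) (∑ i, C (e i + t) * (GG f i * _)) =
      ∑ i, C (e i + t) * (GG H i * _)
    rw [cmp_sum]
    refine Finset.sum_congr rfl fun i _ => ?_
    have h4 : (((∑ j, D j : ℕ) : ℤ) - w k) = (((∑ j, D j : ℕ) : ℤ) - D i) + (D i - w k) := by ring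
    rw [cmp_C_mul, h4, cmp_mul (key i).1 ((lead_O (hH i) (hf i)).pderiv k), (key i).2, cmp_pderiv]
    have h5 : (D i : ℤ) - w k + w k = D i := by ring
    rw [h5, lead_cmp (hH i) (hf i)]

lemma ct_sum {ι : Type} (s : Finset ι) (a : ι → Fin 2 → P) :
    ct w (fun k => ∑ i ∈ s, a i k) = ∑ i ∈ s, ct w (a i) := by
  unfold ct
  rw [Finset.mul_sum, Finset.mul_sum, ← Finset.sum_add_distrib]

lemma tau_ct (hH : ∀ i, Hg w (D i) (H i)) (e : Fin r → ℂ) (t : ℂ) :
    ct w (tau H e t) = C (∑ i, (e i + t) * D i) * ∏ i, H i := by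
  have h1 : tau H e t = fun k => ∑ i, ((C (e i + t) * GG H i) • gr (H i)) k := by
    funext k
    refine Finset.sum_congr rfl fun i _ => ?_
    simp only [Pi.smul_apply, smul_eq_mul, gr]
    ring
  rw [h1, ct_sum, map_sum, Finset.sum_mul]
  refine Finset.sum_congr rfl fun i _ => ?_
  rw [ct_smul, ct_gr (hH i), ← GG_mul H i, C_mul]
  push_cast
  ring

end

lemma Fam.H0 {D : Fin r → ℕ} {H : Fin r → P} (h : Fam w D H) : ∏ i, H i ≠ 0 := by
  intro h0
  obtain ⟨k, hk⟩ := h.iso ![1, 0] (by intro h; have := congrFun h 0; simp at this) (by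
    rw [h0, map_zero])
  rw [h0, map_zero, map_zero] at hk
  exact hk rfl

lemma Fam.hz {D : Fin r → ℕ} {H : Fin r → P} (h : Fam w D H) {e : Fin r → ℂ} {t : ℂ}
    (he : ∀ i, e i + t ≠ 0) (hμ : ∑ i, (e i + t) * D i ≠ 0) (x : Fin 2 → ℂ) (hx : x ≠ 0) :
    eval x (tau H e t 0) ≠ 0 ∨ eval x (tau H e t 1) ≠ 0 := by
  by_contra hcon
  push Not at hcon
  obtain ⟨c0, c1⟩ := hcon
  have hc : ∀ k, eval x (tau H e t k) = 0 := by
    intro k
    fin_cases k
    · exact c0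
    · exact c1
  have h1 := congrArg (eval x) (tau_ct h.hH e t)
  unfold ct at h1
  rw [map_add, map_mul, map_mul, map_mul, map_mul, hc, hc, mul_zero, mul_zero, add_zero,
    map_mul, eval_C] at h1
  have h2 : eval x (∏ i, H i) = 0 := by
    rcases mul_eq_zero.1 h1.symm with h3 | h3
    · exact absurd h3 hμ
    · exact h3
  obtain ⟨k, hk⟩ := h.iso x hx h2
  rw [map_prod, Finset.prod_eq_zero_iff] at h2
  obtain ⟨i0, -, hi0⟩ := h2
  have h3 : ∀ i, i ≠ i0 → eval x (GG H i) = 0 := by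
    intro i hi
    unfold GG
    rw [map_prod]
    exact Finset.prod_eq_zero (Finset.mem_erase.2 ⟨Ne.symm hi, mem_univ i0⟩) hi0
  have h4 : eval x (MvPolynomial.pderiv k (∏ i, H i)) =
      eval x (GG H i0) * eval x (MvPolynomial.pderiv k (H i0)) := by
    rw [pderiv_prod_univ, map_sum, Finset.sum_eq_single i0]
    · rw [map_mul]
    · intro i _ hi
      rw [map_mul, h3 i hi, zero_mul]
    · intro h; exact absurd (mem_univ _) h
  have h5 : eval x (tau H e t k) =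
      (e i0 + t) * (eval x (GG H i0) * eval x (MvPolynomial.pderiv k (H i0))) := by
    unfold tau
    rw [map_sum, Finset.sum_eq_single i0]
    · rw [map_mul, map_mul, eval_C]
    · intro i _ hi
      rw [map_mul, map_mul, h3 i hi, zero_mul, mul_zero]
    · intro h; exact absurd (mem_univ _) h
  rw [hc, ← h4] at h5
  rcases mul_eq_zero.1 h5.symm with h6 | h6
  · exact he i0 h6
  · exact hk h6

lemma Fam.dat {D : Fin r → ℕ} {H : Fin r → P} (h : Fam w D H) {e : Fin r → ℂ} {t : ℂ}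
    (he : ∀ i, e i + t ≠ 0) (hμ : ∑ i, (e i + t) * D i ≠ 0) :
    Dat w (∑ i, D i) (∏ i, H i) (tau H e t) (∑ i, (e i + t) * D i) where
  hw := h.hw
  hwD := h.hwD
  H0 := h.H0
  hH := (prod_lead univ h.hH (f := H) (fun i => by rw [sub_self]; exact O_zero _)).1
  hT := tau_HF h.hH e t
  hct := tau_ct h.hH e t
  hμ := hμ
  hz := h.hz he hμ

lemma mul_gap {i j κ : ℤ} {a A b B : P} (ha : O w i a) (hB : O w j B)
    (h1 : O w (i + κ) (a - A)) (h2 : O w (j + κ) (b - B)) : O w (i + j + κ) (a * b - A * B) := by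
  have e : a * b - A * B = a * (b - B) + (a - A) * B := by ring
  rw [e]
  exact ((ha.mul h2).of_eq (by ring)).add ((h1.mul hB).of_eq (by ring))

section

variable {D : Fin r → ℕ} {H f : Fin r → P} {κ : ℤ}

lemma prod_gap (s : Finset (Fin r)) (hκ : 1 ≤ κ) (hH : ∀ i, Hg w (D i) (H i))
    (hf : ∀ i, O w (D i + κ) (f i - H i)) :
    O w (((∑ i ∈ s, D i : ℕ) : ℤ) + κ) (∏ i ∈ s, f i - ∏ i ∈ s, H i) := by
  have hf1 : ∀ i, O w (D i + 1) (f i - H i) := fun i => (hf i).mono (by omega)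
  induction s using Finset.induction_on with
  | empty =>
    rw [Finset.prod_empty, Finset.prod_empty, sub_self]
    exact O_zero _
  | insert a s ha ih =>
    rw [Finset.sum_insert ha, Finset.prod_insert ha, Finset.prod_insert ha]
    have h1 := (prod_lead s hH (f := H) (fun i => by rw [sub_self]; exact O_zero _)).1.O
    have h2 := mul_gap (lead_O (hH a) (hf1 a)) h1 (hf a) ih
    push_cast at h2 ⊢
    exact h2

lemma tau_gap (hκ : 1 ≤ κ) (hH : ∀ i, Hg w (D i) (H i))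
    (hf : ∀ i, O w (D i + κ) (f i - H i)) (e : Fin r → ℂ) (t : ℂ) (k : Fin 2) :
    O w (((∑ i, D i : ℕ) : ℤ) - w k + κ) (tau f e t k - tau H e t k) := by
  have hf1 : ∀ i, O w (D i + 1) (f i - H i) := fun i => (hf i).mono (by omega)
  unfold tau
  rw [← Finset.sum_sub_distrib]
  refine O.sum fun i _ => ?_
  have h4 : ((∑ j ∈ univ.erase i, D j : ℕ) : ℤ) = ((∑ j, D j : ℕ) : ℤ) - D i := by
    rw [← sum_erase_eq D i]
    push_cast
    ring
  have h1 := prod_gap (univ.erase i) hκ hH hf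
  have h2 := (prod_lead (univ.erase i) hH hf1).2.1
  rw [h4] at h1 h2
  have h3 : O w (D i - w k + κ) (MvPolynomial.pderiv k (f i) - MvPolynomial.pderiv k (H i)) := by
    rw [← map_sub]
    exact ((hf i).pderiv k).of_eq (by ring)
  have h5 := (mul_gap (a := GG f i) (A := GG H i) h2 ((hH i).pderiv k).O h1 h3).C_mul (e i + t)
  have h6 : ((∑ j, D j : ℕ) : ℤ) - D i + (D i - w k) + κ = ((∑ j, D j : ℕ) : ℤ) - w k + κ := by
    ring
  rw [h6] at h5
  convert h5 using 1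
  ring

lemma ct_sub (a b : Fin 2 → P) : ct w a - ct w b = ct w (a - b) := by
  unfold ct
  simp only [Pi.sub_apply]
  ring

lemma O_ct {j : ℤ} {a : Fin 2 → P} (ha : ∀ k, O w (j - w k) (a k)) : O w j (ct w a) := by
  unfold ct
  have h1 := ((Hg_X (w := w) 0).C_mul (w 0 : ℂ)).O.mul (ha 0)
  have h2 := ((Hg_X (w := w) 1).C_mul (w 1 : ℂ)).O.mul (ha 1)
  exact (h1.of_eq (by ring)).add (h2.of_eq (by ring))

lemma gap_h (hκ : 1 ≤ κ) (hH : ∀ i, Hg w (D i) (H i)) (hf : ∀ i, O w (D i + κ) (f i - H i)) :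
    O w (((∑ i, D i : ℕ) : ℤ) + κ)
      (ct w (gr (∏ i, f i)) - C (((∑ i, D i : ℕ) : ℕ) : ℂ) * ∏ i, f i) := by
  have h1 := prod_gap univ hκ hH hf
  have h2 := ct_gr (prod_lead univ hH (f := H) (fun i => by rw [sub_self]; exact O_zero _)).1
  have h3 : O w (((∑ i, D i : ℕ) : ℤ) + κ) (ct w (gr (∏ i, f i) - gr (∏ i, H i))) := by
    refine O_ct fun k => ?_
    show O w _ (MvPolynomial.pderiv k (∏ i, f i) - MvPolynomial.pderiv k (∏ i, H i))
    rw [← map_sub]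
    exact (h1.pderiv k)
  have h4 := h3.sub (h1.C_mul (((∑ i, D i : ℕ) : ℕ) : ℂ))
  rw [← ct_sub, h2] at h4
  convert h4 using 1
  push_cast
  ring

lemma gap_t (hκ : 1 ≤ κ) (hH : ∀ i, Hg w (D i) (H i)) (hf : ∀ i, O w (D i + κ) (f i - H i))
    (e : Fin r → ℂ) (t : ℂ) :
    O w (((∑ i, D i : ℕ) : ℤ) + κ)
      (ct w (tau f e t) - C (∑ i, (e i + t) * D i) * ∏ i, f i) := by
  have h1 := prod_gap univ hκ hH hf
  have h2 := tau_ct hH e t
  have h3 : O w (((∑ i, D i : ℕ) : ℤ) + κ) (ct w (tau f e t - tau H e t)) := by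
    refine O_ct fun k => ?_
    exact (tau_gap hκ hH hf e t k).of_eq (by ring)
  have h4 := h3.sub (h1.C_mul (∑ i, (e i + t) * D i))
  rw [← ct_sub, h2] at h4
  convert h4 using 1
  ring

end

/-- the local statement for a family of germs -/
theorem Fam.local_all {D : Fin r → ℕ} {H : Fin r → P} (hF : Fam w D H) {e : Fin r → ℂ}
    {f : Fin r → P} {κ : ℤ} (hκ : 1 ≤ κ)
    (hf : ∀ i, O w (D i + κ) (f i - H i)) {N : ℕ} (hN : 1 ≤ N) {t : ℂ}
    (he : ∀ i, e i + t ≠ 0) (hμ : ∑ i, (e i + t) * D i ≠ 0)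
    (he' : ∀ i, e i + (t + 1) ≠ 0) (hμ' : ∑ i, (e i + (t + 1)) * D i ≠ 0)
    {θ : Fin 2 → P} {J : P}
    (hθ : (∏ i, f i) * rt θ = wd (tau f e (t + 1)) θ + (∏ i, f i) ^ (N + 1) * J)
    (hdiv : ∏ i, f i ∣ wd (tau f e t) θ) {J1 : ℤ}
    (hJ1 : J1 ≤ N * (∑ i, D i : ℕ) + w 0 + w 1 + κ)
    (hJ2 : ∀ j : ℤ, j < J1 → (j : ℂ) ≠ ∑ i, (e i + (t + 1)) * D i)
    {φ : P} {E : ℤ} (hφ : O w E φ) (hJ3 : 2 * ((∑ i, D i : ℕ) : ℤ) < J1 + E + w 0 + w 1) (K : ℕ) :
    ∃ (b : P) (c : Fin 2 → P), OF w K (φ • θ - b • tau f e t - (∏ i, f i) • c) := by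
  have hf1 : ∀ i, O w (D i + 1) (f i - H i) := fun i => (hf i).mono (by omega)
  obtain ⟨-, h2, h3⟩ := prod_lead univ hF.hH hf1
  obtain ⟨h4, h5⟩ := tau_lead hF.hH hf1 e t
  have e1 : tau f e t + gr (∏ i, f i) = tau f e (t + 1) := by
    funext k
    exact (tau_succ f e t k).symm
  have e2 : tau H e t + gr (∏ i, H i) = tau H e (t + 1) := by
    funext k
    exact (tau_succ H e t k).symm
  refine (hF.dat he hμ).local_all h2 h3 h4 h5 (gap_h hκ hF.hH hf) (gap_t hκ hF.hH hf e t) ?_ hN ?_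
    (J := J) ?_ hdiv hJ1 ?_ hφ hJ3 K
  · rw [e2]
    exact hF.hz he' hμ'
  · exact tau_rot f e t 0 1
  · rw [e1]
    exact hθ
  · intro j hj
    have h6 := hJ2 j hj
    intro h7
    apply h6
    rw [h7]
    have h8 : ∀ i, (e i + (t + 1)) * (D i : ℂ) = (e i + t) * D i + D i := fun i => by ring
    simp only [h8, Finset.sum_add_distrib]
    push_cast
    ring

end Pool.Agent.KS6_81.SQ
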