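import Pool.Agent.KS6_81.SQ.Dvd

set_option autoImplicit false

/-! # From local to global -/

namespace Pool.Agent.KS6_81.SQ

open MvPolynomial Finset

variable {r : ℕ}

/-- the ideal of the denominators -/
def den (h φ : S) (τ θ : Fin 3 → S) : Ideal S where
  carrier := {u | ∃ (b : S) (c : Fin 3 → S), (u * φ) • θ = b • τ + h • c}
  add_mem' := by
    rintro u v ⟨b, c, h1⟩ ⟨b', c', h2⟩
    refine ⟨b + b', c + c', ?_⟩
    rw [add_mul, add_smul, h1, h2, add_smul, smul_add]
    abel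
  zero_mem' := ⟨0, 0, by simp⟩
  smul_mem' := by
    rintro a u ⟨b, c, h1⟩
    refine ⟨a * b, a • c, ?_⟩
    rw [smul_eq_mul, mul_assoc, mul_smul, h1, smul_add, mul_smul, smul_comm a h c]

lemma mem_den {h φ u : S} {τ θ : Fin 3 → S} : u ∈ den h φ τ θ ↔
    ∃ (b : S) (c : Fin 3 → S), (u * φ) • θ = b • τ + h • c := Iff.rfl

lemma h_mem_den (h φ : S) (τ θ : Fin 3 → S) : h ∈ den h φ τ θ :=
  ⟨0, φ • θ, by rw [zero_smul, zero_add, mul_smul]⟩

lemma tau_mem_den {h φ : S} {τ θ : Fin 3 → S}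
    (hd : ∀ k l, h ∣ τ k * θ l - τ l * θ k) (k : Fin 3) : τ k ∈ den h φ τ θ := by
  choose x hx using hd
  refine ⟨φ * θ k, fun l => φ * x k l, ?_⟩
  funext l
  simp only [Pi.smul_apply, Pi.add_apply, smul_eq_mul]
  linear_combination φ * hx k l

/-- Nullstellensatz -/
lemma pow_mem_of_zero {I : Ideal S} (hI : ∀ q : Fin 3 → ℂ, q ≠ 0 → ∃ u ∈ I, eval q u ≠ 0)
    (k : Fin 3) : ∃ K : ℕ, (X k : S) ^ K ∈ I := by
  have h1 : (X k : S) ∈ I.radical := by
    rw [← vanishingIdeal_zeroLocus_eq_radical (K := ℂ), mem_vanishingIdeal_iff]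
    intro q hq
    by_cases hq0 : q = 0
    · rw [hq0]
      simp
    · exfalso
      obtain ⟨u, hu, hu2⟩ := hI q hq0
      rw [mem_zeroLocus_iff] at hq
      have := hq u hu
      rw [← coe_aeval_eq_eval] at hu2
      exact hu2 this
  exact h1

/-- the substitution `y = 0` -/
noncomputable def rho : S →ₐ[ℂ] S := aeval ![X 0, 0, X 2]

lemma sub_rho (a : S) : (X 1 : S) ∣ a - rho a := by
  induction a using MvPolynomial.induction_on with
  | C c =>
    have h1 : rho (C c) = C c := rho.commutes c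
    rw [h1, sub_self]
    exact dvd_zero _
  | add p q hp hq =>
    rw [map_add]
    have h1 : p + q - (rho p + rho q) = (p - rho p) + (q - rho q) := by ring
    rw [h1]
    exact dvd_add hp hq
  | mul_X p i hp =>
    have h1 : p * X i - rho (p * X i) = (p - rho p) * X i + rho p * (X i - rho (X i)) := by
      rw [map_mul]
      ring
    rw [h1]
    refine dvd_add (hp.mul_right _) (Dvd.dvd.mul_left ?_ _)
    fin_cases i
    · simp [rho]
    · simp [rho]
    · simp [rho]

lemma X0_prime : Prime (X 0 : S) := X_prime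

/-- `x^K, h, y` is a regular sequence when `h(0,0,1) ≠ 0` -/
lemma reg_step {h : S} (hh : eval ![0, 0, 1] h ≠ 0) {K : ℕ} {β a c : S}
    (he : X 1 * β = X 0 ^ K * a + h * c) : ∃ a' c' : S, β = X 0 ^ K * a' + h * c' := by
  obtain ⟨a1, ha1⟩ := sub_rho a
  obtain ⟨c1, hc1⟩ := sub_rho c
  obtain ⟨h1, hh1⟩ := sub_rho h
  have h2 : 0 = X 0 ^ K * rho a + rho h * rho c := by
    have h3 := congrArg rho he
    simp only [map_mul, map_add, map_pow] at h3
    have h4 : rho (X 0) = X 0 := by simp [rho]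
    have h5 : rho (X 1) = 0 := by simp [rho]
    rw [h4, h5, zero_mul] at h3
    exact h3
  have h3 : (X 0 : S) ^ K ∣ rho h * rho c := ⟨-rho a, by linear_combination (-1 : S) * h2⟩
  have h4 : ¬ (X 0 : S) ∣ rho h := by
    rintro ⟨g, hg⟩
    have h5 := congrArg (eval ![0, 0, 1]) hg
    have h6 : eval ![0, 0, 1] (rho h) = eval ![0, 0, 1] h := by
      have h7 := congrArg (eval ![0, 0, 1]) hh1
      rw [map_sub, map_mul, eval_X] at h7
      simp only [Matrix.cons_val_one, Matrix.cons_val_zero, zero_mul] at h7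
      exact (sub_eq_zero.1 h7).symm
    rw [h6, map_mul, eval_X] at h5
    simp only [Matrix.cons_val_zero, zero_mul] at h5
    exact hh h5
  obtain ⟨c', hc'⟩ := X0_prime.pow_dvd_of_dvd_mul_left K h4 h3
  have hxK : (X 0 : S) ^ K ≠ 0 := pow_ne_zero _ (X_ne_zero _)
  have h5 : rho a = -rho h * c' := by
    apply mul_left_cancel₀ hxK
    rw [hc'] at h2
    linear_combination (-1 : S) * h2
  refine ⟨a1 + c' * h1, c1, ?_⟩
  apply mul_left_cancel₀ (X_ne_zero (R := ℂ) (1 : Fin 3))
  have e1 : a = rho a + X 1 * a1 := by linear_combination ha1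
  have e2 : c = rho c + X 1 * c1 := by linear_combination hc1
  rw [he, e1, e2, h5, hc']
  linear_combination (X 0 ^ K * c') * hh1

lemma reg_pow {h : S} (hh : eval ![0, 0, 1] h ≠ 0) {K : ℕ} (L : ℕ) {β a c : S}
    (he : X 1 ^ L * β = X 0 ^ K * a + h * c) : ∃ a' c' : S, β = X 0 ^ K * a' + h * c' := by
  induction L generalizing β a c with
  | zero => exact ⟨a, c, by rw [← he, pow_zero, one_mul]⟩
  | succ L ih =>
    rw [pow_succ, mul_assoc] at he
    obtain ⟨a', c', h1⟩ := ih he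
    exact reg_step hh h1

/-- an element `φ θ` which is locally in the submodule generated by `τ` and `h` is in it -/
theorem glob {F : Fin r → S} (hsq : Squarefree (∏ i, F i)) {e : Fin r → ℂ} {t : ℂ}
    (he : ∀ i, e i + t ≠ 0) (hh : eval ![0, 0, 1] (∏ i, F i) ≠ 0) {φ : S} {θ : Fin 3 → S}
    (hd : ∀ k l, ∏ i, F i ∣ tau F e t k * θ l - tau F e t l * θ k)
    (hloc : ∀ q : Fin 3 → ℂ, q ≠ 0 → eval q (∏ i, F i) = 0 →
      (∀ k, eval q (MvPolynomial.pderiv k (∏ i, F i)) = 0) →
      ∃ u, eval q u ≠ 0 ∧ u ∈ den (∏ i, F i) φ (tau F e t) θ) :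
    ∃ (β : S) (c : Fin 3 → S), φ • θ = β • tau F e t + (∏ i, F i) • c := by
  set h := ∏ i, F i with hh'
  set τ := tau F e t with hτ
  have hI : ∀ q : Fin 3 → ℂ, q ≠ 0 → ∃ u ∈ den h φ τ θ, eval q u ≠ 0 := by
    intro q hq
    by_cases h1 : eval q h = 0
    swap
    · exact ⟨h, h_mem_den _ _ _ _, h1⟩
    by_cases h2 : ∀ k, eval q (τ k) = 0
    swap
    · push Not at h2
      obtain ⟨k, hk⟩ := h2
      exact ⟨τ k, tau_mem_den hd k, hk⟩
    obtain ⟨u, hu, hu2⟩ := hloc q hq h1 (sing_of_tau he h1 h2)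
    exact ⟨u, hu2, hu⟩
  obtain ⟨K, hK⟩ := pow_mem_of_zero hI 0
  obtain ⟨L, hL⟩ := pow_mem_of_zero hI 1
  obtain ⟨bx, cx, hx⟩ := hK
  obtain ⟨b_y, c_y, hy⟩ := hL
  have h1 : h ∣ X 1 ^ L * bx - X 0 ^ K * b_y := by
    refine dvd_of_tau hsq he fun k => ?_
    have e1 := congrFun hx k
    have e2 := congrFun hy k
    simp only [Pi.smul_apply, Pi.add_apply, smul_eq_mul] at e1 e2
    exact ⟨X 0 ^ K * c_y k - X 1 ^ L * cx k, by
      rw [← hτ]
      linear_combination X 0 ^ K * e2 - X 1 ^ L * e1⟩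
  obtain ⟨g, hg⟩ := h1
  obtain ⟨β, c', hβ⟩ := reg_pow hh (K := K) L (β := bx) (a := b_y) (c := g) (by
    linear_combination hg)
  have hxK : (X 0 : S) ^ K ≠ 0 := pow_ne_zero _ (X_ne_zero _)
  have hX0 : ¬ (X 0 : S) ∣ h := by
    rintro ⟨g, hg⟩
    apply hh
    have h5 := congrArg (eval ![0, 0, 1]) hg
    rw [map_mul, eval_X] at h5
    simp only [Matrix.cons_val_zero, zero_mul] at h5
    exact h5
  have h2 : ∀ k, h ∣ φ * θ k - β * τ k := by
    intro k
    have e1 := congrFun hx k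
    simp only [Pi.smul_apply, Pi.add_apply, smul_eq_mul] at e1
    have h3 : X 0 ^ K * (φ * θ k - β * τ k) = h * (c' * τ k + cx k) := by
      rw [hβ] at e1
      linear_combination e1
    obtain ⟨g', hg'⟩ := X0_prime.pow_dvd_of_dvd_mul_left K hX0 ⟨_, h3.symm⟩
    refine ⟨g', ?_⟩
    apply mul_left_cancel₀ hxK
    rw [h3, hg']
    ring
  choose g' hg' using h2
  refine ⟨β, g', ?_⟩
  funext k
  simp only [Pi.smul_apply, Pi.add_apply, smul_eq_mul]
  linear_combination hg' k

/-- components of a product with a homogeneous polynomial -/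
lemma hc_mul {n : ℕ} {h : S} (hh : h.IsHomogeneous n) (j : ℕ) (c : S) :
    homogeneousComponent (n + j) (h * c) = h * homogeneousComponent j c := by
  classical
  conv_lhs => rw [← sum_homogeneousComponent c, Finset.mul_sum, map_sum]
  have h1 : ∀ i ∈ range (c.totalDegree + 1), i ≠ j →
      homogeneousComponent (n + j) (h * homogeneousComponent i c) = 0 := by
    intro i _ hij
    have h2 := hh.mul (homogeneousComponent_isHomogeneous i c)
    rw [homogeneousComponent_of_mem h2, if_neg (by omega)]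
  by_cases hj : j ∈ range (c.totalDegree + 1)
  · rw [Finset.sum_eq_single j h1 (fun h => absurd hj h)]
    have h2 := hh.mul (homogeneousComponent_isHomogeneous j c)
    rw [homogeneousComponent_of_mem h2, if_pos rfl]
  · rw [Finset.sum_eq_zero fun i hi => h1 i hi fun h => hj (h ▸ hi)]
    rw [homogeneousComponent_eq_zero, mul_zero]
    rw [mem_range] at hj
    omega

/-- the homogeneous version -/
lemma glob_hom {h : S} {δ : ℕ} (hδ : 1 ≤ δ) (hh : h.IsHomogeneous δ) {τ θ : Fin 3 → S} {φ : S}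
    (hτ : ∀ k, (τ k).IsHomogeneous (δ - 1)) {m : ℕ} (hθ : ∀ k, (φ * θ k).IsHomogeneous (m + δ))
    {β : S} {c : Fin 3 → S} (he : φ • θ = β • τ + h • c) :
    ∃ (β' : S) (c' : Fin 3 → S), β'.IsHomogeneous (m + 1) ∧ (∀ k, (c' k).IsHomogeneous m) ∧
      φ • θ = β' • τ + h • c' := by
  refine ⟨homogeneousComponent (m + 1) β, fun k => homogeneousComponent m (c k),
    homogeneousComponent_isHomogeneous _ _, fun k => homogeneousComponent_isHomogeneous _ _, ?_⟩
  funext k
  have e1 := congrFun he k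
  simp only [Pi.smul_apply, Pi.add_apply, smul_eq_mul] at e1 ⊢
  have e2 := congrArg (homogeneousComponent (m + δ)) e1
  rw [homogeneousComponent_of_mem (hθ k), if_pos rfl, map_add] at e2
  rw [e2]
  congr 1
  · have : m + δ = (δ - 1) + (m + 1) := by omega
    rw [mul_comm β, this, hc_mul (hτ k), mul_comm]
  · have : m + δ = δ + m := by omega
    rw [this, hc_mul hh]

end Pool.Agent.KS6_81.SQ
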