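import Pool.Agent.KS6_81.SQ.Glob

set_option autoImplicit false

/-! # Glueing along chains of products of lines, and the descent step -/

namespace Pool.Agent.KS6_81.SQ

open MvPolynomial Finset

variable {r : ℕ}

/-- the vertical line through `(x : y : 1)` -/
noncomputable def lx (x : ℂ) : S := X 0 - C x * X 2

/-- the horizontal line through `(x : y : 1)` -/
noncomputable def ly (y : ℂ) : S := X 1 - C y * X 2

/-- the substitution `y = y0 z` -/
noncomputable def sg (y : ℂ) : S →ₐ[ℂ] S := aeval ![X 0, C y * X 2, X 2]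

lemma sub_sg (y : ℂ) (a : S) : ly y ∣ a - sg y a := by
  induction a using MvPolynomial.induction_on with
  | C c =>
    have h1 : sg y (C c) = C c := (sg y).commutes c
    rw [h1, sub_self]
    exact dvd_zero _
  | add p q hp hq =>
    rw [map_add]
    have h1 : p + q - (sg y p + sg y q) = (p - sg y p) + (q - sg y q) := by ring
    rw [h1]
    exact dvd_add hp hq
  | mul_X p i hp =>
    have h1 : p * X i - sg y (p * X i) = (p - sg y p) * X i + sg y p * (X i - sg y (X i)) := by
      rw [map_mul]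
      ring
    rw [h1]
    refine dvd_add (hp.mul_right _) (Dvd.dvd.mul_left ?_ _)
    fin_cases i
    · simp [sg]
    · simp [sg, ly]
    · simp [sg]

lemma sg_ly (y : ℂ) : sg y (ly y) = 0 := by simp [sg, ly]

lemma dvd_iff_sg (y : ℂ) (a : S) : ly y ∣ a ↔ sg y a = 0 := by
  constructor
  · rintro ⟨b, rfl⟩
    rw [map_mul, sg_ly, zero_mul]
  · intro h
    have := sub_sg y a
    rwa [h, sub_zero] at this

lemma ly_ne (y : ℂ) : ly y ≠ 0 := by
  intro h
  have := congrArg (eval ![0, 1, 0]) h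
  simp [ly] at this

lemma lx_ne (x : ℂ) : lx x ≠ 0 := by
  intro h
  have := congrArg (eval ![1, 0, 0]) h
  simp [lx] at this

lemma ly_prime (y : ℂ) : Prime (ly y) := by
  refine ⟨ly_ne y, ?_, ?_⟩
  · intro h
    have h1 := h.map (eval ![0, y, 1])
    simp [ly] at h1
  · intro a b h
    rw [dvd_iff_sg, map_mul] at h
    rcases mul_eq_zero.1 h with h1 | h1
    · exact Or.inl ((dvd_iff_sg y a).2 h1)
    · exact Or.inr ((dvd_iff_sg y b).2 h1)

lemma ly_ndvd_lx (x y : ℂ) : ¬ ly y ∣ lx x := by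
  rw [dvd_iff_sg]
  intro h
  have := congrArg (eval ![1, 0, 0]) h
  simp [sg, lx] at this

lemma prod_dvd {ι : Type} (s : Finset ι) (q : ι → ℂ) {M : S} (hM : ∀ i ∈ s, ¬ ly (q i) ∣ M)
    {g : S} (h : ∏ i ∈ s, ly (q i) ∣ M * g) : ∏ i ∈ s, ly (q i) ∣ g := by
  classical
  induction s using Finset.induction_on generalizing g with
  | empty =>
    rw [Finset.prod_empty]
    exact one_dvd _
  | insert a s ha ih =>
    rw [Finset.prod_insert ha] at h ⊢
    have h1 : ly (q a) ∣ M * g := (Dvd.intro _ rfl).trans h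
    rcases (ly_prime (q a)).dvd_or_dvd h1 with h2 | h2
    · exact absurd h2 (hM a (Finset.mem_insert_self _ _))
    · obtain ⟨g', rfl⟩ := h2
      refine mul_dvd_mul_left _ (ih (fun i hi => hM i (Finset.mem_insert_of_mem hi)) ?_)
      obtain ⟨c, hc⟩ := h
      refine ⟨c, ?_⟩
      apply mul_left_cancel₀ (ly_ne (q a))
      linear_combination hc

section

variable {m : ℕ} (q : Fin m → Fin 2 → ℂ)

/-- the products of lines -/
noncomputable def fj (j : ℕ) (k : Fin m) : S := if (k : ℕ) < j then lx (q k 0) else ly (q k 1)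

/-- the products of lines -/
noncomputable def phi (j : ℕ) : S := ∏ k, fj q j k

lemma phi_zero : phi q 0 = ∏ k, ly (q k 1) := by
  unfold phi fj
  exact Finset.prod_congr rfl fun k _ => by rw [if_neg (by omega)]

lemma phi_last : phi q m = ∏ k, lx (q k 0) := by
  unfold phi fj
  exact Finset.prod_congr rfl fun k _ => by rw [if_pos k.2]

lemma phi_ne (j : ℕ) : phi q j ≠ 0 := by
  unfold phi
  rw [Finset.prod_ne_zero_iff]
  intro k _
  unfold fj
  split_ifs
  · exact lx_ne _
  · exact ly_ne _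

lemma phi_hom (j : ℕ) : (phi q j).IsHomogeneous m := by
  have h1 : (∏ k, fj q j k).IsHomogeneous (∑ _k : Fin m, 1) := by
    refine IsHomogeneous.prod _ _ _ fun k _ => ?_
    unfold fj
    split_ifs
    · unfold lx
      refine (isHomogeneous_X _ _).sub ?_
      have := (isHomogeneous_C (Fin 3) (q k 0)).mul (isHomogeneous_X ℂ (2 : Fin 3))
      rwa [zero_add] at this
    · unfold ly
      refine (isHomogeneous_X _ _).sub ?_
      have := (isHomogeneous_C (Fin 3) (q k 1)).mul (isHomogeneous_X ℂ (2 : Fin 3))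
      rwa [zero_add] at this
  show (∏ k, fj q j k).IsHomogeneous m
  simpa using h1

/-- neighbours -/
lemma phi_succ (j : Fin m) : ∃ R : S, phi q j = ly (q j 1) * R ∧ phi q (j + 1) = lx (q j 0) * R := by
  refine ⟨∏ k ∈ univ.erase j, fj q j k, ?_, ?_⟩
  · unfold phi
    rw [← Finset.mul_prod_erase _ _ (mem_univ j)]
    congr 1
    unfold fj
    rw [if_neg (lt_irrefl _)]
  · unfold phi
    rw [← Finset.mul_prod_erase _ _ (mem_univ j)]
    congr 1
    · unfold fj
      rw [if_pos (Nat.lt_succ_self _)]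
    · refine Finset.prod_congr rfl fun k hk => ?_
      have h1 : (k : ℕ) ≠ j := fun h => Finset.ne_of_mem_erase hk (Fin.ext h)
      unfold fj
      by_cases h2 : (k : ℕ) < j
      · rw [if_pos h2, if_pos (by omega)]
      · rw [if_neg h2, if_neg (by omega)]

end

lemma zero_of_dvd {h P : S} {δ n : ℕ} (hh : h.IsHomogeneous δ) (hP : P.IsHomogeneous n)
    (hn : n < δ) (hd : h ∣ P) : P = 0 := by
  by_contra h0
  obtain ⟨g, hg⟩ := hd
  have h1 : h ≠ 0 := by
    rintro rfl
    rw [zero_mul] at hg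
    exact h0 hg
  have h2 : g ≠ 0 := by
    rintro rfl
    rw [mul_zero] at hg
    exact h0 hg
  have h3 := hP.totalDegree h0
  rw [hg, totalDegree_mul_of_isDomain h1 h2, hh.totalDegree h1] at h3
  omega

/-- the substitution `z = 0` -/
noncomputable def rz : S →ₐ[ℂ] S := aeval ![X 0, X 1, 0]

lemma sub_rz (a : S) : (X 2 : S) ∣ a - rz a := by
  induction a using MvPolynomial.induction_on with
  | C c =>
    have h1 : rz (C c) = C c := rz.commutes c
    rw [h1, sub_self]
    exact dvd_zero _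
  | add p q hp hq =>
    rw [map_add]
    have h1 : p + q - (rz p + rz q) = (p - rz p) + (q - rz q) := by ring
    rw [h1]
    exact dvd_add hp hq
  | mul_X p i hp =>
    have h1 : p * X i - rz (p * X i) = (p - rz p) * X i + rz p * (X i - rz (X i)) := by
      rw [map_mul]
      ring
    rw [h1]
    refine dvd_add (hp.mul_right _) (Dvd.dvd.mul_left ?_ _)
    fin_cases i
    · simp [rz]
    · simp [rz]
    · simp [rz]

lemma rz0 : rz (X 0) = X 0 := by simp [rz]
lemma rz1 : rz (X 1) = X 1 := by simp [rz]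
lemma rz2 : rz (X 2) = 0 := by simp [rz]

lemma rz_iff (a : S) : X 2 ∣ a ↔ rz a = 0 := by
  constructor
  · rintro ⟨b, rfl⟩
    rw [map_mul, rz2, zero_mul]
  · intro h
    have := sub_rz a
    rwa [h, sub_zero] at this

lemma rz_rz (a : S) : rz (rz a) = rz a := by
  have h1 := (rz_iff _).1 (sub_rz a)
  rw [map_sub] at h1
  exact (sub_eq_zero.1 h1).symm

lemma hc_mul_lt {n : ℕ} {h : S} (hh : h.IsHomogeneous n) {j : ℕ} (hj : j < n) (c : S) :
    homogeneousComponent j (h * c) = 0 := by
  conv_lhs => rw [← sum_homogeneousComponent c, Finset.mul_sum, map_sum]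
  refine Finset.sum_eq_zero fun i _ => ?_
  have h2 := hh.mul (homogeneousComponent_isHomogeneous i c)
  rw [homogeneousComponent_of_mem h2, if_neg (by omega)]

lemma zpow_hom (k : ℕ) : ((X 2 : S) ^ k).IsHomogeneous k := by
  have := (isHomogeneous_X ℂ (2 : Fin 3)).pow k
  rwa [one_mul] at this

lemma hc_zdvd {k : ℕ} {a : S} (h : X 2 ^ k ∣ a) (n : ℕ) :
    X 2 ^ k ∣ homogeneousComponent n a := by
  obtain ⟨b, rfl⟩ := h
  by_cases hn : n < k
  · rw [hc_mul_lt (zpow_hom k) hn]
    exact dvd_zero _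
  · obtain ⟨m, rfl⟩ : ∃ m, n = k + m := ⟨n - k, by omega⟩
    rw [hc_mul (zpow_hom k)]
    exact Dvd.intro _ rfl

lemma X0_ndvd_X1 : ¬ (X 0 : S) ∣ X 1 := by
  rintro ⟨c, hc⟩
  have := congrArg (eval ![0, 1, 0]) hc
  simp at this

lemma X2_ndvd_X0 : ¬ (X 2 : S) ∣ X 0 := by
  rintro ⟨c, hc⟩
  have := congrArg (eval ![1, 0, 0]) hc
  simp at this

lemma xy_div {e : ℕ} {A B : S} (h : X 1 ^ e * A = X 0 ^ e * B) :
    ∃ q, A = X 0 ^ e * q ∧ B = X 1 ^ e * q := by
  have h1 : ¬ (X 0 : S) ∣ X 1 ^ e := fun h => X0_ndvd_X1 (X0_prime.dvd_of_dvd_pow h)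
  obtain ⟨q, rfl⟩ := X0_prime.pow_dvd_of_dvd_mul_left e h1 ⟨B, h⟩
  refine ⟨q, rfl, ?_⟩
  apply mul_left_cancel₀ (pow_ne_zero e (X_ne_zero (R := ℂ) (0 : Fin 3)))
  linear_combination (-1 : S) * h

/-- `j ≡ x^e`, `j' ≡ y^e` modulo `z` are coprime -/
lemma cop_z {e n : ℕ} {j j' c c' : S} (hj : j.IsHomogeneous e)
    (h0 : rz j = X 0 ^ e) (h1 : rz j' = X 1 ^ e) (hc : c.IsHomogeneous n)
    (h : j' * c = j * c') : j ∣ c := by
  have key : ∀ k : ℕ, ∃ Q A B : S, c - j * Q = X 2 ^ k * A ∧ c' - j' * Q = X 2 ^ k * B := by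
    intro k
    induction k with
    | zero => exact ⟨0, c, c', by ring, by ring⟩
    | succ k ih =>
      obtain ⟨Q, A, B, hA, hB⟩ := ih
      have hz : (X 2 : S) ^ k ≠ 0 := pow_ne_zero _ (X_ne_zero _)
      have h2 : j' * A = j * B := by
        apply mul_left_cancel₀ hz
        linear_combination (-j') * hA + j * hB + h
      have h3 := congrArg rz h2
      rw [map_mul, map_mul, h0, h1] at h3
      obtain ⟨q, hq, hq'⟩ := xy_div h3
      have hq2 : rz q = q := by
        have h4 := congrArg rz hq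
        rw [rz_rz, map_mul, map_pow, rz0] at h4
        apply mul_left_cancel₀ (pow_ne_zero e (X_ne_zero (R := ℂ) (0 : Fin 3)))
        rw [← h4, hq]
      obtain ⟨A', hA'⟩ : (X 2 : S) ∣ A - j * q := by
        rw [rz_iff, map_sub, map_mul, h0, hq, hq2]
        ring
      obtain ⟨B', hB'⟩ : (X 2 : S) ∣ B - j' * q := by
        rw [rz_iff, map_sub, map_mul, h1, hq', hq2]
        ring
      refine ⟨Q + X 2 ^ k * q, A', B', ?_, ?_⟩
      · rw [pow_succ]
        linear_combination hA + X 2 ^ k * hA'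
      · rw [pow_succ]
        linear_combination hB + X 2 ^ k * hB'
  obtain ⟨Q, A, -, hA, -⟩ := key (n + 1)
  have h2 : X 2 ^ (n + 1) ∣ homogeneousComponent n (c - j * Q) := hc_zdvd ⟨A, hA⟩ n
  rw [map_sub, homogeneousComponent_of_mem hc, if_pos rfl] at h2
  by_cases hn : n < e
  · rw [hc_mul_lt hj hn, sub_zero] at h2
    have h3 := zero_of_dvd (zpow_hom (n + 1)) hc (by omega) h2
    rw [h3]
    exact dvd_zero _
  · obtain ⟨m, rfl⟩ : ∃ m, n = e + m := ⟨n - e, by omega⟩
    rw [hc_mul hj] at h2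
    have h3 := zero_of_dvd (zpow_hom (e + m + 1))
      (hc.sub (hj.mul (homogeneousComponent_isHomogeneous m Q))) (by omega) h2
    exact ⟨_, sub_eq_zero.1 h3⟩

lemma hom_of_zmul {n : ℕ} {c : S} (h : (X 2 * c).IsHomogeneous (n + 1)) : c.IsHomogeneous n := by
  have h1 := homogeneousComponent_of_mem (m := n + 1) (n := n + 1) h
  have h2 : homogeneousComponent (n + 1) (X 2 * c) = X 2 * homogeneousComponent n c := by
    have := hc_mul (isHomogeneous_X ℂ (2 : Fin 3)) n c
    rwa [add_comm] at this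
  rw [h2, if_pos rfl] at h1
  rw [← mul_left_cancel₀ (X_ne_zero (R := ℂ) (2 : Fin 3)) h1]
  exact homogeneousComponent_isHomogeneous _ _

/-- the binary form modulo `z` -/
lemma bin_decomp {e : ℕ} {g : S} (hg : g.IsHomogeneous e) :
    ∃ a : ℕ → ℂ, (X 2 : S) ∣ g - ∑ l ∈ range (e + 1), C (a l) * (X 0 ^ (e - l) * X 1 ^ l) := by
  classical
  have key : ∀ s : Finset (Fin 3 →₀ ℕ), (∀ m ∈ s, m 0 + m 1 + m 2 = e) →
      ∃ a : ℕ → ℂ, (X 2 : S) ∣ (∑ m ∈ s, monomial m (g.coeff m)) -
        ∑ l ∈ range (e + 1), C (a l) * (X 0 ^ (e - l) * X 1 ^ l) := by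
    intro s
    induction s using Finset.induction_on with
    | empty =>
      intro _
      refine ⟨0, ?_⟩
      simp
    | insert m s hm ih =>
      intro hs
      obtain ⟨a, ha⟩ := ih fun m hm => hs m (Finset.mem_insert_of_mem hm)
      have hdeg := hs m (Finset.mem_insert_self _ _)
      rw [Finset.sum_insert hm]
      by_cases h2 : m 2 = 0
      · refine ⟨fun l => a l + if l = m 1 then g.coeff m else 0, ?_⟩
        have h3 : ∑ l ∈ range (e + 1), C (a l + if l = m 1 then g.coeff m else 0) *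
            (X 0 ^ (e - l) * X 1 ^ l : S) =
            ∑ l ∈ range (e + 1), C (a l) * (X 0 ^ (e - l) * X 1 ^ l) +
              monomial m (g.coeff m) := by
          simp only [C_add, add_mul, Finset.sum_add_distrib]
          congr 1
          rw [Finset.sum_eq_single (m 1)]
          · rw [if_pos rfl, monomial_three, h2]
            have : e - m 1 = m 0 := by omega
            rw [this]
            ring
          · intro l _ hl
            rw [if_neg hl, C_0, zero_mul]
          · intro h4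
            exfalso
            apply h4
            rw [mem_range]
            omega
        rw [h3]
        convert ha using 1
        ring
      · refine ⟨a, ?_⟩
        have h3 : (X 2 : S) ∣ monomial m (g.coeff m) := by
          rw [monomial_three]
          exact Dvd.dvd.mul_left (dvd_pow_self _ h2) _
        have h4 := dvd_add h3 ha
        convert h4 using 1
        ring
  obtain ⟨a, ha⟩ := key g.support (by
    intro m hm
    have h2 := hg (mem_support_iff.1 hm)
    rw [Finsupp.weight_apply, Finsupp.sum_fintype _ _ (fun i => by simp)] at h2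
    simpa [Fin.sum_univ_three] using h2)
  refine ⟨a, ?_⟩
  rwa [← g.as_sum] at ha

section

variable (h : S) (τ θ : Fin 3 → S)

/-- `g θ = β τ` modulo `h` -/
def Mem (g β : S) : Prop := ∀ k, h ∣ g * θ k - β * τ k

variable {h τ θ}

lemma Mem.add {g g' β β' : S} (h1 : Mem h τ θ g β) (h2 : Mem h τ θ g' β') :
    Mem h τ θ (g + g') (β + β') := by
  intro k
  have := dvd_add (h1 k) (h2 k)
  convert this using 1
  ring

lemma Mem.sub {g g' β β' : S} (h1 : Mem h τ θ g β) (h2 : Mem h τ θ g' β') :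
    Mem h τ θ (g - g') (β - β') := by
  intro k
  have := dvd_sub (h1 k) (h2 k)
  convert this using 1
  ring

lemma Mem.mul {g β : S} (h1 : Mem h τ θ g β) (a : S) : Mem h τ θ (a * g) (a * β) := by
  intro k
  have := (h1 k).mul_left a
  convert this using 1
  ring

lemma Mem.zero : Mem h τ θ 0 0 := by
  intro k
  rw [zero_mul, zero_mul, sub_zero]
  exact dvd_zero _

lemma Mem.sum {ι : Type} (s : Finset ι) {g β : ι → S} (h1 : ∀ i ∈ s, Mem h τ θ (g i) (β i)) :
    Mem h τ θ (∑ i ∈ s, g i) (∑ i ∈ s, β i) := by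
  classical
  induction s using Finset.induction_on with
  | empty =>
    rw [Finset.sum_empty, Finset.sum_empty]
    exact Mem.zero
  | insert i s hi ih =>
    rw [Finset.sum_insert hi, Finset.sum_insert hi]
    exact (h1 i (Finset.mem_insert_self _ _)).add
      (ih fun i hi => h1 i (Finset.mem_insert_of_mem hi))

/-- uniqueness in degrees `< δ` -/
lemma Mem.unique {δ n : ℕ} (hh : h.IsHomogeneous δ) (hu : ∀ u, (∀ k, h ∣ u * τ k) → h ∣ u)
    {g β β' : S} (h1 : Mem h τ θ g β) (h2 : Mem h τ θ g β') (hβ : β.IsHomogeneous n)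
    (hβ' : β'.IsHomogeneous n) (hn : n < δ) : β = β' := by
  have h3 : h ∣ β - β' := by
    refine hu _ fun k => ?_
    have := dvd_sub (h2 k) (h1 k)
    convert this using 1
    ring
  exact sub_eq_zero.1 (zero_of_dvd hh (hβ.sub hβ') hn h3)

/-- glueing: the conditions at the singular points are independent -/
theorem glue {e δ : ℕ} (hδ : e = 0 ∨ e + 5 ≤ δ) (h0 : h ≠ 0) (hh : h.IsHomogeneous δ)
    (hθτ : ∀ k, (θ k).IsHomogeneous (2 + δ) ∧ (τ k).IsHomogeneous (δ - 1)) (hδ1 : 1 ≤ δ)
    (hu : ∀ u, (∀ k, h ∣ u * τ k) → h ∣ u)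
    (hsat : ∀ g β, Mem h τ θ (X 2 * g) β → ∃ β', Mem h τ θ g β')
    (hhom : ∀ g m β, g.IsHomogeneous m → Mem h τ θ g β →
      ∃ β', β'.IsHomogeneous (m + 3) ∧ Mem h τ θ g β')
    (j : ℕ → S) (hj : ∀ i, i ≤ e → (j i).IsHomogeneous e)
    (hjz : ∀ i, i ≤ e → X 2 ∣ j i - X 0 ^ (e - i) * X 1 ^ i)
    (hjm : ∀ i, i ≤ e → ∃ β, Mem h τ θ (j i) β) : ∃ γ, Mem h τ θ 1 γ := by
  have hrz : ∀ i, i ≤ e → rz (j i) = X 0 ^ (e - i) * X 1 ^ i := by
    intro i hi
    have h1 := (rz_iff _).1 (hjz i hi)
    rw [map_sub, map_mul, map_pow, map_pow, rz0, rz1] at h1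
    exact sub_eq_zero.1 h1
  rcases Nat.eq_zero_or_pos e with he0 | he
  · -- `j 0 = 1`
    subst he0
    obtain ⟨γ, hγ⟩ := hjm 0 le_rfl
    have h1 : j 0 - 1 = 0 := by
      have h2 := hjz 0 le_rfl
      simp only [Nat.sub_self, pow_zero, mul_one] at h2
      have h3 : ((j 0) - 1 : S).IsHomogeneous 0 := (hj 0 le_rfl).sub (isHomogeneous_one _ _)
      exact zero_of_dvd (isHomogeneous_X ℂ (2 : Fin 3)) h3 (by omega) h2
    rw [sub_eq_zero.1 h1] at hγ
    exact ⟨γ, hγ⟩
  have he5 : e + 5 ≤ δ := by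
    rcases hδ with h1 | h1
    · omega
    · exact h1
  choose! β0 hβ0 using hjm
  choose! β hβh hβ using fun i (hi : i ≤ e) => hhom (j i) e (β0 i) (hj i hi) (hβ0 i hi)
  -- the relations
  have rel : ∀ i, i < e → ∃ c βc : S, c.IsHomogeneous e ∧ βc.IsHomogeneous (e + 3) ∧
      Mem h τ θ c βc ∧ X 1 * j i - X 0 * j (i + 1) = X 2 * c ∧
      X 1 * β i - X 0 * β (i + 1) = X 2 * βc := by
    intro i hi
    obtain ⟨c, hc⟩ : X 2 ∣ X 1 * j i - X 0 * j (i + 1) := by
      rw [rz_iff, map_sub, map_mul, map_mul, rz0, rz1, hrz i (by omega), hrz (i + 1) (by omega)]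
      have : e - i = e - (i + 1) + 1 := by omega
      rw [this]
      ring
    have hX : ∀ k : Fin 3, (X k : S).IsHomogeneous 1 := fun k => isHomogeneous_X _ _
    have h1 : c.IsHomogeneous e := by
      apply hom_of_zmul
      rw [← hc]
      have h2 := ((hX 1).mul (hj i (by omega))).sub ((hX 0).mul (hj (i + 1) (by omega)))
      have h3 : 1 + e = e + 1 := by ring
      rwa [h3] at h2
    have h2 : Mem h τ θ (X 2 * c) (X 1 * β i - X 0 * β (i + 1)) := by
      rw [← hc]
      exact ((hβ i (by omega)).mul (X 1)).sub ((hβ (i + 1) (by omega)).mul (X 0))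
    obtain ⟨β', h3⟩ := hsat c _ h2
    obtain ⟨βc, h4, h5⟩ := hhom c e _ h1 h3
    refine ⟨c, βc, h1, h4, h5, hc, ?_⟩
    refine h2.unique hh hu (h5.mul (X 2)) (n := 1 + (e + 3)) ?_ ?_ (by omega)
    · exact ((hX 1).mul (hβh i (by omega))).sub ((hX 0).mul (hβh (i + 1) (by omega)))
    · exact (hX 2).mul h4
  -- the approximation
  have key : ∀ k : ℕ, ∃ Γ : S, ∀ g b : S, g.IsHomogeneous e → b.IsHomogeneous (e + 3) →
      Mem h τ θ g b → X 2 ^ k ∣ b - g * Γ := by
    intro k
    induction k with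
    | zero =>
      refine ⟨0, fun g b _ _ _ => ?_⟩
      rw [pow_zero]
      exact one_dvd _
    | succ k ih =>
      obtain ⟨Γ, hΓ⟩ := ih
      have hz : (X 2 : S) ^ k ≠ 0 := pow_ne_zero _ (X_ne_zero _)
      choose! B hB using fun i (hi : i ≤ e) => hΓ (j i) (β i) (hj i hi) (hβh i hi) (hβ i hi)
      have r1 : ∀ i, i < e → X 1 * rz (B i) = X 0 * rz (B (i + 1)) := by
        intro i hi
        obtain ⟨c, βc, h1, h2, h3, h4, h5⟩ := rel i hi
        obtain ⟨C', hC'⟩ := hΓ c βc h1 h2 h3
        have h6 : X 1 * B i - X 0 * B (i + 1) = X 2 * C' := by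
          apply mul_left_cancel₀ hz
          linear_combination (-X 1) * hB i (by omega) + X 0 * hB (i + 1) (by omega) + X 2 * hC' +
            h5 - Γ * h4
        have h7 := congrArg rz h6
        rw [map_sub, map_mul, map_mul, map_mul, rz0, rz1, rz2, zero_mul] at h7
        exact sub_eq_zero.1 h7
      have r2 : ∀ i, i ≤ e → X 1 ^ i * rz (B 0) = X 0 ^ i * rz (B i) := by
        intro i
        induction i with
        | zero => intro _; rfl
        | succ i ih2 =>
          intro hi
          have h1 := ih2 (by omega)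
          have h2 := r1 i (by omega)
          rw [pow_succ, pow_succ]
          linear_combination X 1 * h1 + X 0 ^ i * h2
      obtain ⟨q0, hq0, -⟩ := xy_div (r2 e le_rfl)
      have hq2 : rz q0 = q0 := by
        have h4 := congrArg rz hq0
        rw [rz_rz, map_mul, map_pow, rz0] at h4
        apply mul_left_cancel₀ (pow_ne_zero e (X_ne_zero (R := ℂ) (0 : Fin 3)))
        rw [← h4, hq0]
      have r3 : ∀ i, i ≤ e → rz (B i) = X 0 ^ (e - i) * X 1 ^ i * q0 := by
        intro i hi
        have h1 := r2 i hi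
        rw [hq0] at h1
        apply mul_left_cancel₀ (pow_ne_zero i (X_ne_zero (R := ℂ) (0 : Fin 3)))
        rw [← h1]
        have : e = i + (e - i) := by omega
        calc X 1 ^ i * (X 0 ^ e * q0) = X 1 ^ i * (X 0 ^ (i + (e - i)) * q0) := by rw [← this]
          _ = _ := by
            rw [pow_add]
            ring
      refine ⟨Γ + X 2 ^ k * q0, fun g b hg hb hm => ?_⟩
      -- decomposition of `g`
      obtain ⟨a, ha⟩ := bin_decomp hg
      have hsum : X 2 ∣ g - ∑ l ∈ range (e + 1), C (a l) * j l := by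
        have h1 : X 2 ∣ ∑ l ∈ range (e + 1), C (a l) * (X 0 ^ (e - l) * X 1 ^ l) -
            ∑ l ∈ range (e + 1), C (a l) * j l := by
          rw [← Finset.sum_sub_distrib]
          refine Finset.dvd_sum fun l hl => ?_
          rw [mem_range] at hl
          have h2 := (hjz l (by omega)).mul_left (-C (a l))
          convert h2 using 1
          ring
        have h2 := dvd_add ha h1
        convert h2 using 1
        ring
      obtain ⟨g', hg'⟩ := hsum
      have hC : ∀ c : ℂ, (C c : S).IsHomogeneous 0 := fun c => isHomogeneous_C _ _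
      have hsj : (∑ l ∈ range (e + 1), C (a l) * j l).IsHomogeneous e := by
        refine IsHomogeneous.sum _ _ _ fun l hl => ?_
        rw [mem_range] at hl
        have := (hC (a l)).mul (hj l (by omega))
        rwa [zero_add] at this
      have hsb : (∑ l ∈ range (e + 1), C (a l) * β l).IsHomogeneous (e + 3) := by
        refine IsHomogeneous.sum _ _ _ fun l hl => ?_
        rw [mem_range] at hl
        have := (hC (a l)).mul (hβh l (by omega))
        rwa [zero_add] at this
      have hsm : Mem h τ θ (∑ l ∈ range (e + 1), C (a l) * j l)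
          (∑ l ∈ range (e + 1), C (a l) * β l) := by
        refine Mem.sum _ fun l hl => ?_
        rw [mem_range] at hl
        exact (hβ l (by omega)).mul _
      obtain ⟨e', he'⟩ : ∃ e', e = e' + 1 := ⟨e - 1, by omega⟩
      have hg'h : g'.IsHomogeneous e' := by
        apply hom_of_zmul
        rw [← hg', ← he']
        exact hg.sub hsj
      have hg'm : Mem h τ θ (X 2 * g') (b - ∑ l ∈ range (e + 1), C (a l) * β l) := by
        rw [← hg']
        exact hm.sub hsm
      obtain ⟨β1, h1⟩ := hsat g' _ hg'm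
      obtain ⟨b', hb', hb'm⟩ := hhom g' e' _ hg'h h1
      have hbb : b - ∑ l ∈ range (e + 1), C (a l) * β l = X 2 * b' := by
        refine hg'm.unique hh hu (hb'm.mul (X 2)) (n := e + 3) (hb.sub hsb) ?_ (by omega)
        have := (isHomogeneous_X ℂ (2 : Fin 3)).mul hb'
        have h3 : 1 + (e' + 3) = e + 3 := by omega
        rwa [h3] at this
      -- the part `g'`
      have hpart : X 2 ^ k ∣ b' - g' * Γ := by
        have h2 := hΓ (X 0 * g') (X 0 * b') (by
          have := (isHomogeneous_X ℂ (0 : Fin 3)).mul hg'h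
          have h3 : 1 + e' = e := by omega
          rwa [h3] at this) (by
          have := (isHomogeneous_X ℂ (0 : Fin 3)).mul hb'
          have h3 : 1 + (e' + 3) = e + 3 := by omega
          rwa [h3] at this) (hb'm.mul (X 0))
        have h3 : X 0 * b' - X 0 * g' * Γ = X 0 * (b' - g' * Γ) := by ring
        rw [h3] at h2
        exact (X_prime (R := ℂ) (i := (2 : Fin 3))).pow_dvd_of_dvd_mul_left k X2_ndvd_X0 h2
      -- the parts `j l`
      have hjpart : ∀ l, l ≤ e → X 2 ^ (k + 1) ∣ β l - j l * (Γ + X 2 ^ k * q0) := by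
        intro l hl
        obtain ⟨x, hx⟩ : X 2 ∣ B l - j l * q0 := by
          rw [rz_iff, map_sub, map_mul, r3 l hl, hrz l hl, hq2]
          ring
        refine ⟨x, ?_⟩
        rw [pow_succ]
        linear_combination hB l hl + X 2 ^ k * hx
      have e1 : b - g * (Γ + X 2 ^ k * q0) =
          ∑ l ∈ range (e + 1), C (a l) * (β l - j l * (Γ + X 2 ^ k * q0)) +
            (X 2 * (b' - g' * Γ) - X 2 ^ (k + 1) * (g' * q0)) := by
        have e2 : ∑ l ∈ range (e + 1), C (a l) * (β l - j l * (Γ + X 2 ^ k * q0)) =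
            ∑ l ∈ range (e + 1), C (a l) * β l -
              (∑ l ∈ range (e + 1), C (a l) * j l) * (Γ + X 2 ^ k * q0) := by
          rw [Finset.sum_mul, ← Finset.sum_sub_distrib]
          refine Finset.sum_congr rfl fun l _ => ?_
          ring
        rw [e2, pow_succ]
        linear_combination hbb - (Γ + X 2 ^ k * q0) * hg'
      rw [e1]
      refine dvd_add (Finset.dvd_sum fun l hl => ?_) (dvd_sub ?_ (Dvd.intro _ rfl))
      · rw [mem_range] at hl
        exact (hjpart l (by omega)).mul_left _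
      · rw [pow_succ, mul_comm]
        exact mul_dvd_mul_left _ hpart
  obtain ⟨Γ0, hΓ0⟩ := key (e + 4)
  set Γ := homogeneousComponent 3 Γ0 with hΓ
  have hΓh : Γ.IsHomogeneous 3 := homogeneousComponent_isHomogeneous _ _
  have hall : ∀ i, i ≤ e → β i = j i * Γ := by
    intro i hi
    have h1 := hc_zdvd (hΓ0 (j i) (β i) (hj i hi) (hβh i hi) (hβ i hi)) (e + 3)
    rw [map_sub, homogeneousComponent_of_mem (hβh i hi), if_pos rfl, hc_mul (hj i hi)] at h1
    exact sub_eq_zero.1 (zero_of_dvd (zpow_hom (e + 4))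
      ((hβh i hi).sub ((hj i hi).mul hΓh)) (by omega) h1)
  refine ⟨Γ, fun k => ?_⟩
  rw [one_mul]
  set g := θ k - Γ * τ k with hg
  have hgh : g.IsHomogeneous (2 + δ) := by
    refine (hθτ k).1.sub ?_
    have := hΓh.mul (hθτ k).2
    have h3 : 3 + (δ - 1) = 2 + δ := by omega
    rwa [h3] at this
  obtain ⟨c, hc⟩ : h ∣ j 0 * g := by
    have := hβ 0 (Nat.zero_le _) k
    rw [hall 0 (Nat.zero_le _)] at this
    convert this using 1
    rw [hg]
    ring
  obtain ⟨c', hc'⟩ : h ∣ j e * g := by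
    have := hβ e le_rfl k
    rw [hall e le_rfl] at this
    convert this using 1
    rw [hg]
    ring
  have hch : c.IsHomogeneous (e + 2) := by
    have h1 := (hj 0 (Nat.zero_le _)).mul hgh
    rw [hc] at h1
    have h2 := homogeneousComponent_of_mem (m := e + (2 + δ)) (n := e + (2 + δ)) h1
    have h3 : e + (2 + δ) = δ + (e + 2) := by ring
    rw [if_pos rfl, h3, hc_mul hh] at h2
    rw [← mul_left_cancel₀ h0 h2]
    exact homogeneousComponent_isHomogeneous _ _
  have h1 : j e * c = j 0 * c' := by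
    apply mul_left_cancel₀ h0
    linear_combination j 0 * hc' - j e * hc
  have hr0 : rz (j 0) = X 0 ^ e := by
    rw [hrz 0 (Nat.zero_le _), Nat.sub_zero, pow_zero, mul_one]
  have hre : rz (j e) = X 1 ^ e := by
    rw [hrz e le_rfl, Nat.sub_self, pow_zero, one_mul]
  obtain ⟨x, hx⟩ := cop_z (hj 0 (Nat.zero_le _)) hr0 hre hch h1
  have hj0 : j 0 ≠ 0 := by
    intro h2
    rw [h2, map_zero] at hr0
    exact pow_ne_zero e (X_ne_zero (R := ℂ) (0 : Fin 3)) hr0.symm
  refine ⟨x, ?_⟩
  apply mul_left_cancel₀ hj0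
  rw [hc, hx]
  ring

end

/-- the descent -/
theorem Sol.descend {F : Fin r → S} {a n : Fin r → ℕ} {d : ℕ} (hd0 : d ≠ 0)
    (hd : d = ∑ i, n i * a i)
    (hF : ∀ i, (F i).IsHomogeneous (a i)) (h0 : ∏ i, F i ≠ 0) {N : ℕ} {θ : Fin 3 → S}
    (hθ : Sol F a n d (N + 1) θ) {β : S} {c : Fin 3 → S}
    (hβ : β.IsHomogeneous (N * ∑ i, a i + 2 + 1))
    (hc : ∀ k, (c k).IsHomogeneous (N * ∑ i, a i + 2))
    (he : θ = β • tau F (ee n d) N + (∏ i, F i) • c) :
    ∃ θ', Sol F a n d N θ' := by
  set h := ∏ i, F i with hh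
  set τ := tau F (ee n d) N with hτ
  have hek : ∀ k, θ k = β * τ k + h * c k := fun k => by
    have := congrFun he k
    simpa only [Pi.smul_apply, Pi.add_apply, smul_eq_mul] using this
  have hβe : ∑ k, X k * MvPolynomial.pderiv k β = C ((N * ∑ i, a i + 3 : ℕ) : ℂ) * β := by
    have h1 := hβ.sum_X_mul_pderiv
    have h2 : ∀ n : ℕ, ((n : ℕ) : S) = C (n : ℂ) := fun n => by simp
    rw [nsmul_eq_mul, h2] at h1
    exact h1
  have hτe := tau_euler F a hF (ee n d) (N : ℂ)
  have hsum : ∑ i, (ee n d i + (N : ℂ)) * a i = ((N * ∑ i, a i + 3 : ℕ) : ℂ) := by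
    rw [ee_sum, ← hd]
    have : (d : ℂ) ≠ 0 := by exact_mod_cast hd0
    field_simp
    push_cast
    ring
  rw [hsum, ← hh, ← hτ] at hτe
  -- the pairwise equations
  have pair : ∀ (k l : Fin 3) (Y : S),
      h * (MvPolynomial.pderiv k (θ l) - MvPolynomial.pderiv l (θ k)) =
        tau F (ee n d) ((N + 1 : ℕ) : ℂ) k * θ l - tau F (ee n d) ((N + 1 : ℕ) : ℂ) l * θ k +
          h ^ (N + 1 + 1) * Y →
      h * (MvPolynomial.pderiv k (c l + MvPolynomial.pderiv l β) -
        MvPolynomial.pderiv l (c k + MvPolynomial.pderiv k β)) =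
        τ k * (c l + MvPolynomial.pderiv l β) - τ l * (c k + MvPolynomial.pderiv k β) +
          h ^ (N + 1) * Y := by
    intro k l Y hE
    have hcast : ((N + 1 : ℕ) : ℂ) = (N : ℂ) + 1 := by push_cast; ring
    rw [hcast, tau_succ, tau_succ, ← hτ, ← hh, hek, hek] at hE
    have hrot := tau_rot F (ee n d) (N : ℂ) k l
    rw [← hh, ← hτ] at hrot
    simp only [map_add, Derivation.leibniz, smul_eq_mul] at hE ⊢
    rw [pderiv_swap k l β]
    apply mul_left_cancel₀ h0
    linear_combination hE - β * hrot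
  refine ⟨fun k => c k + MvPolynomial.pderiv k β, ?_, ?_, ?_⟩
  · intro k
    exact (hc k).add hβ.pderiv
  · have h1 := hθ.eul
    simp only [hek] at h1
    have h2 : h * (∑ k, X k * (c k + MvPolynomial.pderiv k β)) = 0 := by
      simp only [Fin.sum_univ_three] at h1 hβe hτe ⊢
      linear_combination h1 + h * hβe - β * hτe
    exact (mul_eq_zero.1 h2).resolve_left h0
  · have hE := hθ.eq
    rw [← hh] at hE
    funext k
    have hEk := congrFun hE k
    fin_cases k
    · exact pair 1 2 (X 0) hEk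
    · exact pair 2 0 (X 1) hEk
    · exact pair 0 1 (X 2) hEk

end Pool.Agent.KS6_81.SQ
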