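import Pool.Agent.KS6_81.SQ.Chart

set_option autoImplicit false

/-! # The local statement at a semi-quasi-homogeneous singular point -/

namespace Pool.Agent.KS6_81.SQ

open MvPolynomial Finset

/-- the cross product -/
noncomputable def cr (a b : Fin 3 → S) : Fin 3 → S :=
  ![a 1 * b 2 - a 2 * b 1, a 2 * b 0 - a 0 * b 2, a 0 * b 1 - a 1 * b 0]

/-- the curl -/
noncomputable def curl (a : Fin 3 → S) : Fin 3 → S :=
  ![MvPolynomial.pderiv 1 (a 2) - MvPolynomial.pderiv 2 (a 1),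
    MvPolynomial.pderiv 2 (a 0) - MvPolynomial.pderiv 0 (a 2),
    MvPolynomial.pderiv 0 (a 1) - MvPolynomial.pderiv 1 (a 0)]

/-- the Euler field -/
noncomputable def XX : Fin 3 → S := fun k => X k

variable {r : ℕ}

/-- the weights `e_i = 3 n_i / d` -/
noncomputable def ee (n : Fin r → ℕ) (d : ℕ) : Fin r → ℂ := fun i => 3 * n i / d

/-- the basic system of equations -/
structure Sol (F : Fin r → S) (a n : Fin r → ℕ) (d N : ℕ) (θ : Fin 3 → S) : Prop where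
  hom : ∀ k, (θ k).IsHomogeneous (N * ∑ i, a i + 2)
  eul : ∑ k, X k * θ k = 0
  eq : (∏ i, F i) • curl θ = cr (tau F (ee n d) N) θ + (∏ i, F i) ^ (N + 1) • XX

/-- The data of a semi-quasi-homogeneous singularity at `(p_0 : p_1 : 1)`. In the coordinates `Φ` the
factors `F_i` have the weighted homogeneous initial forms `H_i` of the degrees `D_i`, their product has
an isolated singularity, and all other terms have degrees `≥ D_i + κ`. The number `E` bounds the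
conditions at this point. -/
structure Sqh (F : Fin r → S) (n : Fin r → ℕ) (d E : ℕ) (p : Fin 2 → ℂ) (w : Fin 2 → ℕ)
    (D : Fin r → ℕ) (H : Fin r → P) (Φ : P →ₐ[ℂ] P) (κ : ℕ) : Prop where
  fam : Fam w D H
  pt : ∀ l, eval 0 (Φ (X l)) = p l
  etale : eval 0 (jac Φ) ≠ 0
  kpos : 1 ≤ κ
  lead : ∀ i, O w (D i + κ) (Φ (ev (F i)) - H i)
  num : ∑ i, D i + 1 ≤ E + 2 * (w 0 + w 1) + κ
  res : ∀ M : ℕ, M * d = 3 * ∑ i, n i * D i → ∑ i, D i + 1 ≤ E + (w 0 + w 1) + M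

lemma ee_sum (n : Fin r → ℕ) (d : ℕ) (D : Fin r → ℕ) (t : ℂ) :
    ∑ i, (ee n d i + t) * D i = 3 * (∑ i, n i * D i : ℕ) / d + t * (∑ i, D i : ℕ) := by
  unfold ee
  push_cast
  rw [Finset.mul_sum, Finset.sum_div, Finset.mul_sum, ← Finset.sum_add_distrib]
  refine Finset.sum_congr rfl fun i _ => ?_
  ring

lemma ee_ne {n : Fin r → ℕ} (hn : ∀ i, 0 < n i) {d : ℕ} (hd : 0 < d) (i : Fin r) (t : ℕ) :
    ee n d i + t ≠ 0 := by
  unfold ee
  have h1 : (d : ℂ) ≠ 0 := by exact_mod_cast hd.ne'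
  intro h
  have h2 : (3 * (n i : ℂ) + t * d) = 0 := by
    field_simp at h
    linear_combination h
  have h3 : 3 * n i + t * d = 0 := by exact_mod_cast h2
  have := hn i
  omega

lemma ee_sum_ne {n : Fin r → ℕ} (hn : ∀ i, 0 < n i) {d : ℕ} (hd : 0 < d) {D : Fin r → ℕ}
    (hD : 0 < ∑ i, D i) (t : ℕ) : ∑ i, (ee n d i + t) * D i ≠ 0 := by
  rw [ee_sum]
  have h1 : (d : ℂ) ≠ 0 := by exact_mod_cast hd.ne'
  intro h
  have h2 : (3 * ((∑ i, n i * D i : ℕ) : ℂ) + t * d * ((∑ i, D i : ℕ) : ℂ)) = 0 := by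
    field_simp at h
    linear_combination h
  have h3 : 3 * (∑ i, n i * D i) + t * d * (∑ i, D i) = 0 := by exact_mod_cast h2
  have h4 : ∑ i, D i ≤ ∑ i, n i * D i :=
    Finset.sum_le_sum fun i _ => Nat.le_mul_of_pos_left _ (hn i)
  omega

/-- the local statement -/
theorem Sqh.loc {F : Fin r → S} {a n : Fin r → ℕ} {d E0 : ℕ} {p : Fin 2 → ℂ} {w : Fin 2 → ℕ}
    {D : Fin r → ℕ} {H : Fin r → P} {Φ : P →ₐ[ℂ] P} {κ : ℕ} (h : Sqh F n d E0 p w D H Φ κ)
    (hF : ∀ i, (F i).IsHomogeneous (a i)) (ha : ∀ i, 0 < a i) (hn : ∀ i, 0 < n i) (hd : 0 < d)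
    {N : ℕ} {θ : Fin 3 → S} (hθ : Sol F a n d (N + 1) θ)
    (hdiv : ∏ i, F i ∣ cr (tau F (ee n d) N) θ 2)
    {φ : S} {dφ : ℕ} (hφ : φ.IsHomogeneous dφ) {E : ℕ} (hE : O w E (Φ (ev φ)))
    (hNE : E0 ≤ E ∨ 1 ≤ N) :
    ∃ (m : ℕ) (U : S), U.IsHomogeneous m ∧ eval ![p 0, p 1, 1] U ≠ 0 ∧
      ∃ (b : S) (c : Fin 3 → S), (U * φ) • θ = b • tau F (ee n d) N + (∏ i, F i) • c := by
  have hD : 0 < ∑ i, D i := lt_of_lt_of_le (h.fam.hw 0) (h.fam.hwD 0)
  refine homogenize hF ha hφ hθ.hom hθ.eul (aff_main (w := w) h.pt h.etale h.fam.hw fun K => ?_)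
  have hdA : (d : ℂ) ≠ 0 := by exact_mod_cast hd.ne'
  have hf0 : Φ (ev (∏ i, F i)) = ∏ i, Φ (ev (F i)) := by rw [map_prod, map_prod]
  have hτ : ∀ t : ℂ, pl Φ (ev2 (tau F (ee n d) t)) = tau (fun i => Φ (ev (F i))) (ee n d) t := by
    intro t
    rw [ev_tau, pl_tau]
  -- the equation
  have heq : (∏ i, Φ (ev (F i))) * rt (pl Φ (ev2 θ)) =
      wd (tau (fun i => Φ (ev (F i))) (ee n d) (N + 1)) (pl Φ (ev2 θ)) +
        (∏ i, Φ (ev (F i))) ^ (N + 1 + 1) * jac Φ := by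
    have h1 := congrArg (fun z => Φ (ev (z 2))) hθ.eq
    have h2 : (curl θ) 2 = MvPolynomial.pderiv 0 (θ 1) - MvPolynomial.pderiv 1 (θ 0) := rfl
    have h3 : (cr (tau F (ee n d) ((N + 1 : ℕ) : ℂ)) θ) 2 =
      tau F (ee n d) ((N + 1 : ℕ) : ℂ) 0 * θ 1 - tau F (ee n d) ((N + 1 : ℕ) : ℂ) 1 * θ 0 := rfl
    have h4 : ev (XX 2) = 1 := by simp [XX, ev]
    simp only [Pi.smul_apply, Pi.add_apply, smul_eq_mul, map_mul, map_add, map_pow, h2, h3, h4,
      map_one, mul_one] at h1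
    rw [hf0] at h1
    have h5 : Φ (rt (ev2 θ)) = Φ (ev (MvPolynomial.pderiv 0 (θ 1) - MvPolynomial.pderiv 1 (θ 0))) := by
      unfold rt ev2
      rw [map_sub ev, ← ev_pderiv0, ← ev_pderiv1]
      rfl
    rw [← hτ, rt_pl, wd_pl, h5]
    have h6 : Φ (wd (ev2 (tau F (ee n d) ((N : ℂ) + 1))) (ev2 θ)) =
        Φ (ev (tau F (ee n d) ((N + 1 : ℕ) : ℂ) 0 * θ 1 -
          tau F (ee n d) ((N + 1 : ℕ) : ℂ) 1 * θ 0)) := by
      push_cast
      unfold wd ev2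
      simp only [Matrix.cons_val_zero, Matrix.cons_val_one, map_sub, map_mul]
    rw [h6]
    linear_combination (jac Φ) * h1
  have hdiv' : ∏ i, Φ (ev (F i)) ∣ wd (tau (fun i => Φ (ev (F i))) (ee n d) N)
      (pl Φ (ev2 θ)) := by
    obtain ⟨g, hg⟩ := hdiv
    rw [← hτ, wd_pl]
    refine Dvd.dvd.mul_left ?_ _
    have h3 : (cr (tau F (ee n d) (N : ℂ)) θ) 2 =
      tau F (ee n d) (N : ℂ) 0 * θ 1 - tau F (ee n d) (N : ℂ) 1 * θ 0 := rfl
    have h6 : wd (ev2 (tau F (ee n d) (N : ℂ))) (ev2 θ) =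
        ev (tau F (ee n d) (N : ℂ) 0 * θ 1 - tau F (ee n d) (N : ℂ) 1 * θ 0) := by
      unfold wd ev2
      simp only [Matrix.cons_val_zero, Matrix.cons_val_one, map_sub, map_mul]
    rw [h6, ← h3, hg, map_mul, map_mul, hf0]
    exact Dvd.intro _ rfl
  rw [hτ, hf0]
  -- the numerical part
  have hkp := h.kpos
  obtain ⟨J1, hJ1, hJ2, hJ3⟩ : ∃ J1 : ℤ, J1 ≤ ((N + 1 : ℕ) : ℤ) * (∑ i, D i : ℕ) + w 0 + w 1 + κ ∧
      (∀ j : ℤ, j < J1 → (j : ℂ) ≠ ∑ i, (ee n d i + ((N : ℂ) + 1)) * D i) ∧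
      2 * ((∑ i, D i : ℕ) : ℤ) < J1 + E + w 0 + w 1 := by
    have hN2 : ∀ x : ℕ, 1 ≤ N → 2 * ((∑ i, D i : ℕ) : ℤ) ≤ ((N + 1 : ℕ) : ℤ) * (∑ i, D i : ℕ) := by
      intro x hx
      have : 2 * (∑ i, D i) ≤ (N + 1) * (∑ i, D i) := Nat.mul_le_mul_right _ (by omega)
      exact_mod_cast this
    have hN1 : ((∑ i, D i : ℕ) : ℤ) ≤ ((N + 1 : ℕ) : ℤ) * (∑ i, D i : ℕ) := by
      have : 1 * (∑ i, D i) ≤ (N + 1) * (∑ i, D i) := Nat.mul_le_mul_right _ (by omega)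
      rw [one_mul] at this
      exact_mod_cast this
    have hsum : ∑ i, (ee n d i + ((N : ℂ) + 1)) * D i =
        3 * (∑ i, n i * D i : ℕ) / d + ((N : ℂ) + 1) * (∑ i, D i : ℕ) := ee_sum n d D _
    have hpos : 0 < ∑ i, n i * D i := by
      have h4 : ∑ i, D i ≤ ∑ i, n i * D i :=
        Finset.sum_le_sum fun i _ => Nat.le_mul_of_pos_left _ (hn i)
      omega
    have hw0 := h.fam.hw 0
    have hw1 := h.fam.hw 1
    have h4 := h.num
    by_cases hres : ∃ M : ℕ, M * d = 3 * ∑ i, n i * D i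
    · obtain ⟨M, hM3⟩ := hres
      refine ⟨((N + 1 : ℕ) : ℤ) * (∑ i, D i : ℕ) + (min M (w 0 + w 1 + κ) : ℕ), ?_, ?_, ?_⟩
      · have : min M (w 0 + w 1 + κ) ≤ w 0 + w 1 + κ := min_le_right _ _
        omega
      · intro j hj hjeq
        rw [hsum] at hjeq
        have h5 : (3 * ((∑ i, n i * D i : ℕ) : ℂ) / d) = M := by
          rw [div_eq_iff hdA]
          exact_mod_cast hM3.symm
        rw [h5] at hjeq
        have h6 : (j : ℂ) = ((((N + 1 : ℕ) : ℤ) * (∑ i, D i : ℕ) + M : ℤ) : ℂ) := by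
          rw [hjeq]
          push_cast
          ring
        have h7 : j = ((N + 1 : ℕ) : ℤ) * (∑ i, D i : ℕ) + M := by exact_mod_cast h6
        have : min M (w 0 + w 1 + κ) ≤ M := min_le_left _ _
        omega
      · have h8 := h.res M hM3
        have h9 : ∑ i, D i + 1 ≤ E0 + (w 0 + w 1) + min M (w 0 + w 1 + κ) := by
          rcases min_cases M (w 0 + w 1 + κ) with ⟨h10, -⟩ | ⟨h10, -⟩ <;> rw [h10] <;> omega
        have hMpos : 1 ≤ min M (w 0 + w 1 + κ) := by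
          rw [le_min_iff]
          refine ⟨?_, by omega⟩
          by_contra h10
          have : M = 0 := by omega
          rw [this] at hM3
          omega
        rcases hNE with h5 | h5
        · have h7 : ((∑ i, D i : ℕ) : ℤ) + 1 ≤ E0 + (w 0 + w 1) + (min M (w 0 + w 1 + κ) : ℕ) := by
            exact_mod_cast h9
          omega
        · have := hN2 0 h5
          omega
    · refine ⟨((N + 1 : ℕ) : ℤ) * (∑ i, D i : ℕ) + w 0 + w 1 + κ, le_rfl, ?_, ?_⟩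
      · intro j hj hjeq
        rw [hsum] at hjeq
        apply hres
        have h5 : ((j - ((N + 1 : ℕ) : ℤ) * (∑ i, D i : ℕ) : ℤ) : ℂ) * d =
            3 * ((∑ i, n i * D i : ℕ) : ℂ) := by
          push_cast at hjeq ⊢
          rw [hjeq]
          field_simp
          ring
        have h6 : (j - ((N + 1 : ℕ) : ℤ) * (∑ i, D i : ℕ)) * (d : ℤ) =
            3 * ((∑ i, n i * D i : ℕ) : ℤ) := by exact_mod_cast h5
        set x := j - ((N + 1 : ℕ) : ℤ) * (∑ i, D i : ℕ) with hx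
        have h7 : 0 < x := by
          by_contra h8
          have h9 : x * (d : ℤ) ≤ 0 := mul_nonpos_of_nonpos_of_nonneg (by omega) (by positivity)
          have h10 : (0 : ℤ) < 3 * ((∑ i, n i * D i : ℕ) : ℤ) := by exact_mod_cast (by omega)
          omega
        obtain ⟨M, hM⟩ := Int.eq_ofNat_of_zero_le h7.le
        refine ⟨M, ?_⟩
        rw [hM] at h6
        exact_mod_cast h6
      · rcases hNE with h5 | h5
        · have h7 : ((∑ i, D i : ℕ) : ℤ) + 1 ≤ E0 + 2 * (w 0 + w 1) + κ := by exact_mod_cast h4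
          omega
        · have := hN2 0 h5
          omega
  refine h.fam.local_all (κ := κ) (by exact_mod_cast hkp) h.lead (N := N + 1) (by omega)
    (t := (N : ℂ)) ?_ ?_ ?_ ?_ heq hdiv'
    (by push_cast at hJ1 ⊢; exact hJ1) hJ2 hE hJ3 K
  · exact fun i => ee_ne hn hd i N
  · exact ee_sum_ne hn hd hD N
  · intro i
    have := ee_ne hn hd i (N + 1)
    push_cast at this
    exact this
  · have := ee_sum_ne hn hd hD (N + 1)
    push_cast at this ⊢
    exact this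

end Pool.Agent.KS6_81.SQ
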