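import Pool.Agent.KS6_81.SQ.Soc

set_option autoImplicit false

/-! # The local analysis at a singular point -/

namespace Pool.Agent.KS6_81.SQ

open MvPolynomial Finset

variable {w : Fin 2 → ℕ}

lemma O_of_mul {h H r : P} {D i : ℤ} (hH0 : H ≠ 0) (hh : O w D h) (hH : cmp w D h = H)
    (hr : O w (D + i) (h * r)) : O w i r := by
  have key : ∀ n : ℕ, (n : ℤ) ≤ i → O w n r := by
    intro n
    induction n with
    | zero => intro _; exact O_nonpos (by simp) r
    | succ n ih =>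
      intro hn
      have h1 := ih (by push_cast at hn; omega)
      have h2 : cmp w n r = 0 := by
        have h3 : cmp w (D + n) (h * r) = 0 :=
          cmp_eq_zero_of_O hr (by push_cast at hn; omega)
        rw [cmp_mul hh h1, hH] at h3
        exact (mul_eq_zero.1 h3).resolve_left hH0
      have h4 := O_succ h1 h2
      push_cast
      exact h4
  by_cases hi : 0 ≤ i
  · obtain ⟨n, rfl⟩ := Int.eq_ofNat_of_zero_le hi
    exact key n le_rfl
  · exact O_nonpos (by omega) r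

lemma ct_add (a b : Fin 2 → P) : ct w (a + b) = ct w a + ct w b := by
  unfold ct
  simp only [Pi.add_apply]
  ring

lemma ct_smul (f : P) (b : Fin 2 → P) : ct w (f • b) = f * ct w b := by
  unfold ct
  simp only [Pi.smul_apply, smul_eq_mul]
  ring

lemma gr_mul (a b : P) : gr (a * b) = a • gr b + b • gr a := by
  funext k
  unfold gr
  rw [Derivation.leibniz]
  rfl

lemma gr_C_mul (c : ℂ) (b : P) : gr (C c * b) = (C c : P) • gr b := by
  rw [gr_mul]
  have : gr (C c : P) = 0 := by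
    funext k
    exact pderiv_C
  rw [this, smul_zero, add_zero]

lemma gr_add (a b : P) : gr (a + b) = gr a + gr b := by
  funext k
  exact map_add _ _ _

lemma gr_zero : gr (0 : P) = 0 := by
  funext k
  exact map_zero _

/-- the data of a weighted homogeneous germ -/
structure Dat (w : Fin 2 → ℕ) (D : ℕ) (H : P) (T : Fin 2 → P) (μ : ℂ) : Prop where
  hw : ∀ k, 0 < w k
  hwD : ∀ k, w k ≤ D
  H0 : H ≠ 0
  hH : Hg w D H
  hT : HF w D T
  hct : ct w T = C μ * H
  hμ : μ ≠ 0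
  hz : ∀ x : Fin 2 → ℂ, x ≠ 0 → eval x (T 0) ≠ 0 ∨ eval x (T 1) ≠ 0

lemma ct_gr {D : ℤ} {H : P} (hH : Hg w D H) : ct w (gr H) = C (D : ℂ) * H := hH.euler

lemma Dat.dvd {D : ℕ} {H : P} {T : Fin 2 → P} {μ : ℂ} (d : Dat w D H T μ) {s : P}
    (h : ∀ k, H ∣ s * T k) : H ∣ s := by
  refine dvd_of_two (p := D - w 0) (q := D - w 1) d.hw ?_ ?_ d.hz (h 0) (h 1)
  · refine (d.hT 0).of_eq ?_
    have := d.hwD 0
    push_cast [Nat.cast_sub this]
    ring
  · refine (d.hT 1).of_eq ?_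
    have := d.hwD 1
    push_cast [Nat.cast_sub this]
    ring

/-- the second step: in high weights everything is in the submodule -/
lemma Dat.step2 {D : ℕ} {H : P} {T : Fin 2 → P} {μ : ℂ} (d : Dat w D H T μ) {h : P}
    {τ : Fin 2 → P} (hh : O w D h) (hh' : cmp w D h = H) (hτ : OF w D τ) (hτ' : cF w D τ = T)
    {σ : Fin 2 → P} (hσ : h ∣ wd τ σ) {j : ℤ} (hj : OF w j σ) (hj2 : 2 * (D : ℤ) < j + w 0 + w 1) :
    ∃ (b : P) (c : Fin 2 → P), OF w (j + 1) (σ - b • τ - h • c) := by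
  obtain ⟨r, hr⟩ := hσ
  have hw0 := wd_kp (w := w) T (cF w j σ)
  have h1 : cmp w (D + j - w 0 - w 1) (wd τ σ) = wd T (cF w j σ) := by
    rw [cmp_wd hτ hj, hτ']
  have h2 : O w (D + (j - w 0 - w 1)) (h * r) := by
    rw [← hr]
    exact (O_wd hτ hj).of_eq (by ring)
  have h3 : O w (j - w 0 - w 1) r := O_of_mul d.H0 hh hh' h2
  have h4 : wd T (cF w j σ) = H * cmp w (j - w 0 - w 1) r := by
    rw [← h1, hr]
    have : (D : ℤ) + j - w 0 - w 1 = D + (j - w 0 - w 1) := by ring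
    rw [this, cmp_mul hh h3, hh']
  set r0 := cmp w (j - w 0 - w 1) r with hr0
  set σj := cF w j σ with hσj
  rw [h4, d.hct] at hw0
  -- `μ H σ_j = ct(σ_j) T + H r0 κ`
  have h5 : H ∣ ct w σj := by
    refine d.dvd fun k => ?_
    have h6 := congrFun hw0 k
    simp only [Pi.smul_apply, Pi.sub_apply, smul_eq_mul] at h6
    exact ⟨C μ * σj k - r0 * kp w k, by linear_combination h6⟩
  obtain ⟨s0, hs0⟩ := h5
  have h6 : (C μ : P) • σj = s0 • T + r0 • kp w := by
    funext k
    have h6 := congrFun hw0 k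
    simp only [Pi.smul_apply, Pi.sub_apply, Pi.add_apply, smul_eq_mul] at h6 ⊢
    rw [hs0] at h6
    apply mul_left_cancel₀ d.H0
    linear_combination (-1 : P) * h6
  obtain ⟨a0, a1, ha⟩ : ∃ a0 a1 : P, r0 = a0 * T 0 + a1 * T 1 := by
    refine socle (p := D - w 0) (q := D - w 1) (n := j - w 0 - w 1) d.hw ?_ ?_ (Hg_cmp _ _) d.hz ?_
    · refine (d.hT 0).of_eq ?_
      have := d.hwD 0
      push_cast [Nat.cast_sub this]
      ring
    · refine (d.hT 1).of_eq ?_
      have := d.hwD 1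
      push_cast [Nat.cast_sub this]
      ring
    · have h8 := d.hwD 0
      have h9 := d.hwD 1
      push_cast [Nat.cast_sub h8, Nat.cast_sub h9]
      omega
  have hct := d.hct
  unfold ct at hct
  have h7 : (C μ : P) • σj = (s0 + a1 * (C (w 0 : ℂ) * X 0) - a0 * (C (w 1 : ℂ) * X 1)) • T +
      H • (![-(C μ * a1), C μ * a0] : Fin 2 → P) := by
    rw [h6, ha]
    funext k
    fin_cases k
    · show s0 * T 0 + (a0 * T 0 + a1 * T 1) * (-(C (w 1 : ℂ) * X 1)) =
        (s0 + a1 * (C (w 0 : ℂ) * X 0) - a0 * (C (w 1 : ℂ) * X 1)) * T 0 + H * (-(C μ * a1))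
      linear_combination (-a1) * hct
    · show s0 * T 1 + (a0 * T 0 + a1 * T 1) * (C (w 0 : ℂ) * X 0) =
        (s0 + a1 * (C (w 0 : ℂ) * X 0) - a0 * (C (w 1 : ℂ) * X 1)) * T 1 + H * (C μ * a0)
      linear_combination a0 * hct
  have h8 : σj = (C μ⁻¹ * (s0 + a1 * (C (w 0 : ℂ) * X 0) - a0 * (C (w 1 : ℂ) * X 1))) • T +
      H • ((C μ⁻¹ : P) • (![-(C μ * a1), C μ * a0] : Fin 2 → P)) := by
    have h9 : σj = (C μ⁻¹ : P) • ((C μ : P) • σj) := by
      rw [smul_smul, ← C_mul, inv_mul_cancel₀ d.hμ, C_1, one_smul]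
    rw [h9, h7, smul_add, smul_smul]
    congr 1
    rw [smul_smul, smul_smul, mul_comm]
  set b := cmp w (j - D) (C μ⁻¹ * (s0 + a1 * (C (w 0 : ℂ) * X 0) - a0 * (C (w 1 : ℂ) * X 1)))
    with hb
  set c := cF w (j - D) ((C μ⁻¹ : P) • (![-(C μ * a1), C μ * a0] : Fin 2 → P)) with hc
  have h9 : σj = b • T + H • c := by
    funext k
    have h10 := congrFun h8 k
    simp only [Pi.smul_apply, Pi.add_apply, smul_eq_mul] at h10 ⊢
    have h11 : cmp w (j - w k) (σj k) = σj k := cmp_self (HF_cF j σ k)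
    rw [← h11, h10, cmp_add]
    congr 1
    · have : j - w k = (D - w k) + (j - D) := by ring
      rw [mul_comm _ (T k), this, cmp_mul_Hg (d.hT k), ← hb, mul_comm]
    · have : j - w k = D + (j - D - w k) := by ring
      rw [this, cmp_mul_Hg d.hH]
      rfl
  refine ⟨b, c, OF_succ ?_ ?_⟩
  · have e1 : OF w j (b • τ) := by
      have := OF.smul (Hg_cmp (w := w) (j - D) (C μ⁻¹ * (s0 + a1 * (C (w 0 : ℂ) * X 0) -
        a0 * (C (w 1 : ℂ) * X 1)))).O hτ
      have e : j - D + D = j := by ring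
      rwa [e] at this
    have e2 : OF w j (h • c) := by
      have := OF.smul hh (HF_cF (w := w) (j - D) ((C μ⁻¹ : P) •
        (![-(C μ * a1), C μ * a0] : Fin 2 → P))).OF
      have e : (D : ℤ) + (j - D) = j := by ring
      rwa [e] at this
    exact (hj.sub e1).sub e2
  · have e1 : cF w j (b • τ) = b • T := by
      have := cF_smul (Hg_cmp (w := w) (j - D) (C μ⁻¹ * (s0 + a1 * (C (w 0 : ℂ) * X 0) -
        a0 * (C (w 1 : ℂ) * X 1)))).O hτ
      have e : j - D + D = j := by ring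
      rw [e] at this
      rw [this, hτ', cmp_self (Hg_cmp _ _)]
    have e2 : cF w j (h • c) = H • c := by
      have := cF_smul hh (HF_cF (w := w) (j - D) ((C μ⁻¹ : P) •
        (![-(C μ * a1), C μ * a0] : Fin 2 → P))).OF
      have e : (D : ℤ) + (j - D) = j := by ring
      rw [e] at this
      rw [this, hh', cF_self (HF_cF _ _)]
    rw [cF_sub, cF_sub, e1, e2, ← hσj, h9]
    abel

lemma wd_sub (a b c : Fin 2 → P) : wd a (b - c) = wd a b - wd a c := by
  unfold wd
  simp only [Pi.sub_apply]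
  ring

lemma wd_smul (a : Fin 2 → P) (f : P) (b : Fin 2 → P) : wd a (f • b) = f * wd a b := by
  unfold wd
  simp only [Pi.smul_apply, smul_eq_mul]
  ring

lemma wd_self (a : Fin 2 → P) : wd a a = 0 := by
  unfold wd
  ring

lemma Dat.all {D : ℕ} {H : P} {T : Fin 2 → P} {μ : ℂ} (d : Dat w D H T μ) {h : P}
    {τ : Fin 2 → P} (hh : O w D h) (hh' : cmp w D h = H) (hτ : OF w D τ) (hτ' : cF w D τ = T)
    {σ : Fin 2 → P} (hσ : h ∣ wd τ σ) {j : ℤ} (hj : OF w j σ) (hj2 : 2 * (D : ℤ) < j + w 0 + w 1)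
    (K : ℕ) : ∃ (b : P) (c : Fin 2 → P), OF w (j + K) (σ - b • τ - h • c) := by
  induction K with
  | zero =>
    refine ⟨0, 0, ?_⟩
    have : σ - (0 : P) • τ - h • (0 : Fin 2 → P) = σ := by
      rw [zero_smul, smul_zero, sub_zero, sub_zero]
    rw [this]
    exact hj.mono (by simp)
  | succ K ih =>
    obtain ⟨b, c, h1⟩ := ih
    have h2 : h ∣ wd τ (σ - b • τ - h • c) := by
      rw [wd_sub, wd_sub, wd_smul, wd_self, mul_zero, sub_zero, wd_smul]
      exact dvd_sub hσ (Dvd.intro _ rfl)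
    obtain ⟨b', c', h3⟩ := d.step2 hh hh' hτ hτ' h2 h1 (by omega)
    refine ⟨b + b', c + c', ?_⟩
    have h4 : σ - (b + b') • τ - h • (c + c') = σ - b • τ - h • c - b' • τ - h • c' := by
      rw [add_smul, smul_add]
      abel
    rw [h4]
    push_cast
    rw [← add_assoc]
    exact h3

/-- partial derivatives commute -/
lemma pderiv_swap {σ : Type*} (i j : σ) (p : MvPolynomial σ ℂ) :
    MvPolynomial.pderiv i (MvPolynomial.pderiv j p) =
      MvPolynomial.pderiv j (MvPolynomial.pderiv i p) := by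
  classical
  by_cases h : i = j
  · rw [h]
  · ext m
    rw [coeff_pderiv, coeff_pderiv, coeff_pderiv, coeff_pderiv]
    have h1 : m + Finsupp.single i 1 + Finsupp.single j 1 =
        m + Finsupp.single j 1 + Finsupp.single i 1 := by
      rw [add_assoc, add_assoc, add_comm (Finsupp.single i 1)]
    rw [h1]
    simp only [Finsupp.add_apply]
    rw [Finsupp.single_eq_of_ne (Ne.symm h), Finsupp.single_eq_of_ne h]
    push_cast
    ring

/-- the form `h ∇γ - γ τ` is closed for the twisted differential -/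
lemma twist {h : P} {τ : Fin 2 → P} (hτ : h * rt τ = wd (gr h) τ) (γ : P) :
    h * rt (h • gr γ - γ • τ) = wd (τ + gr h) (h • gr γ - γ • τ) := by
  unfold rt wd gr at *
  simp only [Pi.sub_apply, Pi.smul_apply, Pi.add_apply, smul_eq_mul, map_sub,
    Derivation.leibniz] at *
  have hcomm : MvPolynomial.pderiv (0 : Fin 2) (MvPolynomial.pderiv 1 γ) =
      MvPolynomial.pderiv 1 (MvPolynomial.pderiv 0 γ) := pderiv_swap _ _ _
  rw [hcomm]
  linear_combination (-γ) * hτ

lemma rt_sub (a b : Fin 2 → P) : rt (a - b) = rt a - rt b := by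
  unfold rt
  simp only [Pi.sub_apply, map_sub]
  ring

lemma rt_smul (a : P) (b : Fin 2 → P) : rt (a • b) = wd (gr a) b + a * rt b := by
  unfold rt wd gr
  simp only [Pi.smul_apply, smul_eq_mul, Derivation.leibniz]
  ring

lemma rt_kp : rt (kp w) = C ((w 0 : ℂ) + w 1) := by
  unfold rt kp
  simp only [Matrix.cons_val_zero, Matrix.cons_val_one, map_neg, pderiv_C_mul, pderiv_X_self,
    C_add]
  ring

lemma wd_kp' (a : Fin 2 → P) : wd a (kp w) = ct w a := by
  unfold wd kp ct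
  simp only [Matrix.cons_val_zero, Matrix.cons_val_one]
  ring

lemma ct_gr_mul (a b : P) : ct w (gr (a * b)) = a * ct w (gr b) + b * ct w (gr a) := by
  rw [gr_mul, ct_add, ct_smul, ct_smul]

lemma ct_gr_pow (a : P) (n : ℕ) : a * ct w (gr (a ^ n)) = C (n : ℂ) * a ^ n * ct w (gr a) := by
  induction n with
  | zero =>
    have : gr (1 : P) = 0 := by
      funext k
      exact pderiv_one
    rw [pow_zero, this]
    unfold ct
    simp
  | succ n ih =>
    rw [pow_succ, ct_gr_mul]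
    push_cast
    rw [C_add, C_1]
    linear_combination a * ih

/-- the first step -/
lemma Dat.step1 {D : ℕ} {H : P} {T : Fin 2 → P} {μ : ℂ} (d : Dat w D H T μ) {h : P}
    {τ : Fin 2 → P} (hh : O w D h) (hh' : cmp w D h = H) (hτ : OF w D τ) (hτ' : cF w D τ = T)
    {κ : ℤ} (gh : O w (D + κ) (ct w (gr h) - C (D : ℂ) * h))
    (gt : O w (D + κ) (ct w τ - C μ * h))
    (hz : ∀ x : Fin 2 → ℂ, x ≠ 0 → eval x ((T + gr H) 0) ≠ 0 ∨ eval x ((T + gr H) 1) ≠ 0)
    {N : ℕ} (hN : 1 ≤ N) (hrt : h * rt τ = wd (gr h) τ) {θ : Fin 2 → P} {J Er : P}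
    (hθ : h * rt θ = wd (τ + gr h) θ + h ^ (N + 1) * J + Er)
    (hEr : O w ((N + 1) * D + κ) Er)
    {j : ℤ} (hJ : O w (j - w 0 - w 1 - N * D) J) (hj : OF w j θ)
    (hj2 : j < N * D + w 0 + w 1 + κ) (hj3 : (j : ℂ) ≠ μ + D) :
    ∃ (γ : P) (c : Fin 2 → P) (J' Er' : P), OF w (j + 1) (θ - (h • gr γ - γ • τ) - h • c) ∧
      h * rt (θ - (h • gr γ - γ • τ) - h • c) = wd (τ + gr h) (θ - (h • gr γ - γ • τ) - h • c) +
        h ^ (N + 1) * J' + Er' ∧ O w ((N + 1) * D + κ) Er' ∧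
      O w (j + 1 - w 0 - w 1 - N * D) J' := by
  set θj := cF w j θ with hθj
  set J0 := cmp w (j - w 0 - w 1 - N * D) J with hJ0
  have hgr : OF w D (gr h) := OF_gr hh
  have h1 : H * rt θj = wd (T + gr H) θj + H ^ (N + 1) * J0 := by
    have e1 : cmp w (D + (j - w 0 - w 1)) (h * rt θ) = H * rt θj := by
      rw [cmp_mul hh (O_rt hj), hh', cmp_rt]
    have e2 : cmp w (D + (j - w 0 - w 1)) (wd (τ + gr h) θ) = wd (T + gr H) θj := by
      have : (D : ℤ) + (j - w 0 - w 1) = D + j - w 0 - w 1 := by ring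
      rw [this, cmp_wd (hτ.add hgr) hj, ← hθj]
      congr 1
      funext k
      show cmp w (D - w k) (τ k + gr h k) = T k + gr H k
      rw [cmp_add, ← hτ', ← hh', ← cF_gr]
      rfl
    have e3 : cmp w (D + (j - w 0 - w 1)) (h ^ (N + 1) * J) = H ^ (N + 1) * J0 := by
      have f1 : O w (((N + 1 : ℕ) : ℤ) * D) (h ^ (N + 1)) := hh.pow _
      have f3 : (D : ℤ) + (j - w 0 - w 1) = ((N + 1 : ℕ) : ℤ) * D + (j - w 0 - w 1 - N * D) := by
        push_cast
        ring
      rw [f3, cmp_mul f1 hJ, ← hJ0]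
      congr 1
      have f4 : ∀ n : ℕ, cmp w ((n : ℤ) * D) (h ^ n) = H ^ n := by
        intro n
        induction n with
        | zero =>
          rw [pow_zero, pow_zero]
          exact cmp_self (Hg_one.of_eq (by simp))
        | succ n ih =>
          have f5 : ((n + 1 : ℕ) : ℤ) * D = (n : ℤ) * D + D := by
            push_cast
            ring
          rw [pow_succ, f5, cmp_mul (hh.pow n) hh, ih, hh', pow_succ]
      exact f4 _
    have e4 : cmp w (D + (j - w 0 - w 1)) Er = 0 := by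
      refine cmp_eq_zero_of_O hEr ?_
      have : ((N : ℤ) + 1) * D = N * D + D := by ring
      omega
    rw [← e1, ← e2, ← e3, ← cmp_add, hθ, cmp_add _ _ Er, e4, add_zero]
  have h2 := cartan (HF_cF (w := w) j θ)
  rw [← hθj] at h2
  have h3 := wd_kp (w := w) (T + gr H) θj
  rw [ct_add, d.hct, ct_gr d.hH] at h3
  set s := ct w θj with hs
  have h4 : ∀ k, s * (T k + gr H k) =
      H * (gr s k + C (μ + D - j) * θj k + H ^ N * J0 * kp w k) := by
    intro k
    have g2 := congrFun h2 k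
    have g3 := congrFun h3 k
    simp only [Pi.smul_apply, Pi.sub_apply, Pi.add_apply, smul_eq_mul] at g2 g3
    rw [C_sub, C_add]
    have g4 : wd (T + gr H) θj = H * rt θj - H ^ (N + 1) * J0 := by
      rw [h1]
      ring
    rw [g4] at g3
    have g5 : (C ((D : ℤ) : ℂ) : P) = C (D : ℂ) := by push_cast; rfl
    rw [g5] at g3
    linear_combination g3 - H * g2
  have h5 : H ∣ s := by
    refine dvd_of_two (p := D - w 0) (q := D - w 1) d.hw ?_ ?_ hz ⟨_, h4 0⟩ ⟨_, h4 1⟩
    · refine (((d.hT 0).add (HF_gr d.hH 0)).of_eq ?_)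
      have := d.hwD 0
      push_cast [Nat.cast_sub this]
      ring
    · refine (((d.hT 1).add (HF_gr d.hH 1)).of_eq ?_)
      have := d.hwD 1
      push_cast [Nat.cast_sub this]
      ring
  obtain ⟨g, hg⟩ := h5
  have hg' : Hg w (j - D) g := Hg_of_mul d.hH d.H0 (Hg_ct (HF_cF j θ)) hg
  have h6 : (C ((j : ℂ) - μ - D) : P) • θj = H • gr g - g • T + H ^ N • (J0 • kp w) := by
    funext k
    have g4 := h4 k
    rw [hg] at g4
    simp only [gr_mul, Pi.add_apply, Pi.smul_apply, smul_eq_mul, Pi.sub_apply] at g4 ⊢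
    apply mul_left_cancel₀ d.H0
    simp only [C_add, C_sub] at g4 ⊢
    linear_combination g4
  have hlam : (j : ℂ) - μ - D ≠ 0 := by
    intro h
    apply hj3
    linear_combination h
  set l := ((j : ℂ) - μ - D)⁻¹ with hl
  set γ := C l * g with hγ
  set c := (C l * h ^ (N - 1) * J0) • kp w with hc
  set c0 := (C l * H ^ (N - 1) * J0) • kp w with hc0
  have hγ' : Hg w (j - D) γ := hg'.C_mul l
  have f4 : ∀ n : ℕ, cmp w ((n : ℤ) * D) (h ^ n) = H ^ n := by
    intro n
    induction n with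
    | zero =>
      rw [pow_zero, pow_zero]
      exact cmp_self (Hg_one.of_eq (by simp))
    | succ n ih =>
      have f5 : ((n + 1 : ℕ) : ℤ) * D = (n : ℤ) * D + D := by
        push_cast
        ring
      rw [pow_succ, f5, cmp_mul (hh.pow n) hh, ih, hh', pow_succ]
  have hc' : OF w (j - D) c ∧ cF w (j - D) c = c0 := by
    have e0 : O w (j - w 0 - w 1 - D) (C l * h ^ (N - 1) * J0) ∧
        cmp w (j - w 0 - w 1 - D) (C l * h ^ (N - 1) * J0) = C l * H ^ (N - 1) * J0 := by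
      have a1 := (hh.pow (N - 1))
      have a2 := Hg_cmp (w := w) (j - w 0 - w 1 - N * D) J
      have e3 : ((N - 1 : ℕ) : ℤ) * D + (j - w 0 - w 1 - N * D) = j - w 0 - w 1 - D := by
        push_cast [Nat.cast_sub hN]
        ring
      have a3 := cmp_mul a1 a2.O
      have a4 := a1.mul a2.O
      rw [e3, f4, cmp_self a2] at a3
      rw [e3] at a4
      rw [mul_assoc, mul_assoc]
      refine ⟨a4.C_mul l, ?_⟩
      have a5 := cmp_mul_Hg (Hg_C (w := w) l) (j - w 0 - w 1 - D) (h ^ (N - 1) * J0)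
      rw [zero_add] at a5
      rw [a5]
      congr 1
    have e3 : j - w 0 - w 1 - D + (w 0 + w 1) = j - D := by ring
    have e2 := OF.smul e0.1 (HF_kp (w := w)).OF
    have e4 := cF_smul e0.1 (HF_kp (w := w)).OF
    rw [e3, e0.2, cF_self HF_kp] at e4
    rw [e3] at e2
    exact ⟨e2, e4⟩
  have h7 : θj = H • gr γ - γ • T + H • c0 := by
    have e1 : θj = (C l : P) • ((C ((j : ℂ) - μ - D) : P) • θj) := by
      rw [smul_smul, ← C_mul, hl, inv_mul_cancel₀ hlam, C_1, one_smul]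
    rw [e1, h6, hγ, gr_C_mul, hc0]
    obtain ⟨N', rfl⟩ : ∃ N', N = N' + 1 := ⟨N - 1, by omega⟩
    funext k
    simp only [Pi.add_apply, Pi.smul_apply, smul_eq_mul, Pi.sub_apply, Nat.add_sub_cancel]
    ring
  refine ⟨γ, c, J - J0, Er - C l * h ^ N * J0 *
    (C ((N : ℂ) - 1) * (ct w (gr h) - C (D : ℂ) * h) - (ct w τ - C μ * h)),
    OF_succ ?_ ?_, ?_, ?_, ?_⟩
  · have e1 : OF w j (h • gr γ) := by
      have := OF.smul hh (OF_gr hγ'.O)
      have e : (D : ℤ) + (j - D) = j := by ring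
      rwa [e] at this
    have e2 : OF w j (γ • τ) := by
      have := OF.smul hγ'.O hτ
      have e : j - D + D = j := by ring
      rwa [e] at this
    have e3 : OF w j (h • c) := by
      have := OF.smul hh hc'.1
      have e : (D : ℤ) + (j - D) = j := by ring
      rwa [e] at this
    exact (hj.sub (e1.sub e2)).sub e3
  · have e1 : cF w j (h • gr γ) = H • gr γ := by
      have := cF_smul hh (OF_gr hγ'.O)
      have e : (D : ℤ) + (j - D) = j := by ring
      rw [e] at this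
      rw [this, hh', cF_self (HF_gr hγ')]
    have e2 : cF w j (γ • τ) = γ • T := by
      have := cF_smul hγ'.O hτ
      have e : j - D + D = j := by ring
      rw [e] at this
      rw [this, hτ', cmp_self hγ']
    have e3 : cF w j (h • c) = H • c0 := by
      have := cF_smul hh hc'.1
      have e : (D : ℤ) + (j - D) = j := by ring
      rw [e] at this
      rw [this, hh', hc'.2]
    rw [cF_sub, cF_sub, cF_sub, e1, e2, e3, ← hθj, h7]
    abel
  · -- the equation
    obtain ⟨N', rfl⟩ : ∃ N', N = N' + 1 := ⟨N - 1, by omega⟩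
    have e0 : h • c = (C l * h ^ (N' + 1) * J0) • kp w := by
      rw [hc, smul_smul, Nat.add_sub_cancel, pow_succ]
      congr 1
      ring
    have e1 : ct w (gr J0) = C ((j : ℂ) - w 0 - w 1 - (N' + 1) * D) * J0 := by
      have := ct_gr (Hg_cmp (w := w) (j - w 0 - w 1 - ((N' + 1 : ℕ) : ℤ) * D) J)
      rw [this]
      push_cast
      rfl
    have e2 : h * rt (h • c) = C l * ((C ((N' + 1 : ℕ) : ℂ) * h ^ (N' + 1) * ct w (gr h)) * J0 +
        h ^ (N' + 1) * h * ct w (gr J0) + h ^ (N' + 1) * J0 * h * C ((w 0 : ℂ) + w 1)) := by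
      rw [e0, rt_smul, wd_kp', rt_kp, ← ct_gr_pow h (N' + 1)]
      have e3 : (C l * h ^ (N' + 1) * J0 : P) = C l * (h ^ (N' + 1) * J0) := by ring
      rw [e3, gr_C_mul, ct_smul, ct_gr_mul]
      ring
    have e3 : wd (τ + gr h) (h • c) = C l * h ^ (N' + 1) * J0 * (ct w τ + ct w (gr h)) := by
      rw [e0, wd_smul, wd_kp', ct_add]
    have e4 : C l * (C ((j : ℂ) - μ - D) : P) = 1 := by
      rw [← C_mul, hl, inv_mul_cancel₀ hlam, C_1]
    rw [rt_sub, rt_sub, wd_sub, wd_sub, mul_sub, mul_sub, twist hrt, hθ, e2, e3, e1]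
    have e5 : (C ((j : ℂ) - w 0 - w 1 - (N' + 1) * D) : P) =
        C ((j : ℂ) - μ - D) + C μ + C (D : ℂ) - C ((w 0 : ℂ) + w 1) -
          C ((N' + 1 : ℕ) : ℂ) * C (D : ℂ) := by
      simp only [← C_mul, ← C_add, ← C_sub]
      congr 1
      push_cast
      ring
    have e6 : (C (((N' + 1 : ℕ) : ℂ) - 1) : P) = C ((N' + 1 : ℕ) : ℂ) - 1 := by
      rw [C_sub, C_1]
    rw [e5, e6]
    linear_combination (-(h ^ (N' + 1) * h * J0)) * e4
  · refine hEr.sub ?_
    have a1 := hh.pow N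
    have a2 : O w 0 J0 := O_nonpos le_rfl _
    have a3 : O w (D + κ) (C ((N : ℂ) - 1) * (ct w (gr h) - C (D : ℂ) * h) -
        (ct w τ - C μ * h)) := (gh.C_mul _).sub gt
    have a4 := ((a1.mul a2).mul a3).C_mul l
    have a5 : (N : ℤ) * D + 0 + (D + κ) = (N + 1) * D + κ := by ring
    rw [a5] at a4
    convert a4 using 1
    ring
  · have a1 := O_sub_cmp hJ
    have a2 : j - w 0 - w 1 - N * D + 1 = j + 1 - w 0 - w 1 - N * D := by ring
    rw [a2] at a1
    exact a1

/-- the local statement: `φ θ` lies in the closure of the submodule generated by `τ` and `h P²` -/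
theorem Dat.local_all {D : ℕ} {H : P} {T : Fin 2 → P} {μ : ℂ} (d : Dat w D H T μ) {h : P}
    {τ : Fin 2 → P} (hh : O w D h) (hh' : cmp w D h = H) (hτ : OF w D τ) (hτ' : cF w D τ = T)
    {κ : ℤ} (gh : O w (D + κ) (ct w (gr h) - C (D : ℂ) * h))
    (gt : O w (D + κ) (ct w τ - C μ * h))
    (hz : ∀ x : Fin 2 → ℂ, x ≠ 0 → eval x ((T + gr H) 0) ≠ 0 ∨ eval x ((T + gr H) 1) ≠ 0)
    {N : ℕ} (hN : 1 ≤ N) (hrt : h * rt τ = wd (gr h) τ) {θ : Fin 2 → P} {J : P}
    (hθ : h * rt θ = wd (τ + gr h) θ + h ^ (N + 1) * J) (hdiv : h ∣ wd τ θ)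
    {J1 : ℤ} (hJ1 : J1 ≤ N * D + w 0 + w 1 + κ) (hJ2 : ∀ j : ℤ, j < J1 → (j : ℂ) ≠ μ + D)
    {φ : P} {e : ℤ} (hφ : O w e φ) (hJ3 : 2 * (D : ℤ) < J1 + e + w 0 + w 1) (K : ℕ) :
    ∃ (b : P) (c : Fin 2 → P), OF w K (φ • θ - b • τ - h • c) := by
  have iter : ∀ n : ℕ, (n : ℤ) ≤ J1 →
      ∃ (γ : P) (c : Fin 2 → P) (J' Er' : P), OF w n (θ - (h • gr γ - γ • τ) - h • c) ∧
        h * rt (θ - (h • gr γ - γ • τ) - h • c) =
          wd (τ + gr h) (θ - (h • gr γ - γ • τ) - h • c) + h ^ (N + 1) * J' + Er' ∧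
        O w ((N + 1) * D + κ) Er' ∧ O w (n - w 0 - w 1 - N * D) J' := by
    intro n
    induction n with
    | zero =>
      intro _
      refine ⟨0, 0, J, 0, fun k => O_nonpos (by simp) _, ?_, O_zero _, ?_⟩
      · have e1 : θ - (h • gr 0 - (0 : P) • τ) - h • (0 : Fin 2 → P) = θ := by
          rw [gr_zero, zero_smul, smul_zero]
          abel
        rw [e1, hθ]
        ring
      · refine O_nonpos ?_ _
        have : (0 : ℤ) ≤ N * D := by positivity
        push_cast
        omega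
    | succ n ih =>
      intro h1
      push_cast at h1
      obtain ⟨γ, c, J', Er', a1, a2, a3, a4⟩ := ih (by omega)
      obtain ⟨γ', c', J'', Er'', b1, b2, b3, b4⟩ := d.step1 hh hh' hτ hτ' gh gt hz hN hrt a2 a3 a4
        a1 (by omega) (hJ2 n (by omega))
      have h5 : θ - (h • gr (γ + γ') - (γ + γ') • τ) - h • (c + c') =
          θ - (h • gr γ - γ • τ) - h • c - (h • gr γ' - γ' • τ) - h • c' := by
        rw [gr_add, smul_add, add_smul, smul_add]
        abel
      refine ⟨γ + γ', c + c', J'', Er'', ?_, ?_, b3, ?_⟩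
      · rw [h5]
        push_cast
        exact b1
      · rw [h5]
        exact b2
      · push_cast
        exact b4
  have fin : ∃ (γ : P) (c : Fin 2 → P), OF w J1 (θ - (h • gr γ - γ • τ) - h • c) := by
    by_cases h0 : J1 < 0
    · exact ⟨0, 0, fun k => O_nonpos (by omega) _⟩
    · obtain ⟨n, hn⟩ := Int.eq_ofNat_of_zero_le (not_lt.1 h0)
      obtain ⟨γ, c, -, -, hγ, -⟩ := iter n (by omega)
      exact ⟨γ, c, by rw [hn]; exact hγ⟩
  obtain ⟨γ, c, h1⟩ := fin
  set σ := θ - (h • gr γ - γ • τ) - h • c with hσ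
  have h2 : h ∣ wd τ (φ • σ) := by
    rw [wd_smul]
    refine Dvd.dvd.mul_left ?_ φ
    rw [hσ, wd_sub, wd_sub, wd_sub, wd_smul, wd_smul, wd_smul, wd_self, mul_zero, sub_zero]
    exact dvd_sub (dvd_sub hdiv (Dvd.intro _ rfl)) (Dvd.intro _ rfl)
  have h3 : OF w (e + J1) (φ • σ) := OF.smul hφ h1
  obtain ⟨b, c', h4⟩ := d.all hh hh' hτ hτ' h2 h3 (by omega) (K + (e + J1).natAbs)
  refine ⟨b - φ * γ, c' + φ • gr γ + φ • c, ?_⟩
  have h5 : φ • θ - (b - φ * γ) • τ - h • (c' + φ • gr γ + φ • c) =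
      φ • σ - b • τ - h • c' := by
    rw [hσ]
    funext k
    simp only [Pi.sub_apply, Pi.smul_apply, Pi.add_apply, smul_eq_mul]
    ring
  rw [h5]
  refine h4.mono ?_
  push_cast
  have := neg_abs_le (e + J1)
  omega

end Pool.Agent.KS6_81.SQ
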