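import Pool.Agent.KS6_81.SQ.Glue

set_option autoImplicit false

/-! # The main theorem on exactness -/

namespace Pool.Agent.KS6_81.SQ

open MvPolynomial Finset

variable {r : ℕ}

lemma eval_smul3 {p : S} {n : ℕ} (hp : p.IsHomogeneous n) (c : ℂ) (x : Fin 3 → ℂ) :
    eval (fun i => c * x i) p = c ^ n * eval x p := by
  rw [eval_eq', eval_eq', Finset.mul_sum]
  refine Finset.sum_congr rfl fun d hd => ?_
  have h2 := hp (mem_support_iff.1 hd)
  rw [Finsupp.weight_apply, Finsupp.sum_fintype _ _ (fun i => by simp)] at h2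
  simp only [Pi.one_apply, smul_eq_mul, mul_one, Fin.sum_univ_three] at h2
  rw [Fin.prod_univ_three, Fin.prod_univ_three, ← h2]
  ring

/-- a plane curve with only semi-quasi-homogeneous singularities, in good coordinates -/
structure Cur (F : Fin r → S) (a n : Fin r → ℕ) (d e : ℕ) (j : ℕ → S) : Prop where
  hom : ∀ i, (F i).IsHomogeneous (a i)
  apos : ∀ i, 0 < a i
  npos : ∀ i, 0 < n i
  deg : d = ∑ i, n i * a i
  dpos : 0 < d
  sqf : Squarefree (∏ i, F i)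
  pt : eval ![0, 0, 1] (∏ i, F i) ≠ 0
  len : e = 0 ∨ e + 5 ≤ ∑ i, a i
  jhom : ∀ i, i ≤ e → (j i).IsHomogeneous e
  jz : ∀ i, i ≤ e → X 2 ∣ j i - X 0 ^ (e - i) * X 1 ^ i
  sing : ∀ Q : Fin 3 → ℂ, Q ≠ 0 → eval Q (∏ i, F i) = 0 →
    (∀ k, eval Q (MvPolynomial.pderiv k (∏ i, F i)) = 0) → Q 2 ≠ 0 ∧
    ∃ (w : Fin 2 → ℕ) (D : Fin r → ℕ) (H : Fin r → P) (Φ : P →ₐ[ℂ] P) (κ E : ℕ),
      Sqh F n d E ![Q 0 / Q 2, Q 1 / Q 2] w D H Φ κ ∧ ∀ i, i ≤ e → O w E (Φ (ev (j i)))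

section

variable {F : Fin r → S} {a n : Fin r → ℕ} {d e : ℕ} {j : ℕ → S}

lemma Cur.cross (hC : Cur F a n d e j) {N : ℕ} {θ : Fin 3 → S} (hθ : Sol F a n d (N + 1) θ)
    (k l : Fin 3) : ∏ i, F i ∣ tau F (ee n d) N k * θ l - tau F (ee n d) N l * θ k := by
  have hcast : ((N + 1 : ℕ) : ℂ) = (N : ℂ) + 1 := by push_cast; ring
  have he : ∀ i, ee n d i + ((N : ℂ) + 1) ≠ 0 := fun i => by
    have := ee_ne hC.npos hC.dpos i (N + 1)
    rwa [hcast] at this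
  refine dvd_cross hC.sqf he ?_
  have hE := hθ.eq
  rw [hcast] at hE
  have key : ∀ {x A B : S}, (∏ i, F i) * A = x + (∏ i, F i) ^ (N + 1 + 1) * B →
      ∏ i, F i ∣ x := by
    intro x A B h
    exact ⟨A - (∏ i, F i) ^ (N + 1) * B, by rw [pow_succ] at h; linear_combination (-1 : S) * h⟩
  have h0 := key (congrFun hE 0)
  have h1 := key (congrFun hE 1)
  have h2 := key (congrFun hE 2)
  simp only [cr, Matrix.cons_val_zero, Matrix.cons_val_one, Matrix.cons_val_two, Matrix.tail_cons,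
    Matrix.head_cons] at h0 h1 h2
  fin_cases k <;> fin_cases l
  · simp
  · exact h2
  · have h3 := (dvd_neg.2 h1)
    convert h3 using 1
    show tau F (ee n d) ((N : ℂ) + 1) 0 * θ 2 - tau F (ee n d) ((N : ℂ) + 1) 2 * θ 0 = _
    ring
  · have h3 := (dvd_neg.2 h2)
    convert h3 using 1
    show tau F (ee n d) ((N : ℂ) + 1) 1 * θ 0 - tau F (ee n d) ((N : ℂ) + 1) 0 * θ 1 = _
    ring
  · simp
  · exact h0
  · exact h1
  · have h3 := (dvd_neg.2 h0)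
    convert h3 using 1
    show tau F (ee n d) ((N : ℂ) + 1) 2 * θ 1 - tau F (ee n d) ((N : ℂ) + 1) 1 * θ 2 = _
    ring
  · simp

/-- the local condition -/
lemma Cur.local (hC : Cur F a n d e j) {N : ℕ} {θ : Fin 3 → S} (hθ : Sol F a n d (N + 1) θ)
    {φ : S} {dφ : ℕ} (hφ : φ.IsHomogeneous dφ)
    (hφ2 : (∃ i, i ≤ e ∧ φ = j i) ∨ 1 ≤ N)
    (Q : Fin 3 → ℂ) (hQ : Q ≠ 0) (hQ1 : eval Q (∏ i, F i) = 0)
    (hQ2 : ∀ k, eval Q (MvPolynomial.pderiv k (∏ i, F i)) = 0) :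
    ∃ u, eval Q u ≠ 0 ∧ u ∈ den (∏ i, F i) φ (tau F (ee n d) N) θ := by
  obtain ⟨hQ3, w, D, H, Φ, κ, E, hS, hj⟩ := hC.sing Q hQ hQ1 hQ2
  have hx : ∃ (m' : ℕ) (U : S), U.IsHomogeneous m' ∧
      eval ![(![Q 0 / Q 2, Q 1 / Q 2] : Fin 2 → ℂ) 0, (![Q 0 / Q 2, Q 1 / Q 2] : Fin 2 → ℂ) 1, 1] U
        ≠ 0 ∧ ∃ (b : S) (c : Fin 3 → S),
        (U * φ) • θ = b • tau F (ee n d) N + (∏ i, F i) • c := by
    have hdiv : ∏ i, F i ∣ cr (tau F (ee n d) N) θ 2 := hC.cross hθ 0 1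
    rcases hφ2 with ⟨i, hi, rfl⟩ | h1
    · exact hS.loc hC.hom hC.apos hC.npos hC.dpos hθ hdiv hφ (hj i hi) (Or.inl le_rfl)
    · exact hS.loc hC.hom hC.apos hC.npos hC.dpos hθ hdiv hφ
        (E := 0) (O_nonpos (by simp) _) (Or.inr h1)
  obtain ⟨m', U, hU, hU2, b, c, h⟩ := hx
  refine ⟨U, ?_, b, c, h⟩
  have e1 : Q = fun i => Q 2 *
      (![(![Q 0 / Q 2, Q 1 / Q 2] : Fin 2 → ℂ) 0, (![Q 0 / Q 2, Q 1 / Q 2] : Fin 2 → ℂ) 1, 1] :
        Fin 3 → ℂ) i := by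
    funext i
    fin_cases i
    · show Q 0 = Q 2 * (Q 0 / Q 2)
      field_simp
    · show Q 1 = Q 2 * (Q 1 / Q 2)
      field_simp
    · show Q 2 = Q 2 * 1
      rw [mul_one]
  rw [e1, eval_smul3 hU]
  exact mul_ne_zero (pow_ne_zero _ hQ3) hU2

lemma Cur.delta_pos (hC : Cur F a n d e j) : 1 ≤ ∑ i, a i := by
  have h1 : 0 < ∑ i, n i * a i := by
    rw [← hC.deg]
    exact hC.dpos
  obtain ⟨i, -, hi⟩ := Finset.exists_ne_zero_of_sum_ne_zero h1.ne'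
  have h2 : a i ≤ ∑ i, a i := Finset.single_le_sum (fun i _ => Nat.zero_le _) (mem_univ i)
  have := hC.apos i
  omega

lemma mem_iff {h : S} {τ θ : Fin 3 → S} {g β : S} :
    Mem h τ θ g β ↔ ∃ c : Fin 3 → S, g • θ = β • τ + h • c := by
  constructor
  · intro h1
    choose c hc using h1
    refine ⟨c, ?_⟩
    funext k
    simp only [Pi.smul_apply, Pi.add_apply, smul_eq_mul]
    linear_combination hc k
  · rintro ⟨c, hc⟩ k
    have := congrFun hc k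
    simp only [Pi.smul_apply, Pi.add_apply, smul_eq_mul] at this
    exact ⟨c k, by linear_combination this⟩

/-- the reduction of the pole order -/
theorem Cur.step (hC : Cur F a n d e j) {N : ℕ} {θ : Fin 3 → S}
    (hθ : Sol F a n d (N + 1) θ) : ∃ θ', Sol F a n d N θ' := by
  have he : ∀ i, ee n d i + (N : ℂ) ≠ 0 := fun i => ee_ne hC.npos hC.dpos i N
  have hδ := hC.delta_pos
  have hh := prod_hom hC.hom univ
  have hτ := tau_hom hC.hom hC.apos (ee n d) (N : ℂ)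
  have h0 := hC.sqf.ne_zero
  -- membership
  have hmem : ∃ (γ : S) (c : Fin 3 → S), (1 : S) • θ = γ • tau F (ee n d) N + (∏ i, F i) • c := by
    by_cases hN : 1 ≤ N
    · exact glob hC.sqf he hC.pt (hC.cross hθ)
        (hC.local hθ (φ := 1) (isHomogeneous_one _ _) (Or.inr hN))
    · have hN0 : N = 0 := by omega
      subst hN0
      suffices hγ : ∃ γ, Mem (∏ i, F i) (tau F (ee n d) ((0 : ℕ) : ℂ)) θ 1 γ by
        obtain ⟨γ, hγ⟩ := hγ
        obtain ⟨c, hc⟩ := mem_iff.1 hγ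
        exact ⟨γ, c, hc⟩
      refine glue (τ := tau F (ee n d) ((0 : ℕ) : ℂ)) (θ := θ) (δ := ∑ i, a i)
        hC.len h0 hh (fun k => ⟨by
          have h4 := hθ.hom k
          have h5 : (0 + 1) * ∑ i, a i + 2 = 2 + ∑ i, a i := by ring
          rwa [h5] at h4, hτ k⟩) hδ
        (fun u hu => dvd_of_tau hC.sqf he hu) ?_ ?_ j hC.jhom hC.jz ?_
      · intro g β hg
        obtain ⟨c, hc⟩ := mem_iff.1 hg
        obtain ⟨β', c', h1⟩ := glob hC.sqf he hC.pt (φ := g) (hC.cross hθ)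
          (fun Q hQ hQ1 hQ2 => ⟨X 2, by
            rw [eval_X]
            exact (hC.sing Q hQ hQ1 hQ2).1, β, c, hc⟩)
        exact ⟨β', mem_iff.2 ⟨c', h1⟩⟩
      · intro g m β hg hm
        obtain ⟨c, hc⟩ := mem_iff.1 hm
        obtain ⟨β', c', h1, -, h3⟩ := glob_hom (m := m + 2) hδ hh hτ (fun k => by
          have h4 := hg.mul (hθ.hom k)
          have h5 : m + ((0 + 1) * ∑ i, a i + 2) = m + 2 + ∑ i, a i := by ring
          rwa [h5] at h4) hc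
        exact ⟨β', h1, mem_iff.2 ⟨c', h3⟩⟩
      · intro i hi
        obtain ⟨β, c, hβ⟩ := glob hC.sqf he hC.pt (hC.cross hθ)
          (hC.local hθ (φ := j i) (hC.jhom i hi) (Or.inl ⟨i, hi, rfl⟩))
        exact ⟨β, mem_iff.2 ⟨c, hβ⟩⟩
  obtain ⟨γ, c, hγ⟩ := hmem
  obtain ⟨β', c', h1, h2, h3⟩ := glob_hom (m := N * ∑ i, a i + 2) hδ hh hτ (fun k => by
    have h4 := hθ.hom k
    have h5 : (N + 1) * ∑ i, a i + 2 = N * ∑ i, a i + 2 + ∑ i, a i := by ring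
    rw [h5] at h4
    rwa [one_mul]) hγ
  rw [one_smul] at h3
  exact hθ.descend hC.dpos.ne' hC.deg hC.hom h0 h1 h2 h3

end

end Pool.Agent.KS6_81.SQ
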