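import Pool.Agent.KS6_81.SQ.Bin

set_option autoImplicit false

/-! # The socle degree of two weighted homogeneous polynomials without a common zero -/

namespace Pool.Agent.KS6_81.SQ

open MvPolynomial Finset

variable {w : Fin 2 → ℕ}

/-- the substitution `X_k ↦ X_k ^ (w k)` -/
noncomputable def ep (w : Fin 2 → ℕ) : P →ₐ[ℂ] P := aeval (fun k => X k ^ w k)

/-- a pair of exponents -/
noncomputable def ex (a b : ℕ) : Fin 2 →₀ ℕ := Finsupp.equivFunOnFinite.symm ![a, b]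

lemma ex0 (a b : ℕ) : ex a b 0 = a := rfl
lemma ex1 (a b : ℕ) : ex a b 1 = b := rfl

lemma ex_ext {m n : Fin 2 →₀ ℕ} (h0 : m 0 = n 0) (h1 : m 1 = n 1) : m = n := by
  ext i
  fin_cases i
  · exact h0
  · exact h1

lemma monomial_two (m : Fin 2 →₀ ℕ) (c : ℂ) :
    (monomial m c : P) = C c * X 0 ^ m 0 * X 1 ^ m 1 := by
  rw [monomial_eq, Finsupp.prod_fintype _ _ (fun i => by simp), Fin.prod_univ_two]
  ring

lemma ep_monomial (m : Fin 2 →₀ ℕ) (c : ℂ) :
    ep w (monomial m c) = monomial (ex (w 0 * m 0) (w 1 * m 1)) c := by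
  rw [monomial_two, monomial_two, ex0, ex1]
  unfold ep
  simp only [map_mul, map_pow, aeval_X, algHom_C, algebraMap_eq]
  rw [pow_mul, pow_mul]

/-- the projection -/
noncomputable def pr (w : Fin 2 → ℕ) : P →ₗ[ℂ] P :=
  (basisMonomials (Fin 2) ℂ).constr ℂ (fun n =>
    if w 0 ∣ n 0 + 1 ∧ w 1 ∣ n 1 + 1 then
      monomial (ex ((n 0 + 1) / w 0 - 1) ((n 1 + 1) / w 1 - 1)) (1 : ℂ) else 0)

lemma pr_monomial (n : Fin 2 →₀ ℕ) (c : ℂ) :
    pr w (monomial n c) = if w 0 ∣ n 0 + 1 ∧ w 1 ∣ n 1 + 1 then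
      monomial (ex ((n 0 + 1) / w 0 - 1) ((n 1 + 1) / w 1 - 1)) c else 0 := by
  have h1 : (monomial n c : P) = c • basisMonomials (Fin 2) ℂ n := by
    rw [coe_basisMonomials, smul_monomial, smul_eq_mul, mul_one]
  rw [h1, map_smul]
  unfold pr
  rw [Module.Basis.constr_basis]
  split_ifs
  · rw [smul_monomial, smul_eq_mul, mul_one]
  · rw [smul_zero]

lemma pr_pos {a b : ℕ} (c : ℂ) (h : w 0 ∣ a + 1 ∧ w 1 ∣ b + 1) :
    pr w (monomial (ex a b) c) = monomial (ex ((a + 1) / w 0 - 1) ((b + 1) / w 1 - 1)) c := by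
  rw [pr_monomial, if_pos]
  · rfl
  · exact h

lemma pr_neg {a b : ℕ} (c : ℂ) (h : ¬ (w 0 ∣ a + 1 ∧ w 1 ∣ b + 1)) :
    pr w (monomial (ex a b) c) = 0 := by
  rw [pr_monomial, if_neg]
  exact h

lemma pr_mul (hw : ∀ k, 0 < w k) (U a : P) : pr w (U * ep w a) = pr w U * a := by
  induction U using MvPolynomial.induction_on' with
  | monomial n c =>
    induction a using MvPolynomial.induction_on' with
    | monomial m e =>
      obtain ⟨a, b, rfl⟩ : ∃ a b, n = ex a b := ⟨n 0, n 1, ex_ext rfl rfl⟩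
      have h2 : ex a b + ex (w 0 * m 0) (w 1 * m 1) = ex (a + w 0 * m 0) (b + w 1 * m 1) :=
        ex_ext rfl rfl
      rw [ep_monomial, monomial_mul, h2]
      have h0 : a + w 0 * m 0 + 1 = a + 1 + w 0 * m 0 := by ring
      have h1 : b + w 1 * m 1 + 1 = b + 1 + w 1 * m 1 := by ring
      have e0 : w 0 ∣ a + w 0 * m 0 + 1 ↔ w 0 ∣ a + 1 := by
        rw [h0]
        exact Nat.dvd_add_left (Dvd.intro _ rfl)
      have e1 : w 1 ∣ b + w 1 * m 1 + 1 ↔ w 1 ∣ b + 1 := by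
        rw [h1]
        exact Nat.dvd_add_left (Dvd.intro _ rfl)
      by_cases h : w 0 ∣ a + 1 ∧ w 1 ∣ b + 1
      · rw [pr_pos _ h, pr_pos _ ⟨e0.2 h.1, e1.2 h.2⟩, monomial_mul, h0, h1,
          Nat.add_mul_div_left _ _ (hw 0), Nat.add_mul_div_left _ _ (hw 1)]
        congr 1
        obtain ⟨⟨x, hx⟩, ⟨y, hy⟩⟩ := h
        have hx1 : 1 ≤ (a + 1) / w 0 := by
          rw [hx, Nat.mul_div_cancel_left _ (hw 0)]
          by_contra h2
          have : x = 0 := by omega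
          rw [this] at hx
          omega
        have hy1 : 1 ≤ (b + 1) / w 1 := by
          rw [hy, Nat.mul_div_cancel_left _ (hw 1)]
          by_contra h2
          have : y = 0 := by omega
          rw [this] at hy
          omega
        have h9 : ex ((a + 1) / w 0 + m 0 - 1) ((b + 1) / w 1 + m 1 - 1) =
            ex ((a + 1) / w 0 - 1) ((b + 1) / w 1 - 1) + m := by
          refine ex_ext ?_ ?_
          · rw [Finsupp.add_apply, ex0, ex0]
            omega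
          · rw [Finsupp.add_apply, ex1, ex1]
            omega
        rw [h9]
      · rw [pr_neg _ h, pr_neg _ (fun h2 => h ⟨e0.1 h2.1, e1.1 h2.2⟩), zero_mul]
    | add p q hp hq => rw [map_add, mul_add, map_add, hp, hq, mul_add]
  | add p q hp hq => rw [add_mul, map_add, hp, hq, map_add, add_mul]

lemma pr_X (hw : ∀ k, 0 < w k) (r : P) :
    pr w (X 0 ^ (w 0 - 1) * X 1 ^ (w 1 - 1) * ep w r) = r := by
  rw [pr_mul hw]
  have h1 : (X 0 ^ (w 0 - 1) * X 1 ^ (w 1 - 1) : P) = monomial (ex (w 0 - 1) (w 1 - 1)) 1 := by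
    rw [monomial_two, ex0, ex1, C_1, one_mul]
  have h0 := hw 0
  have h2 := hw 1
  rw [h1, pr_monomial, if_pos, ex0, ex1]
  · have h3 : (w 0 - 1 + 1) / w 0 - 1 = 0 := by
      rw [Nat.sub_add_cancel h0, Nat.div_self h0]
    have h4 : (w 1 - 1 + 1) / w 1 - 1 = 0 := by
      rw [Nat.sub_add_cancel h2, Nat.div_self h2]
    rw [h3, h4, monomial_two, ex0, ex1]
    simp
  · rw [ex0, ex1, Nat.sub_add_cancel h0, Nat.sub_add_cancel h2]
    exact ⟨dvd_rfl, dvd_rfl⟩

lemma ep_hom {n : ℕ} {a : P} (h : Hg w n a) : (ep w a).IsHomogeneous n := by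
  have h1 : ep w a = ∑ m ∈ a.support, monomial (ex (w 0 * m 0) (w 1 * m 1)) (a.coeff m) := by
    conv_lhs => rw [a.as_sum]
    rw [map_sum]
    exact Finset.sum_congr rfl fun m _ => ep_monomial _ _
  rw [h1]
  refine IsHomogeneous.sum _ _ _ fun m hm => ?_
  refine isHomogeneous_monomial _ ?_
  have h2 := h m (mem_support_iff.1 hm)
  rw [wt_eq] at h2
  rw [Finsupp.degree_eq_sum, Fin.sum_univ_two, ex0, ex1]
  exact_mod_cast h2

lemma eval_ep (x : Fin 2 → ℂ) (a : P) :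
    eval x (ep w a) = eval (fun k => x k ^ w k) a := by
  induction a using MvPolynomial.induction_on with
  | C c => simp [ep]
  | add p q hp hq => rw [map_add, map_add, map_add, hp, hq]
  | mul_X p i hp =>
    rw [map_mul, map_mul, map_mul, hp, eval_X]
    simp [ep]

/-- Two weighted homogeneous polynomials of the weights `p` and `q` without a common zero generate
all polynomials of the weight `n` when `n > p + q - |w|`. -/
lemma socle (hw : ∀ k, 0 < w k) {p q : ℕ} {n : ℤ} {A B R : P} (hA : Hg w p A) (hB : Hg w q B)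
    (hR : Hg w n R) (hz : ∀ x : Fin 2 → ℂ, x ≠ 0 → eval x A ≠ 0 ∨ eval x B ≠ 0)
    (hn : (p + q : ℤ) < n + w 0 + w 1) : ∃ U V : P, R = U * A + V * B := by
  by_cases hn0 : n < 0
  · exact ⟨0, 0, by rw [hR.neg_zero hn0]; ring⟩
  obtain ⟨n', rfl⟩ := Int.eq_ofNat_of_zero_le (not_lt.1 hn0)
  have hw0 := hw 0
  have hw1 := hw 1
  obtain ⟨U, V, hUV⟩ := binary (A := ep w A) (B := ep w B)
    (R := X 0 ^ (w 0 - 1) * X 1 ^ (w 1 - 1) * ep w R) (n := (w 0 - 1) + (w 1 - 1) + n')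
    (ep_hom hA) (ep_hom hB) (by
      refine IsHomogeneous.mul (IsHomogeneous.mul ?_ ?_) (ep_hom hR)
      · have := (isHomogeneous_X ℂ (0 : Fin 2)).pow (w 0 - 1)
        rwa [one_mul] at this
      · have := (isHomogeneous_X ℂ (1 : Fin 2)).pow (w 1 - 1)
        rwa [one_mul] at this) (by
      intro x hx
      rw [eval_ep, eval_ep]
      refine hz _ ?_
      intro h
      apply hx
      funext k
      have := congrFun h k
      exact pow_eq_zero_iff (hw k).ne' |>.1 this) (by omega)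
  refine ⟨pr w U, pr w V, ?_⟩
  rw [← pr_mul hw, ← pr_mul hw, ← map_add, ← hUV, pr_X hw]

lemma X0_ndvd (K : ℕ) : ¬ (X 0 : P) ∣ X 1 ^ K := by
  rintro ⟨c, hc⟩
  have := congrArg (eval ![0, 1]) hc
  simp at this

lemma dvd_of_X {H s : P} {K : ℕ} (h0 : H ∣ s * X 0 ^ K) (h1 : H ∣ s * X 1 ^ K) : H ∣ s := by
  by_cases hH : H = 0
  · rw [hH, zero_dvd_iff] at h0 ⊢
    rcases mul_eq_zero.1 h0 with h | h
    · exact h
    · exact absurd h (pow_ne_zero K (X_ne_zero (R := ℂ) (0 : Fin 2)))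
  obtain ⟨a, ha⟩ := h0
  obtain ⟨b, hb⟩ := h1
  have h2 : a * X 1 ^ K = X 0 ^ K * b := by
    apply mul_left_cancel₀ hH
    linear_combination (-X 1 ^ K) * ha + X 0 ^ K * hb
  have h3 : (X 0 : P) ^ K ∣ a * X 1 ^ K := ⟨b, h2⟩
  obtain ⟨a', rfl⟩ := (X_prime (R := ℂ) (i := (0 : Fin 2))).pow_dvd_of_dvd_mul_right K
    (X0_ndvd K) h3
  refine ⟨a', ?_⟩
  apply mul_right_cancel₀ (pow_ne_zero K (X_ne_zero (R := ℂ) (0 : Fin 2)))
  linear_combination ha

lemma dvd_of_two (hw : ∀ k, 0 < w k) {p q : ℕ} {A B H s : P} (hA : Hg w p A) (hB : Hg w q B)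
    (hz : ∀ x : Fin 2 → ℂ, x ≠ 0 → eval x A ≠ 0 ∨ eval x B ≠ 0)
    (h0 : H ∣ s * A) (h1 : H ∣ s * B) : H ∣ s := by
  have key : ∀ k : Fin 2, H ∣ s * X k ^ (p + q + 1) := by
    intro k
    have h2 : Hg w (((p + q + 1 : ℕ) : ℤ) * w k) (X k ^ (p + q + 1) : P) := (Hg_X k).pow _
    obtain ⟨U, V, h3⟩ := socle hw hA hB h2 hz (by
      have hk := hw k
      have hk0 := hw 0
      have hk1 := hw 1
      have h5 : ((p + q + 1 : ℕ) : ℤ) * 1 ≤ ((p + q + 1 : ℕ) : ℤ) * w k := by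
        apply mul_le_mul_of_nonneg_left
        · exact_mod_cast hk
        · positivity
      push_cast at h5 ⊢
      omega)
    rw [h3]
    obtain ⟨a, ha⟩ := h0
    obtain ⟨b, hb⟩ := h1
    exact ⟨U * a + V * b, by linear_combination U * ha + V * hb⟩
  exact dvd_of_X (key 0) (key 1)

end Pool.Agent.KS6_81.SQ
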