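import Pool.Agent.KS6_81.SQ.Aff

set_option autoImplicit false

/-! # The logarithmic one forms attached to a product of forms -/

namespace Pool.Agent.KS6_81.SQ

open MvPolynomial Finset

variable {σ : Type} {r : ℕ}

/-- the product of the other factors -/
noncomputable def GG (F : Fin r → MvPolynomial σ ℂ) (i : Fin r) : MvPolynomial σ ℂ :=
  ∏ j ∈ univ.erase i, F j

lemma GG_mul (F : Fin r → MvPolynomial σ ℂ) (i : Fin r) : GG F i * F i = ∏ j, F j :=
  Finset.prod_erase_mul _ _ (mem_univ i)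

/-- `τ = Σ (e_i + t) (h / F_i) ∇ F_i` -/
noncomputable def tau (F : Fin r → MvPolynomial σ ℂ) (e : Fin r → ℂ) (t : ℂ) :
    σ → MvPolynomial σ ℂ :=
  fun k => ∑ i, C (e i + t) * (GG F i * MvPolynomial.pderiv k (F i))

lemma pderiv_prod (s : Finset (Fin r)) (F : Fin r → MvPolynomial σ ℂ) (k : σ) :
    MvPolynomial.pderiv k (∏ j ∈ s, F j) =
      ∑ i ∈ s, (∏ j ∈ s.erase i, F j) * MvPolynomial.pderiv k (F i) := by
  induction s using Finset.induction_on with
  | empty => simp
  | insert a s ha ih =>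
    rw [Finset.prod_insert ha, Derivation.leibniz, smul_eq_mul, smul_eq_mul, ih,
      Finset.sum_insert ha, Finset.erase_insert ha, Finset.mul_sum, add_comm]
    congr 1
    refine Finset.sum_congr rfl fun i hi => ?_
    have hne : i ≠ a := fun h => ha (h ▸ hi)
    rw [Finset.erase_insert_of_ne (Ne.symm hne), Finset.prod_insert (by simp [ha])]
    ring

lemma pderiv_prod_univ (F : Fin r → MvPolynomial σ ℂ) (k : σ) :
    MvPolynomial.pderiv k (∏ j, F j) = ∑ i, GG F i * MvPolynomial.pderiv k (F i) :=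
  pderiv_prod univ F k

lemma tau_succ (F : Fin r → MvPolynomial σ ℂ) (e : Fin r → ℂ) (t : ℂ) (k : σ) :
    tau F e (t + 1) k = tau F e t k + MvPolynomial.pderiv k (∏ j, F j) := by
  unfold tau
  rw [pderiv_prod_univ, ← Finset.sum_add_distrib]
  refine Finset.sum_congr rfl fun i _ => ?_
  rw [← add_assoc, C_add, C_1]
  ring

/-- `h (∂_k τ_l - ∂_l τ_k) = ∂_k h τ_l - ∂_l h τ_k` -/
lemma tau_rot (F : Fin r → MvPolynomial σ ℂ) (e : Fin r → ℂ) (t : ℂ) (k l : σ) :
    (∏ j, F j) * (MvPolynomial.pderiv k (tau F e t l) - MvPolynomial.pderiv l (tau F e t k)) =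
      MvPolynomial.pderiv k (∏ j, F j) * tau F e t l -
        MvPolynomial.pderiv l (∏ j, F j) * tau F e t k := by
  unfold tau
  rw [map_sum, map_sum, ← Finset.sum_sub_distrib, Finset.mul_sum, Finset.mul_sum, Finset.mul_sum,
    ← Finset.sum_sub_distrib]
  refine Finset.sum_congr rfl fun i _ => ?_
  rw [← GG_mul F i]
  simp only [Derivation.leibniz, smul_eq_mul, pderiv_C, mul_zero, add_zero]
  rw [pderiv_swap k l (F i)]
  ring

/-- contraction with the Euler field -/
lemma tau_euler (F : Fin r → MvPolynomial (Fin 3) ℂ) (a : Fin r → ℕ)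
    (hF : ∀ i, (F i).IsHomogeneous (a i)) (e : Fin r → ℂ) (t : ℂ) :
    ∑ k, X k * tau F e t k = C (∑ i, (e i + t) * a i) * ∏ j, F j := by
  unfold tau
  simp only [Finset.mul_sum]
  rw [Finset.sum_comm, map_sum, Finset.sum_mul]
  refine Finset.sum_congr rfl fun i _ => ?_
  have h1 := (hF i).sum_X_mul_pderiv
  have h2 : ∀ n : ℕ, ((n : ℕ) : MvPolynomial (Fin 3) ℂ) = C (n : ℂ) := fun n => by simp
  rw [nsmul_eq_mul, h2] at h1
  rw [← GG_mul F i, C_mul]
  have h3 : ∑ k, X k * (C (e i + t) * (GG F i * MvPolynomial.pderiv k (F i))) =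
      C (e i + t) * GG F i * ∑ k, X k * MvPolynomial.pderiv k (F i) := by
    rw [Finset.mul_sum]
    refine Finset.sum_congr rfl fun k _ => ?_
    ring
  rw [h3, h1]
  ring

end Pool.Agent.KS6_81.SQ
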