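import Mathlib

set_option autoImplicit false

/-! # Weights on `ℂ[u, v]`: orders and components with integral indices -/

namespace Pool.Agent.KS6_81.SQ

open MvPolynomial Finset

/-- the ring `ℂ[u, v]` -/
abbrev P := MvPolynomial (Fin 2) ℂ

variable (w : Fin 2 → ℕ)

/-- the weight of a monomial -/
noncomputable def wt (m : Fin 2 →₀ ℕ) : ℤ := (Finsupp.weight w m : ℕ)

/-- all monomials of `a` have weight at least `j` -/
def O (j : ℤ) (a : P) : Prop := ∀ m, a.coeff m ≠ 0 → j ≤ wt w m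

/-- all monomials of `a` have weight `j` -/
def Hg (j : ℤ) (a : P) : Prop := ∀ m, a.coeff m ≠ 0 → wt w m = j

/-- the component of weight `j` -/
noncomputable def cmp (j : ℤ) (a : P) : P :=
  if 0 ≤ j then weightedHomogeneousComponent w j.toNat a else 0

variable {w}

lemma wt_nonneg (m : Fin 2 →₀ ℕ) : 0 ≤ wt w m := by
  unfold wt
  exact Int.natCast_nonneg _

lemma wt_add (m n : Fin 2 →₀ ℕ) : wt w (m + n) = wt w m + wt w n := by
  unfold wt
  rw [map_add]
  push_cast
  ring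

lemma wt_single (k : Fin 2) : wt w (Finsupp.single k 1) = w k := by
  unfold wt
  rw [Finsupp.weight_single]
  simp

lemma wt_eq (m : Fin 2 →₀ ℕ) : wt w m = w 0 * m 0 + w 1 * m 1 := by
  unfold wt
  rw [Finsupp.weight_apply, Finsupp.sum_fintype _ _ (fun i => by simp)]
  simp [Fin.sum_univ_two]
  ring

lemma coeff_cmp (j : ℤ) (a : P) (m : Fin 2 →₀ ℕ) :
    (cmp w j a).coeff m = if wt w m = j then a.coeff m else 0 := by
  classical
  unfold cmp
  by_cases hj : 0 ≤ j
  · rw [if_pos hj, coeff_weightedHomogeneousComponent]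
    by_cases h : wt w m = j
    · rw [if_pos h, if_pos]
      unfold wt at h
      omega
    · rw [if_neg h, if_neg]
      unfold wt at h
      omega
  · rw [if_neg hj, coeff_zero, if_neg]
    have := wt_nonneg (w := w) m
    omega

lemma Hg_cmp (j : ℤ) (a : P) : Hg w j (cmp w j a) := by
  intro m hm
  rw [coeff_cmp] at hm
  by_contra h
  rw [if_neg h] at hm
  exact hm rfl

lemma Hg.O {j : ℤ} {a : P} (h : Hg w j a) : O w j a := fun m hm => (h m hm).ge

lemma O.mono {i j : ℤ} {a : P} (h : O w j a) (hij : i ≤ j) : O w i a :=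
  fun m hm => hij.trans (h m hm)

lemma O_zero (j : ℤ) : O w j (0 : P) := fun m hm => absurd (coeff_zero m) hm

lemma Hg_zero (j : ℤ) : Hg w j (0 : P) := fun m hm => absurd (coeff_zero m) hm

lemma O_nonpos {j : ℤ} (hj : j ≤ 0) (a : P) : O w j a := fun m _ => hj.trans (wt_nonneg m)

lemma O.add {j : ℤ} {a b : P} (ha : O w j a) (hb : O w j b) : O w j (a + b) := by
  intro m hm
  rw [coeff_add] at hm
  by_cases h : a.coeff m = 0
  · refine hb m fun h2 => hm ?_
    rw [h, h2, add_zero]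
  · exact ha m h

lemma O.neg {j : ℤ} {a : P} (ha : O w j a) : O w j (-a) := by
  intro m hm
  rw [coeff_neg] at hm
  exact ha m fun h => hm (by rw [h, neg_zero])

lemma O.sub {j : ℤ} {a b : P} (ha : O w j a) (hb : O w j b) : O w j (a - b) := by
  rw [sub_eq_add_neg]
  exact ha.add hb.neg

lemma O.sum {ι : Type*} {s : Finset ι} {j : ℤ} {a : ι → P} (h : ∀ i ∈ s, O w j (a i)) :
    O w j (∑ i ∈ s, a i) := by
  classical
  induction s using Finset.induction_on with
  | empty =>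
    rw [Finset.sum_empty]
    exact O_zero j
  | insert i s hi ih =>
    rw [Finset.sum_insert hi]
    exact (h i (Finset.mem_insert_self _ _)).add
      (ih fun i hi => h i (Finset.mem_insert_of_mem hi))

lemma Hg.add {j : ℤ} {a b : P} (ha : Hg w j a) (hb : Hg w j b) : Hg w j (a + b) := by
  intro m hm
  rw [coeff_add] at hm
  by_cases h : a.coeff m = 0
  · refine hb m fun h2 => hm ?_
    rw [h, h2, add_zero]
  · exact ha m h

lemma Hg.neg {j : ℤ} {a : P} (ha : Hg w j a) : Hg w j (-a) := by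
  intro m hm
  rw [coeff_neg] at hm
  exact ha m fun h => hm (by rw [h, neg_zero])

lemma Hg.sub {j : ℤ} {a b : P} (ha : Hg w j a) (hb : Hg w j b) : Hg w j (a - b) := by
  rw [sub_eq_add_neg]
  exact ha.add hb.neg

lemma O.mul {i j : ℤ} {a b : P} (ha : O w i a) (hb : O w j b) : O w (i + j) (a * b) := by
  classical
  intro m hm
  rw [coeff_mul] at hm
  obtain ⟨x, hx, hx2⟩ := Finset.exists_ne_zero_of_sum_ne_zero hm
  rw [Finset.HasAntidiagonal.mem_antidiagonal] at hx
  rw [← hx, wt_add]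
  exact add_le_add (ha _ (left_ne_zero_of_mul hx2)) (hb _ (right_ne_zero_of_mul hx2))

lemma Hg.mul {i j : ℤ} {a b : P} (ha : Hg w i a) (hb : Hg w j b) : Hg w (i + j) (a * b) := by
  classical
  intro m hm
  rw [coeff_mul] at hm
  obtain ⟨x, hx, hx2⟩ := Finset.exists_ne_zero_of_sum_ne_zero hm
  rw [Finset.HasAntidiagonal.mem_antidiagonal] at hx
  rw [← hx, wt_add, ha _ (left_ne_zero_of_mul hx2), hb _ (right_ne_zero_of_mul hx2)]

lemma Hg.of_eq {i j : ℤ} {a : P} (ha : Hg w i a) (h : i = j) : Hg w j a := h ▸ ha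

lemma O.of_eq {i j : ℤ} {a : P} (ha : O w i a) (h : i = j) : O w j a := h ▸ ha

lemma Hg_C (c : ℂ) : Hg w 0 (C c) := by
  classical
  intro m hm
  rw [coeff_C] at hm
  by_cases h : 0 = m
  · rw [← h]
    unfold wt
    simp
  · rw [if_neg h] at hm
    exact absurd rfl hm

lemma Hg_one : Hg w 0 (1 : P) := by
  rw [← C_1]
  exact Hg_C 1

lemma Hg_X (k : Fin 2) : Hg w (w k) (X k) := by
  classical
  intro m hm
  rw [coeff_X] at hm
  by_cases h : Finsupp.single k 1 = m
  · rw [← h, wt_single]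
  · rw [if_neg h] at hm
    exact absurd rfl hm

lemma Hg.C_mul {j : ℤ} {a : P} (ha : Hg w j a) (c : ℂ) : Hg w j (C c * a) :=
  ((Hg_C c).mul ha).of_eq (zero_add j)

lemma O.C_mul {j : ℤ} {a : P} (ha : O w j a) (c : ℂ) : O w j (C c * a) :=
  ((Hg_C c).O.mul ha).of_eq (zero_add j)

lemma Hg.pow {j : ℤ} {a : P} (ha : Hg w j a) (n : ℕ) : Hg w (n * j) (a ^ n) := by
  induction n with
  | zero =>
    rw [pow_zero]
    exact Hg_one.of_eq (by simp)
  | succ n ih =>
    rw [pow_succ]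
    exact (ih.mul ha).of_eq (by push_cast; ring)

lemma O.pow {j : ℤ} {a : P} (ha : O w j a) (n : ℕ) : O w (n * j) (a ^ n) := by
  induction n with
  | zero =>
    rw [pow_zero]
    exact Hg_one.O.of_eq (by simp)
  | succ n ih =>
    rw [pow_succ]
    exact (ih.mul ha).of_eq (by push_cast; ring)

lemma cmp_add (j : ℤ) (a b : P) : cmp w j (a + b) = cmp w j a + cmp w j b := by
  ext m
  rw [coeff_add, coeff_cmp, coeff_cmp, coeff_cmp, coeff_add]
  split_ifs <;> simp

lemma cmp_neg (j : ℤ) (a : P) : cmp w j (-a) = -cmp w j a := by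
  ext m
  rw [coeff_neg, coeff_cmp, coeff_cmp, coeff_neg]
  split_ifs <;> simp

lemma cmp_sub (j : ℤ) (a b : P) : cmp w j (a - b) = cmp w j a - cmp w j b := by
  rw [sub_eq_add_neg, cmp_add, cmp_neg, ← sub_eq_add_neg]

lemma cmp_zero (j : ℤ) : cmp w j (0 : P) = 0 := by
  ext m
  rw [coeff_cmp, coeff_zero]
  split_ifs <;> rfl

lemma cmp_self {j : ℤ} {a : P} (h : Hg w j a) : cmp w j a = a := by
  ext m
  rw [coeff_cmp]
  by_cases h2 : wt w m = j
  · rw [if_pos h2]
  · rw [if_neg h2]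
    by_contra h3
    exact h2 (h m (Ne.symm h3))

lemma cmp_eq_zero_of_O {i j : ℤ} {a : P} (h : O w j a) (hij : i < j) : cmp w i a = 0 := by
  ext m
  rw [coeff_cmp, coeff_zero]
  split_ifs with h2
  · by_contra h3
    have := h m h3
    omega
  · rfl

lemma cmp_eq_zero_of_Hg {i j : ℤ} {a : P} (h : Hg w j a) (hij : i ≠ j) : cmp w i a = 0 := by
  ext m
  rw [coeff_cmp, coeff_zero]
  split_ifs with h2
  · by_contra h3
    exact hij (h2.symm.trans (h m h3))
  · rfl

lemma O_succ {j : ℤ} {a : P} (h : O w j a) (h0 : cmp w j a = 0) : O w (j + 1) a := by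
  intro m hm
  have h1 := h m hm
  by_contra h2
  have h3 : wt w m = j := by omega
  have h4 := congrArg (coeff m) h0
  rw [coeff_cmp, if_pos h3, coeff_zero] at h4
  exact hm h4

lemma O_sub_cmp {j : ℤ} {a : P} (h : O w j a) : O w (j + 1) (a - cmp w j a) := by
  refine O_succ (h.sub (Hg_cmp j a).O) ?_
  rw [cmp_sub, cmp_self (Hg_cmp j a), sub_self]

lemma cmp_mul {i j : ℤ} {a b : P} (ha : O w i a) (hb : O w j b) :
    cmp w (i + j) (a * b) = cmp w i a * cmp w j b := by
  classical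
  ext m
  rw [coeff_cmp]
  by_cases h : wt w m = i + j
  · rw [if_pos h, coeff_mul, coeff_mul]
    refine Finset.sum_congr rfl fun x hx => ?_
    rw [Finset.HasAntidiagonal.mem_antidiagonal] at hx
    have h1 : wt w x.1 + wt w x.2 = i + j := by rw [← wt_add, hx, h]
    rw [coeff_cmp, coeff_cmp]
    by_cases ha0 : a.coeff x.1 = 0
    · rw [ha0]
      simp
    by_cases hb0 : b.coeff x.2 = 0
    · rw [hb0]
      simp
    have h2 := ha _ ha0
    have h3 := hb _ hb0
    rw [if_pos (by omega), if_pos (by omega)]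
  · rw [if_neg h]
    by_contra h2
    exact h ((Hg_cmp i a).mul (Hg_cmp j b) m (Ne.symm h2))

lemma cmp_mul_Hg {i : ℤ} {a : P} (ha : Hg w i a) (j : ℤ) (b : P) :
    cmp w (i + j) (a * b) = a * cmp w j b := by
  classical
  ext m
  rw [coeff_cmp]
  by_cases h : wt w m = i + j
  · rw [if_pos h, coeff_mul, coeff_mul]
    refine Finset.sum_congr rfl fun x hx => ?_
    rw [Finset.HasAntidiagonal.mem_antidiagonal] at hx
    have h1 : wt w x.1 + wt w x.2 = i + j := by rw [← wt_add, hx, h]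
    rw [coeff_cmp]
    by_cases ha0 : a.coeff x.1 = 0
    · rw [ha0]
      simp
    have h2 := ha _ ha0
    rw [if_pos (by omega)]
  · rw [if_neg h]
    by_contra h2
    exact h (ha.mul (Hg_cmp j b) m (Ne.symm h2))

lemma cmp_pderiv (j : ℤ) (k : Fin 2) (a : P) :
    cmp w j (pderiv k a) = pderiv k (cmp w (j + w k) a) := by
  classical
  ext m
  rw [coeff_cmp, coeff_pderiv, coeff_pderiv, coeff_cmp, wt_add, wt_single]
  by_cases h : wt w m = j
  · rw [if_pos h, if_pos (by omega)]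
  · rw [if_neg h, if_neg (by omega), zero_mul]

lemma O.pderiv {j : ℤ} {a : P} (h : O w j a) (k : Fin 2) :
    O w (j - w k) (MvPolynomial.pderiv k a) := by
  intro m hm
  rw [coeff_pderiv] at hm
  have h1 := h _ (left_ne_zero_of_mul hm)
  rw [wt_add, wt_single] at h1
  omega

lemma Hg.pderiv {j : ℤ} {a : P} (h : Hg w j a) (k : Fin 2) :
    Hg w (j - w k) (MvPolynomial.pderiv k a) := by
  intro m hm
  rw [coeff_pderiv] at hm
  have h1 := h _ (left_ne_zero_of_mul hm)
  rw [wt_add, wt_single] at h1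
  omega

lemma Hg.neg_zero {j : ℤ} {a : P} (h : Hg w j a) (hj : j < 0) : a = 0 := by
  ext m
  rw [coeff_zero]
  by_contra h2
  have h3 := h m h2
  have := wt_nonneg (w := w) m
  omega

lemma Hg_iff_weighted {n : ℕ} {a : P} : Hg w n a ↔ a.IsWeightedHomogeneous w n := by
  unfold Hg IsWeightedHomogeneous wt
  constructor
  · intro h m hm
    exact_mod_cast h m hm
  · intro h m hm
    exact_mod_cast h hm

/-- Euler's identity -/
lemma Hg.euler {j : ℤ} {a : P} (h : Hg w j a) :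
    C (w 0 : ℂ) * X 0 * MvPolynomial.pderiv 0 a + C (w 1 : ℂ) * X 1 * MvPolynomial.pderiv 1 a =
      C (j : ℂ) * a := by
  by_cases hj : 0 ≤ j
  · obtain ⟨n, rfl⟩ := Int.eq_ofNat_of_zero_le hj
    have h1 := (Hg_iff_weighted.1 h).sum_weight_X_mul_pderiv
    rw [Fin.sum_univ_two] at h1
    simp only [nsmul_eq_mul] at h1
    have h2 : ∀ n : ℕ, ((n : ℕ) : P) = C (n : ℂ) := fun n => by simp
    rw [h2, h2, h2] at h1
    have h3 : (((n : ℕ) : ℤ) : ℂ) = (n : ℂ) := by push_cast; rfl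
    rw [h3, ← h1]
    ring
  · rw [h.neg_zero (by omega)]
    simp

lemma O.zero_of_all {a : P} (h : ∀ j : ℕ, O w j a) : a = 0 := by
  ext m
  rw [coeff_zero]
  by_contra h2
  have h3 := h ((wt w m).toNat + 1) m h2
  have := wt_nonneg (w := w) m
  push_cast at h3
  omega

lemma Hg_of_mul {i j : ℤ} {a b s : P} (ha : Hg w i a) (ha0 : a ≠ 0) (hs : Hg w j s)
    (h : s = a * b) : Hg w (j - i) b := by
  have h1 : a * cmp w (j - i) b = a * b := by
    rw [← cmp_mul_Hg ha, ← h]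
    have : i + (j - i) = j := by ring
    rw [this, cmp_self hs]
  rw [← mul_left_cancel₀ ha0 h1]
  exact Hg_cmp _ _

/-- orders of one forms: `du` has the weight `w 0` and `dv` has the weight `w 1` -/
def OF (w : Fin 2 → ℕ) (j : ℤ) (θ : Fin 2 → P) : Prop := ∀ k, O w (j - w k) (θ k)

/-- homogeneous one forms -/
def HF (w : Fin 2 → ℕ) (j : ℤ) (θ : Fin 2 → P) : Prop := ∀ k, Hg w (j - w k) (θ k)

/-- component of a one form -/
noncomputable def cF (w : Fin 2 → ℕ) (j : ℤ) (θ : Fin 2 → P) : Fin 2 → P :=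
  fun k => cmp w (j - w k) (θ k)

lemma HF_cF (j : ℤ) (θ : Fin 2 → P) : HF w j (cF w j θ) := fun k => Hg_cmp _ _

lemma HF.OF {j : ℤ} {θ : Fin 2 → P} (h : HF w j θ) : OF w j θ := fun k => (h k).O

lemma OF.mono {i j : ℤ} {θ : Fin 2 → P} (h : OF w j θ) (hij : i ≤ j) : OF w i θ :=
  fun k => (h k).mono (by omega)

lemma OF.add {j : ℤ} {a b : Fin 2 → P} (ha : OF w j a) (hb : OF w j b) : OF w j (a + b) :=
  fun k => (ha k).add (hb k)

lemma OF.sub {j : ℤ} {a b : Fin 2 → P} (ha : OF w j a) (hb : OF w j b) : OF w j (a - b) :=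
  fun k => (ha k).sub (hb k)

lemma OF.smul {i j : ℤ} {a : P} {b : Fin 2 → P} (ha : O w i a) (hb : OF w j b) :
    OF w (i + j) (a • b) := by
  intro k
  rw [Pi.smul_apply, smul_eq_mul]
  exact (ha.mul (hb k)).of_eq (by ring)

lemma HF.smul {i j : ℤ} {a : P} {b : Fin 2 → P} (ha : Hg w i a) (hb : HF w j b) :
    HF w (i + j) (a • b) := by
  intro k
  rw [Pi.smul_apply, smul_eq_mul]
  exact (ha.mul (hb k)).of_eq (by ring)

lemma HF.add {j : ℤ} {a b : Fin 2 → P} (ha : HF w j a) (hb : HF w j b) : HF w j (a + b) :=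
  fun k => (ha k).add (hb k)

lemma HF.sub {j : ℤ} {a b : Fin 2 → P} (ha : HF w j a) (hb : HF w j b) : HF w j (a - b) :=
  fun k => (ha k).sub (hb k)

lemma OF_succ {j : ℤ} {a : Fin 2 → P} (h : OF w j a) (h0 : cF w j a = 0) : OF w (j + 1) a := by
  intro k
  refine (O_succ (h k) (congrFun h0 k)).of_eq (by ring)

lemma cF_sub (j : ℤ) (a b : Fin 2 → P) : cF w j (a - b) = cF w j a - cF w j b := by
  funext k
  exact cmp_sub _ _ _

lemma cF_smul {i j : ℤ} {a : P} {b : Fin 2 → P} (ha : O w i a) (hb : OF w j b) :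
    cF w (i + j) (a • b) = cmp w i a • cF w j b := by
  funext k
  show cmp w (i + j - w k) (a * b k) = cmp w i a * cmp w (j - w k) (b k)
  rw [← cmp_mul ha (hb k)]
  congr 1
  ring

lemma cF_self {j : ℤ} {θ : Fin 2 → P} (h : HF w j θ) : cF w j θ = θ := by
  funext k
  exact cmp_self (h k)

/-- the gradient -/
noncomputable def gr (a : P) : Fin 2 → P := fun k => MvPolynomial.pderiv k a

lemma OF_gr {j : ℤ} {a : P} (h : O w j a) : OF w j (gr a) := fun k => h.pderiv k

lemma HF_gr {j : ℤ} {a : P} (h : Hg w j a) : HF w j (gr a) := fun k => h.pderiv k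

lemma cF_gr (j : ℤ) (a : P) : cF w j (gr a) = gr (cmp w j a) := by
  funext k
  show cmp w (j - w k) (MvPolynomial.pderiv k a) = MvPolynomial.pderiv k (cmp w j a)
  rw [cmp_pderiv]
  congr 2
  ring

/-- the wedge product of two one forms -/
noncomputable def wd (a b : Fin 2 → P) : P := a 0 * b 1 - a 1 * b 0

/-- the exterior derivative of a one form -/
noncomputable def rt (a : Fin 2 → P) : P :=
  MvPolynomial.pderiv 0 (a 1) - MvPolynomial.pderiv 1 (a 0)

/-- the contraction of a one form with the Euler field -/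
noncomputable def ct (w : Fin 2 → ℕ) (a : Fin 2 → P) : P :=
  C (w 0 : ℂ) * X 0 * a 0 + C (w 1 : ℂ) * X 1 * a 1

/-- the contraction of `du dv` with the Euler field -/
noncomputable def kp (w : Fin 2 → ℕ) : Fin 2 → P :=
  ![-(C (w 1 : ℂ) * X 1), C (w 0 : ℂ) * X 0]

lemma O_wd {i j : ℤ} {a b : Fin 2 → P} (ha : OF w i a) (hb : OF w j b) :
    O w (i + j - w 0 - w 1) (wd a b) := by
  unfold wd
  exact (((ha 0).mul (hb 1)).of_eq (by ring)).sub (((ha 1).mul (hb 0)).of_eq (by ring))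

lemma cmp_wd {i j : ℤ} {a b : Fin 2 → P} (ha : OF w i a) (hb : OF w j b) :
    cmp w (i + j - w 0 - w 1) (wd a b) = wd (cF w i a) (cF w j b) := by
  unfold wd
  rw [cmp_sub]
  congr 1
  · have : i + j - w 0 - w 1 = (i - w 0) + (j - w 1) := by ring
    rw [this, cmp_mul (ha 0) (hb 1)]
    rfl
  · have : i + j - w 0 - w 1 = (i - w 1) + (j - w 0) := by ring
    rw [this, cmp_mul (ha 1) (hb 0)]
    rfl

lemma O_rt {j : ℤ} {a : Fin 2 → P} (ha : OF w j a) : O w (j - w 0 - w 1) (rt a) := by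
  unfold rt
  exact (((ha 1).pderiv 0).of_eq (by ring)).sub (((ha 0).pderiv 1).of_eq (by ring))

lemma cmp_rt (j : ℤ) (a : Fin 2 → P) : cmp w (j - w 0 - w 1) (rt a) = rt (cF w j a) := by
  unfold rt
  rw [cmp_sub, cmp_pderiv, cmp_pderiv]
  congr 2
  · show cmp w _ (a 1) = cmp w _ (a 1)
    congr 1
    ring
  · show cmp w _ (a 0) = cmp w _ (a 0)
    congr 1
    ring

lemma Hg_ct {j : ℤ} {a : Fin 2 → P} (ha : HF w j a) : Hg w j (ct w a) := by
  unfold ct
  have h1 := ((Hg_X (w := w) 0).C_mul (w 0 : ℂ)).mul (ha 0)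
  have h2 := ((Hg_X (w := w) 1).C_mul (w 1 : ℂ)).mul (ha 1)
  exact (h1.of_eq (by ring)).add (h2.of_eq (by ring))

lemma HF_kp : HF w (w 0 + w 1) (kp w) := by
  intro k
  fin_cases k
  · exact ((Hg_X (w := w) 1).C_mul (w 1 : ℂ)).neg.of_eq (by simp)
  · exact ((Hg_X (w := w) 0).C_mul (w 0 : ℂ)).of_eq (by simp)

/-- Cartan's formula for a homogeneous one form -/
lemma cartan {j : ℤ} {θ : Fin 2 → P} (h : HF w j θ) :
    gr (ct w θ) + rt θ • kp w = (C (j : ℂ) : P) • θ := by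
  have h0 := (h 0).euler
  have h1 := (h 1).euler
  funext k
  fin_cases k
  · show MvPolynomial.pderiv 0 (C (w 0 : ℂ) * X 0 * θ 0 + C (w 1 : ℂ) * X 1 * θ 1) +
      (MvPolynomial.pderiv 0 (θ 1) - MvPolynomial.pderiv 1 (θ 0)) * (-(C (w 1 : ℂ) * X 1)) =
      C (j : ℂ) * θ 0
    simp only [map_add, Derivation.leibniz, pderiv_C, pderiv_X_self, smul_eq_mul, smul_zero,
      mul_zero, add_zero, mul_one]
    have h2 : MvPolynomial.pderiv (0 : Fin 2) (X 1 : P) = 0 := by
      rw [pderiv_X_of_ne (by decide)]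
    rw [h2]
    have h3 : (C ((j - w 0 : ℤ) : ℂ) : P) = C (j : ℂ) - C (w 0 : ℂ) := by
      push_cast
      rw [C_sub]
    rw [h3] at h0
    linear_combination h0
  · show MvPolynomial.pderiv 1 (C (w 0 : ℂ) * X 0 * θ 0 + C (w 1 : ℂ) * X 1 * θ 1) +
      (MvPolynomial.pderiv 0 (θ 1) - MvPolynomial.pderiv 1 (θ 0)) * (C (w 0 : ℂ) * X 0) =
      C (j : ℂ) * θ 1
    simp only [map_add, Derivation.leibniz, pderiv_C, pderiv_X_self, smul_eq_mul, smul_zero,
      mul_zero, add_zero, mul_one]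
    have h2 : MvPolynomial.pderiv (1 : Fin 2) (X 0 : P) = 0 := by
      rw [pderiv_X_of_ne (by decide)]
    rw [h2]
    have h3 : (C ((j - w 1 : ℤ) : ℂ) : P) = C (j : ℂ) - C (w 1 : ℂ) := by
      push_cast
      rw [C_sub]
    rw [h3] at h1
    linear_combination h1

/-- `(a ∧ b) κ = (i a) b - (i b) a` -/
lemma wd_kp (a b : Fin 2 → P) : wd a b • kp w = ct w a • b - ct w b • a := by
  funext k
  fin_cases k
  · show (a 0 * b 1 - a 1 * b 0) * (-(C (w 1 : ℂ) * X 1)) =
      (C (w 0 : ℂ) * X 0 * a 0 + C (w 1 : ℂ) * X 1 * a 1) * b 0 -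
      (C (w 0 : ℂ) * X 0 * b 0 + C (w 1 : ℂ) * X 1 * b 1) * a 0
    ring
  · show (a 0 * b 1 - a 1 * b 0) * (C (w 0 : ℂ) * X 0) =
      (C (w 0 : ℂ) * X 0 * a 0 + C (w 1 : ℂ) * X 1 * a 1) * b 1 -
      (C (w 0 : ℂ) * X 0 * b 0 + C (w 1 : ℂ) * X 1 * b 1) * a 1
    ring

end Pool.Agent.KS6_81.SQ
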